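import Pool.Agent.MP_47ff19_lc.H50K.DefsK
import Pool.Agent.MP_47ff19_lc.H6P.A2c

namespace Pool.Agent.MP_47ff19_lc.H50K

open Relation
open Pool.Agent.MP_47ff19_lc.H6P (Sym tape mv Op un tape_un A2 Table BHalts CM CHalts CStep val)
open Pool.Agent.MP_47ff19_lc.H6P (TwoPDA A2Ph a2lft a2rgt a2lft_un a2rgt_un mv_zero' mv_neg' mv_pos')

/-- reachability along a path on which `π` is constant -/
def Rch {C Q : Type} (g : C → C) (π : C → Q) (a b : C) : Prop :=
  ∃ t, g^[t] a = b ∧ ∀ s ≤ t, π (g^[s] a) = π b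

theorem Rch.rfl' {C Q : Type} {g : C → C} {π : C → Q} (a : C) : Rch g π a a :=
  ⟨0, rfl, fun s hs => by rw [Nat.le_zero.1 hs]; rfl⟩

theorem Rch.hd {C Q : Type} {g : C → C} {π : C → Q} {a b c : C} (h : g a = b) (e : π a = π c)
    (h' : Rch g π b c) : Rch g π a c := by
  obtain ⟨t, h1, h2⟩ := h'
  subst h
  refine ⟨t + 1, h1, fun s hs => ?_⟩
  cases s with
  | zero => exact e
  | succ s => exact h2 s (by omega)

theorem Rch.tr {C Q : Type} {g : C → C} {π : C → Q} {a b c : C} (h : Rch g π a b)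
    (h' : Rch g π b c) : Rch g π a c := by
  obtain ⟨t, h1, h2⟩ := h
  have e : π b = π c := h'.choose_spec.2 0 (Nat.zero_le _)
  induction t generalizing a with
  | zero => exact (show a = b from h1) ▸ h'
  | succ t ih =>
    exact Rch.hd rfl ((h2 0 (Nat.zero_le _)).trans e) (ih h1 fun s hs => h2 (s + 1) (by omega))

theorem sim_iff {C C' Q : Type} (f : C → C) (g : C' → C') (π : C → Q) (π' : C' → Q)
    (Rep : C → C' → Prop) (hπ : ∀ c c', Rep c c' → π c = π' c') {a : C} {a' : C'}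
    (h0 : ∃ c', Rch g π' a' c' ∧ Rep a c')
    (hs : ∀ c c', Rep c c' → ∃ c'', Rch g π' (g c') c'' ∧ Rep (f c) c'') (acc : Q → Prop) :
    (∃ t, acc (π' (g^[t] a'))) ↔ ∃ t, acc (π (f^[t] a)) := by
  have key : ∀ t, ∃ T, t ≤ T ∧ Rep (f^[t] a) (g^[T] a') ∧
      ∀ s ≤ T, ∃ u, π' (g^[s] a') = π (f^[u] a) := fun t => by
    induction t with
    | zero =>
      obtain ⟨c', ⟨T, rfl, h2⟩, h3⟩ := h0
      exact ⟨T, Nat.zero_le _, h3, fun s hs => ⟨0, (h2 s hs).trans (hπ _ _ h3).symm⟩⟩
    | succ t ih =>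
      obtain ⟨T, h1, h2, h3⟩ := ih
      obtain ⟨c'', ⟨U, rfl, h4⟩, h5⟩ := hs _ _ h2
      have e : ∀ s, g^[s] (g (g^[T] a')) = g^[s + 1 + T] a' := fun s => by
        rw [Function.iterate_add_apply, Function.iterate_succ_apply]
      rw [e, ← Function.iterate_succ_apply' f] at h5
      refine ⟨U + 1 + T, by omega, h5, fun s hs => ?_⟩
      rcases le_or_gt s T with h | h
      · exact h3 s h
      · obtain ⟨s, rfl⟩ : ∃ r, s = r + 1 + T := ⟨s - 1 - T, by omega⟩
        exact ⟨t + 1, by rw [← e, h4 s (by omega), e]; exact (hπ _ _ h5).symm⟩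
  constructor
  · rintro ⟨t, h⟩
    obtain ⟨T, h1, -, h3⟩ := key t
    obtain ⟨u, e⟩ := h3 t h1
    exact ⟨u, e ▸ h⟩
  · rintro ⟨t, h⟩
    obtain ⟨T, -, h2, -⟩ := key t
    exact ⟨T, hπ _ _ h2 ▸ h⟩

/-- states of the odometer -/
abbrev OdS (k : ℕ) (Q : Type) := Q × Sym Unit × A2Ph × Bool × Fin (k + 1)

def odSg : Bool → SignType
  | true => 1
  | false => -1

def odEn : Bool → Sym Unit → Bool
  | true => a2rgt
  | false => a2lft

def odBump : Bool → Sym Unit → Sym Unit
  | true, Sym.lft => Sym.ltr ()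
  | true, _ => Sym.rgt
  | false, Sym.rgt => Sym.ltr ()
  | false, _ => Sym.lft

def odNum : Sym Unit → ℕ
  | Sym.lft => 0
  | Sym.ltr _ => 1
  | Sym.rgt => 2

def odSel {k : ℕ} (y : Fin k → Sym Unit) (i : Fin (k + 1)) : Sym Unit :=
  if h : i.val < k then y ⟨i, h⟩ else Sym.lft

def odAt {k : ℕ} (i : Fin (k + 1)) (m : SignType) (j : Fin k) : SignType :=
  if j.val = i.val then m else 0

def odNext {k : ℕ} {Q : Type} (q : Q) (f : Sym Unit) : SignType → OdS k Q
  | SignType.pos => if a2rgt f then (q, f, A2Ph.main, true, 0) else (q, f, A2Ph.dl, true, 0)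
  | SignType.neg => if a2lft f then (q, f, A2Ph.main, true, 0) else (q, f, A2Ph.dl, false, 0)
  | SignType.zero => (q, f, A2Ph.main, true, 0)

def odδ {k : ℕ} {Q G : Type} (D : TwoPDA Unit Q G) : OdS k Q → (Fin k → Sym Unit) → Option G →
    OdS k Q × (Fin k → SignType) × Op G
  | (q, f, A2Ph.main, _, _), _, t =>
      (odNext (D.δ q f t).1 f (D.δ q f t).2.1, fun _ => 0, (D.δ q f t).2.2)
  | (q, f, A2Ph.dl, d, i), _, _ =>
      if i.val < k then ((q, f, A2Ph.dr, d, i), odAt i (odSg d), Op.keep)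
      else ((q, odBump d f, A2Ph.main, d, i), fun _ => 0, Op.keep)
  | (q, f, A2Ph.dr, d, i), y, _ =>
      if odEn d (odSel y i) then ((q, f, A2Ph.dr2, d, i), fun _ => 0, Op.keep)
      else ((q, f, A2Ph.main, d, i), fun _ => 0, Op.keep)
  | (q, f, A2Ph.dr2, d, i), y, _ =>
      if odEn (!d) (odSel y i) then ((q, f, A2Ph.dl, d, i + 1), odAt i (odSg d), Op.keep)
      else ((q, f, A2Ph.dr2, d, i), odAt i (odSg (!d)), Op.keep)
  | (q, _, _, _, _), _, _ => ((q, Sym.ltr (), A2Ph.dl, false, 0), fun _ => 1, Op.keep)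

def odD (k : ℕ) {Q G : Type} (D : TwoPDA Unit Q G) : MultiPDA k Unit (OdS k Q) G where
  start := (D.start, Sym.lft, A2Ph.lr, true, 0)
  acc := fun s => D.acc s.1
  δ := odδ D

def odVal {k : ℕ} (N : ℕ) (x : Fin k → ℕ) : ℕ := ∑ j, (x j - 1) * N ^ j.val

def odOk {k : ℕ} (N : ℕ) (x : Fin k → ℕ) : Prop := ∀ j, 1 ≤ x j ∧ x j ≤ N

section
variable {k N : ℕ} {Q G : Type} {D : TwoPDA Unit Q G}

theorem odVal_up (x : Fin k → ℕ) (j : Fin k) (a : ℕ) :
    odVal N (Function.update x j a) + (x j - 1) * N ^ j.val = odVal N x + (a - 1) * N ^ j.val := by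
  unfold odVal
  rw [← Finset.add_sum_erase _ _ (Finset.mem_univ j),
    ← Finset.add_sum_erase _ (fun i => (x i - 1) * N ^ i.val) (Finset.mem_univ j),
    Function.update_self, Finset.sum_congr rfl fun i hi => by
      rw [Function.update_of_ne (Finset.ne_of_mem_erase hi)]]
  ring

theorem odVal_lt (hN : 1 ≤ N) {x : Fin k → ℕ} (h : odOk N x) : odVal N x + 1 ≤ N ^ k := by
  obtain ⟨M, rfl⟩ : ∃ M, N = M + 1 := ⟨N - 1, by omega⟩
  rw [← geom_sum_mul_add M k, Finset.sum_mul, ← Fin.sum_univ_eq_sum_range fun i => (M + 1) ^ i * M]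
  refine Nat.succ_le_succ (Finset.sum_le_sum fun j _ => ?_)
  rw [mul_comm]
  exact Nat.mul_le_mul_left _ (by have := h j; omega)

theorem odOk.up {x : Fin k → ℕ} (h : odOk N x) (j : Fin k) {a : ℕ} (h1 : 1 ≤ a) (h2 : a ≤ N) :
    odOk N (Function.update x j a) := fun i => by
  rcases eq_or_ne i j with rfl | e
  · rw [Function.update_self]; exact ⟨h1, h2⟩
  · rw [Function.update_of_ne e]; exact h i

theorem od_at (x : Fin k → ℕ) (j : Fin k) (m : SignType) :
    (fun i => mv N (x i) (odAt j.castSucc m i)) = Function.update x j (mv N (x j) m) := by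
  funext i
  rcases eq_or_ne i j with rfl | e
  · simp [odAt]
  · have : i.val ≠ j.val := fun h => e (Fin.ext h)
    simp [odAt, this, e, mv_zero']

theorem od_sel (y : Fin k → Sym Unit) (j : Fin k) : odSel y j.castSucc = y j := by
  simp [odSel]

/-- reachability for the odometer -/
abbrev OdR (D : TwoPDA Unit Q G) (N : ℕ) :=
  Rch ((odD k D).step (un N)) fun c => c.1.1

theorem od_runL (q : Q) (f : Sym Unit) (j : Fin k) (s : List G) (p : ℕ) (x : Fin k → ℕ)
    (hx : x j = p) : OdR D N ((q, f, A2Ph.dr2, true, j.castSucc), x, s)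
      ((q, f, A2Ph.dl, true, j.succ), Function.update x j 1, s) := by
  induction p generalizing x with
  | zero =>
    exact Rch.hd (by simp [MultiPDA.step, odD, odδ, od_sel, od_at, odEn, odSg, a2lft_un, hx,
      mv_pos', Op.app]) rfl (Rch.rfl' _)
  | succ p ih =>
    have := ih (Function.update x j p) (Function.update_self _ _ _)
    rw [Function.update_idem] at this
    exact Rch.hd (by simp [MultiPDA.step, odD, odδ, od_sel, od_at, odEn, odSg, a2lft_un, hx,
      mv_neg', Op.app]) rfl this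

theorem od_runR (q : Q) (f : Sym Unit) (j : Fin k) (s : List G) (e : ℕ) (x : Fin k → ℕ)
    (hx : x j + e = N + 1) : OdR D N ((q, f, A2Ph.dr2, false, j.castSucc), x, s)
      ((q, f, A2Ph.dl, false, j.succ), Function.update x j N, s) := by
  induction e generalizing x with
  | zero =>
    have hx : x j = N + 1 := hx
    exact Rch.hd (by simp [MultiPDA.step, odD, odδ, od_sel, od_at, odEn, odSg, a2rgt_un, hx,
      mv_neg', Op.app]) rfl (Rch.rfl' _)
  | succ e ih =>
    have := ih (Function.update x j (x j + 1)) (by rw [Function.update_self]; omega)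
    rw [Function.update_idem] at this
    have h1 : ¬ N < x j := by omega
    have h2 : min (x j + 1) (N + 1) = x j + 1 := by omega
    exact Rch.hd (by simp only [MultiPDA.step, odD, odδ, od_sel, od_at, odEn, odSg, a2rgt_un, h1,
      mv_pos', Op.app, Bool.not_false, decide_false, Bool.false_eq_true, if_false,
      List.length_replicate, h2]) rfl this

theorem od_inc (hN : 1 ≤ N) (q : Q) (f : Sym Unit) (s : List G) (i : Fin (k + 1)) :
    ∀ x : Fin k → ℕ, odOk N x → ∃ x' f' i', OdR D N ((q, f, A2Ph.dl, true, i), x, s)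
      ((q, f', A2Ph.main, true, i'), x', s) ∧ odOk N x' ∧
      (f' = f ∧ odVal N x' = odVal N x + N ^ i.val ∨
        f' = odBump true f ∧ odVal N x' + N ^ k = odVal N x + N ^ i.val) := by
  induction i using Fin.reverseInduction with
  | last =>
    exact fun x hx => ⟨x, _, Fin.last k, Rch.hd (by
      simp [MultiPDA.step, odD, odδ, mv_zero', Op.app]) rfl (Rch.rfl' _), hx, .inr ⟨rfl, rfl⟩⟩
  | cast j ih =>
    intro x hx
    obtain ⟨h1, h2⟩ := hx j
    have h3 : min (x j + 1) (N + 1) = x j + 1 := by omega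
    have e1 : (odD k D).step (un N) ((q, f, A2Ph.dl, true, j.castSucc), x, s) =
        ((q, f, A2Ph.dr, true, j.castSucc), Function.update x j (x j + 1), s) := by
      simp only [MultiPDA.step, odD, odδ, od_at, odSg, mv_pos', Op.app, Fin.val_castSucc,
        j.isLt, if_true, List.length_replicate, h3]
    rcases h2.lt_or_eq with h | h
    · refine ⟨Function.update x j (x j + 1), f, j.castSucc, Rch.hd e1 rfl (Rch.hd ?_ rfl
        (Rch.rfl' _)), hx.up j (by omega) h, .inl ⟨rfl, ?_⟩⟩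
      · have : ¬ N < x j + 1 := by omega
        simp [MultiPDA.step, odD, odδ, od_sel, odEn, a2rgt_un, this, mv_zero', Op.app]
      · have := odVal_up (N := N) x j (x j + 1)
        rw [show x j + 1 - 1 = x j - 1 + 1 by omega, add_mul, one_mul] at this
        rw [Fin.val_castSucc]
        omega
    · obtain ⟨x', f', i', r1, r2, r3⟩ := ih _ (hx.up j le_rfl hN)
      have r4 := od_runL (D := D) (N := N) q f j s _ (Function.update x j (x j + 1)) rfl
      rw [Function.update_idem] at r4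
      refine ⟨x', f', i', Rch.hd e1 rfl (Rch.hd ?_ rfl (r4.tr r1)), r2, ?_⟩
      · simp [MultiPDA.step, odD, odδ, od_sel, odEn, a2rgt_un, h, mv_zero', Op.app]
      · have := odVal_up (N := N) x j 1
        have e2 : N ^ (j.val + 1) = (x j - 1) * N ^ j.val + N ^ j.val := by
          rw [pow_succ', ← add_one_mul, h, Nat.sub_add_cancel hN]
        rw [Fin.val_succ, e2] at r3
        rw [Fin.val_castSucc]
        refine r3.imp (fun r => ⟨r.1, ?_⟩) fun r => ⟨r.1, ?_⟩ <;> omega

theorem od_dec (hN : 1 ≤ N) (q : Q) (f : Sym Unit) (s : List G) (i : Fin (k + 1)) :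
    ∀ x : Fin k → ℕ, odOk N x → ∃ x' f' i', OdR D N ((q, f, A2Ph.dl, false, i), x, s)
      ((q, f', A2Ph.main, false, i'), x', s) ∧ odOk N x' ∧
      (f' = f ∧ odVal N x' + N ^ i.val = odVal N x ∨
        f' = odBump false f ∧ odVal N x' + N ^ i.val = odVal N x + N ^ k) := by
  induction i using Fin.reverseInduction with
  | last =>
    exact fun x hx => ⟨x, _, Fin.last k, Rch.hd (by
      simp [MultiPDA.step, odD, odδ, mv_zero', Op.app]) rfl (Rch.rfl' _), hx, .inr ⟨rfl, rfl⟩⟩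
  | cast j ih =>
    intro x hx
    obtain ⟨h1, h2⟩ := hx j
    have e1 : (odD k D).step (un N) ((q, f, A2Ph.dl, false, j.castSucc), x, s) =
        ((q, f, A2Ph.dr, false, j.castSucc), Function.update x j (x j - 1), s) := by
      simp only [MultiPDA.step, odD, odδ, od_at, odSg, mv_neg', Op.app, Fin.val_castSucc,
        j.isLt, if_true]
    rcases h1.lt_or_eq with h | h
    · refine ⟨Function.update x j (x j - 1), f, j.castSucc, Rch.hd e1 rfl (Rch.hd ?_ rfl
        (Rch.rfl' _)), hx.up j (by omega) (by omega), .inl ⟨rfl, ?_⟩⟩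
      · have : ¬ x j - 1 = 0 := by omega
        simp [MultiPDA.step, odD, odδ, od_sel, odEn, a2lft_un, this, mv_zero', Op.app]
      · have := odVal_up (N := N) x j (x j - 1)
        rw [show x j - 1 = x j - 1 - 1 + 1 by omega, add_mul, one_mul,
          show x j - 1 - 1 + 1 = x j - 1 by omega] at this
        rw [Fin.val_castSucc]
        omega
    · obtain ⟨x', f', i', r1, r2, r3⟩ := ih _ (hx.up j hN le_rfl)
      have r4 := od_runR (D := D) (N := N) q f j s (N + 1) (Function.update x j (x j - 1))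
        (by rw [Function.update_self]; omega)
      rw [Function.update_idem] at r4
      refine ⟨x', f', i', Rch.hd e1 rfl (Rch.hd ?_ rfl (r4.tr r1)), r2, ?_⟩
      · simp [MultiPDA.step, odD, odδ, od_sel, odEn, a2lft_un, ← h, mv_zero', Op.app]
      · have := odVal_up (N := N) x j N
        have e2 : N ^ (j.val + 1) = (N - 1) * N ^ j.val + N ^ j.val := by
          rw [pow_succ', ← add_one_mul, Nat.sub_add_cancel hN]
        rw [← h, Nat.sub_self, zero_mul] at this
        rw [Fin.val_succ, e2] at r3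
        rw [Fin.val_castSucc]
        refine r3.imp (fun r => ⟨r.1, ?_⟩) fun r => ⟨r.1, ?_⟩ <;> omega

/-- the odometer represents a configuration -/
def OdRep (k N : ℕ) (c : Q × ℕ × List G) (c' : OdS k Q × (Fin k → ℕ) × List G) : Prop :=
  c.1 = c'.1.1 ∧ c'.1.2.2.1 = A2Ph.main ∧ c'.2.2 = c.2.2 ∧ odOk N c'.2.1 ∧
    odNum c'.1.2.1 * N ^ k + odVal N c'.2.1 + 1 = c.2.1 + N ^ k ∧ c.2.1 ≤ N ^ k + 1

theorem od_step (hN : 1 ≤ N) (c : Q × ℕ × List G) (c' : OdS k Q × (Fin k → ℕ) × List G)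
    (h : OdRep k N c c') :
    ∃ c'', OdR D N ((odD k D).step (un N) c') c'' ∧ OdRep k N (D.step (un (N ^ k)) c) c'' := by
  obtain ⟨q, p, s⟩ := c
  obtain ⟨⟨q', f, ph, d, i⟩, x, s'⟩ := c'
  obtain ⟨h1, h2, h3, h4, h5, h6⟩ := h
  dsimp only at h1 h2 h3 h4 h5 h6
  subst h1 h2 h3
  have h7 := odVal_lt hN h4
  have e : tape (un (N ^ k)) p = f := by
    rw [tape_un]
    rcases f with _ | _ | _ <;> simp only [odNum] at h5
    · rw [if_pos (by omega)]
    · rw [if_neg (by omega), if_neg (by omega)]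
    · rw [if_neg (by omega), if_pos (by omega)]
  have e1 : (odD k D).step (un N) ((q, f, A2Ph.main, d, i), x, s') =
      (odNext (D.δ q f s'.head?).1 f (D.δ q f s'.head?).2.1, x, (D.δ q f s'.head?).2.2.app s') := rfl
  have e2 : D.step (un (N ^ k)) (q, p, s') = ((D.δ q f s'.head?).1,
      mv (N ^ k) p (D.δ q f s'.head?).2.1, (D.δ q f s'.head?).2.2.app s') := by
    simp only [TwoPDA.step, e, List.length_replicate]
  rw [e1, e2]
  generalize D.δ q f s'.head? = r
  obtain ⟨q1, m, op⟩ := r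
  dsimp only
  generalize op.app s' = s1
  cases m with
  | zero => exact ⟨_, Rch.rfl' _, rfl, rfl, rfl, h4, h5, h6⟩
  | neg =>
    obtain ⟨x', f', i', r1, r2, r3⟩ := od_dec (D := D) hN q1 f s1 0 x h4
    have r4 := odVal_lt hN r2
    rcases f with _ | _ | _
    · refine ⟨_, Rch.rfl' _, rfl, rfl, rfl, h4, ?_, ?_⟩ <;> simp only [odNum, odNext, a2lft, mv,
        if_true] at h5 ⊢ <;> omega
    all_goals
      refine ⟨_, r1, rfl, rfl, rfl, r2, ?_, ?_⟩ <;> rcases r3 with ⟨rfl, r3⟩ | ⟨rfl, r3⟩ <;>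
        simp only [odNum, odBump, mv, Fin.val_zero, pow_zero] at h5 r3 ⊢ <;> omega
  | pos =>
    obtain ⟨x', f', i', r1, r2, r3⟩ := od_inc (D := D) hN q1 f s1 0 x h4
    have r4 := odVal_lt hN r2
    rcases f with _ | _ | _
    on_goal 2 =>
      refine ⟨_, Rch.rfl' _, rfl, rfl, rfl, h4, ?_, ?_⟩ <;> simp only [odNum, odNext, a2rgt, mv,
        if_true] at h5 ⊢ <;> omega
    all_goals
      refine ⟨_, r1, rfl, rfl, rfl, r2, ?_, ?_⟩ <;> rcases r3 with ⟨rfl, r3⟩ | ⟨rfl, r3⟩ <;>
        simp only [odNum, odBump, mv, Fin.val_zero, pow_zero] at h5 r3 ⊢ <;> omega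

/-- `k` heads on `1^N` simulate one head on `1^(N^k)` -/
theorem od_iff (hN : 1 ≤ N) : (odD k D).Accepts (un N) ↔ D.Accepts (un (N ^ k)) := by
  refine sim_iff (D.step (un (N ^ k))) ((odD k D).step (un N)) (fun c => c.1) (fun c => c.1.1)
    (OdRep k N) (fun _ _ h => h.1) ?_ (od_step hN) D.acc
  have h0 : odOk N fun _ : Fin k => 1 := fun _ => ⟨le_rfl, hN⟩
  obtain ⟨x', f', i', r1, r2, r3⟩ := od_dec (D := D) hN D.start (Sym.ltr ()) [] 0 _ h0
  have r4 : odVal N (fun _ : Fin k => 1) = 0 := by simp [odVal]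
  refine ⟨((D.start, f', A2Ph.main, false, i'), x', []), Rch.hd ?_ rfl r1, rfl, rfl, rfl,
    r2, ?_, Nat.zero_le _⟩
  · simp [MultiPDA.step, odD, odδ, mv_pos', Op.app]
  rcases r3 with ⟨rfl, r3⟩ | ⟨rfl, r3⟩ <;>
    simp only [odNum, odBump, Fin.val_zero, pow_zero, r4] at r3 ⊢ <;> omega

end

/-- ROW A2K: `k` heads hold a register `≤ N ^ k` (digits in base `N`, the top digit may be `N`). -/
theorem a2_compile (k : ℕ) (hk : 0 < k) (Q G : Type) [Finite Q] [Finite G] (P : A2 Q G) :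
    ∃ (Q' G' : Type) (_ : Finite Q') (_ : Finite G') (D : MultiPDA k Unit Q' G'),
      ∀ N b, 2 ≤ N → P.Halts (N ^ k) b → Answers D N b := by
  obtain ⟨Q', G', h1, h2, D, hD⟩ := H6P.a2_compile Q G P
  have := H6P.a2ph_finite
  have : Finite (Sym Unit) := Finite.of_injective
    (fun f => (⟨odNum f, by rcases f with _ | _ | _ <;> simp [odNum]⟩ : Fin 3)) fun a b h => by
      rcases a with _ | _ | _ <;> rcases b with _ | _ | _ <;> simp [odNum] at h ⊢
  exact ⟨OdS k Q', G', inferInstance, h2, odD k D, fun N b hN h =>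
    (od_iff (by omega)).trans (hD _ b h)⟩

end Pool.Agent.MP_47ff19_lc.H50K
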