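import Pool.Agent.MP_47ff19_lc.H50K.ArithKB

/-! The labelled step and the re-encoding of the target. -/

namespace Pool.Agent.MP_47ff19_lc.H50K

open Relation
open Pool.Agent.MP_47ff19_lc.H6P.Ar (toS toS_val)

namespace Ar

variable {k : ℕ} {Q : Type} [Fintype Q]

omit [Fintype Q] in
theorem hh_sym (K : MK k Q) (q : Q) (h : Fin k → ℤ) (l : Fin k → ℕ) : hh (sym K q h l) = h := by
  unfold sym; split_ifs <;> rfl

omit [Fintype Q] in
theorem ll_sym (K : MK k Q) (q : Q) (h : Fin k → ℤ) (l : Fin k → ℕ) : ll (sym K q h l) = l := by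
  unfold sym; split_ifs <;> rfl

theorem near_of (B U G ut J z X : ℤ) (hB : 0 < B) (hG : 0 < G) (hJ0 : 0 ≤ J) (hJ : J < U)
    (hz0 : -G ≤ z) (hz : z < 2 * G) (hX : X = (ut * U + J) * G + z) :
    (ut / B - 1) * (B * (U * G)) ≤ X ∧ X ≤ (ut / B + 2) * (B * (U * G)) := by
  have h0 := Int.emod_nonneg ut hB.ne'
  have h1 := Int.emod_lt_of_pos ut hB
  have h2 : ut = B * (ut / B) + ut % B := (Int.mul_ediv_add_emod _ _).symm
  generalize ut / B = h at *
  generalize ut % B = i at *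
  have hU : 0 < U := by omega
  have e : X = h * (B * (U * G)) + ((i * U + J) * G + z) := by rw [hX, h2]; ring
  have a0 : 0 ≤ i * U := by positivity
  have a1 : i * U + J + 1 ≤ B * U := by nlinarith
  have a2 : (i * U + J + 1) * G ≤ B * U * G := mul_le_mul_of_nonneg_right a1 hG.le
  have a3 : 0 ≤ (i * U + J) * G := by positivity
  have a4 : 1 * G ≤ B * U * G := mul_le_mul_of_nonneg_right (by omega) hG.le
  rw [e]
  constructor <;> nlinarith

/-- the symbol of a position in an enlarged cell is admissible -/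
theorem sym_ok (K : MK k Q) (Δ : ℕ) (hΔ : K.Δ0 ≤ Δ) (q : Q) (h : Fin k → ℤ) (X : Fin k → ℕ)
    (hle : ∀ j, X j ≤ K.H0 * Δ + 1) (hn : Near Δ h fun j => (X j : ℤ))
    (hZ : h ∉ K.Bad → (q, h, fun j => X j % K.m) ∈ K.Z) :
    sym K q h (fun j => X j % K.m) ∈ (SY K).disjSum (SW K) ∧
      Ok K (K.H0 * Δ) q X (sym K q h fun j => X j % K.m) := by
  classical
  unfold sym
  split_ifs with hb
  · refine ⟨?_, rfl⟩
    simp only [Finset.inr_mem_disjSum, SW, Finset.mem_product, Finset.mem_univ, true_and]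
    exact ⟨hb, mem_res.2 fun j => Nat.mod_lt _ K.m_pos⟩
  · constructor
    · rw [Finset.inl_mem_disjSum]
      unfold SY
      rw [Finset.mem_union]
      exact Or.inl (Finset.mem_image.2 ⟨_, hZ hb, rfl⟩)
    · show K.mac q _ (K.sg h) = tl K _ q X
      unfold tl
      congr 1
      funext e
      exact (K.good Δ hΔ h X hle hn hb e).symm

theorem fin2_rep (P : PA k Q) (K : MK k Q) (t V D n : ℕ) (ht0 : 0 < t) (hV : 0 < V) (hD : 0 < D)
    (d1 : S1 K t V) (q : Q) (ut z : Fin k → ℤ) (J X : Fin k → ℕ) (hq : P.out q = none)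
    (hΔ : K.Δ0 ≤ K.β * t * (2 ^ n * (V * (D * K.m))))
    (hJ : ∀ j, J j < 2 ^ n) (hz0 : ∀ j, -(V * (D * K.m) : ℤ) ≤ z j)
    (hz : ∀ j, z j < 2 * (V * (D * K.m) : ℤ))
    (hX : ∀ j, (X j : ℤ) = (ut j * 2 ^ n + J j) * (V * (D * K.m)) + z j)
    (hle : ∀ j, X j ≤ K.H0 * (K.β * t * (2 ^ n * (V * (D * K.m)))) + 1)
    (hZ : ∀ h' : Fin k → ℤ, Near (K.β * t * (2 ^ n * (V * (D * K.m)))) h' (fun j => (X j : ℤ)) →
      h' ∉ K.Bad → (q, h', fun j => X j % K.m) ∈ K.Z) :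
    ∃ f' w', fin2 P K t V D d1 q ut z = Sum.inl (f', w') ∧ Rep K t V D n f'.1 w' J q X := by
  have hm : (0 : ℤ) < K.m := by exact_mod_cast K.m_pos
  have hD' : (0 : ℤ) < D := by exact_mod_cast hD
  have hE : (0 : ℤ) < D * K.m := mul_pos hD' hm
  have hG : (0 : ℤ) < V * (D * K.m) := mul_pos (by exact_mod_cast hV) hE
  have hB : (0 : ℤ) < K.β * t := mul_pos (by exact_mod_cast K.β_pos) (by exact_mod_cast ht0)
  have hl0 : ∀ j, z j % K.m = ((X j % K.m : ℕ) : ℤ) := by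
    intro j
    have : (X j : ℤ) = z j + K.m * ((ut j * 2 ^ n + J j) * (V * D)) := by rw [hX j]; ring
    push_cast
    rw [this, Int.add_mul_emod_self_left]
  have hl : (fun j => (z j % K.m).toNat) = fun j => X j % K.m := by
    funext j; rw [hl0 j, Int.toNat_natCast]
  have hn : Near (K.β * t * (2 ^ n * (V * (D * K.m)))) (fun j => ut j / (K.β * t))
      fun j => (X j : ℤ) := by
    intro j
    have := near_of (K.β * t) (2 ^ n) (V * (D * K.m)) (ut j) (J j) (z j) (X j) hB hG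
      (by positivity) (by exact_mod_cast hJ j) (hz0 j) (hz j) (hX j)
    push_cast
    exact this
  obtain ⟨s1, s2⟩ := sym_ok K _ hΔ q _ X hle hn (hZ _ hn)
  unfold fin2
  rw [hq]
  refine ⟨_, _, rfl, ?_⟩
  rw [hl, toS_val d1 (by
    simp only [S1, Finset.mem_product]
    refine ⟨s1, mem_box.2 fun j => ⟨Int.emod_nonneg _ hB.ne', Int.emod_lt_of_pos _ hB⟩,
      mem_box.2 fun j => ⟨?_, ?_⟩⟩
    · rw [Int.le_ediv_iff_mul_le hE]; have := hz0 j; linarith
    · rw [Int.ediv_lt_iff_lt_mul hE]; have := hz j; linarith)]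
  refine ⟨enc_lt _ _ hD _, hJ, fun j => by simp only [ll_sym], fun j => ?_, s2⟩
  have hd0 : ∀ j, 0 ≤ z j % (D * K.m) / K.m := fun j =>
    Int.ediv_nonneg (Int.emod_nonneg _ hE.ne') hm.le
  have hd : ∀ j, (z j % (D * K.m) / K.m).toNat < D := by
    intro j
    have h1 : z j % (D * K.m) / K.m < D := by
      rw [Int.ediv_lt_iff_lt_mul hm]; exact Int.emod_lt_of_pos _ hE
    have := hd0 j
    omega
  rw [dec_enc k D _ hd j, Int.toNat_of_nonneg (hd0 j)]
  simp only [ht, hh_sym, ll_sym]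
  rw [← hl0 j, hX j]
  have e1 := Int.mul_ediv_add_emod (ut j) (K.β * t)
  have e2 := Int.mul_ediv_add_emod (z j) (D * K.m)
  have e3 := Int.mul_ediv_add_emod (z j % (D * K.m)) K.m
  have e4 : z j % (D * K.m) % K.m = z j % K.m := Int.emod_emod_of_dvd _ (Dvd.intro_left _ rfl)
  rw [e4] at e3
  rw [mul_comm (ut j / _), e1]
  congr 1
  linarith

/-- a labelled code makes the jump -/
theorem lab_step (P : PA k Q) (K : MK k Q) (t V D n : ℕ) (hV : 0 < V) (hD : 0 < D)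
    (cl : Lab k Q → Finset ((Fin k → ℤ) × (Fin k → ℤ)))
    (hcl : ∀ l ∈ K.Tt, Cls (fun i j => (l.2 i).1 j) t (K.β * V) ⊆ ↑(cl l))
    (hC : ∀ l ∈ K.Tt, ∀ i, ∑ j, |(l.2 i).1 j| + |(l.2 i).2.2| ≤ V)
    (d1 : S1 K t V) (d2 : S2 K t V cl)
    (y : RY k Q) (i v : Fin k → ℤ) (hf : (Sum.inl y, i, v) ∈ S1 K t V) (w : ℕ) (J : Fin k → ℕ)
    (q : Q) (X X' : Fin k → ℕ) (hrep : Rep K t V D n (Sum.inl y, i, v) w J q X)
    (hX' : ∀ a, (K.β : ℤ) * X' a = iev (y.2.2.2 a)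
      ((K.H0 * (K.β * t * (2 ^ n * (V * (D * K.m)))) : ℕ) : ℤ) fun j => (X j : ℤ)) :
    ∃ ut z : Fin k → ℤ, (∀ j, -(V * (D * K.m) : ℤ) ≤ z j) ∧ (∀ j, z j < 2 * (V * (D * K.m) : ℤ)) ∧
      (∀ j, (nm K t V hV cl d2).J2 n ⟨_, hf⟩ J j < 2 ^ n) ∧
      (∀ j, (X' j : ℤ) = (ut j * 2 ^ n + (nm K t V hV cl d2).J2 n ⟨_, hf⟩ J j) *
        (V * (D * K.m)) + z j) ∧
      st2 P K t V D cl d1 ((nm K t V hV cl d2).f2 n ⟨_, hf⟩ J) w =
        fin2 P K t V D d1 y.2.2.1 ut z := by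
  obtain ⟨hw, hJ, hl, hX, -⟩ := hrep
  have hf' := hf
  simp only [S1, Finset.mem_product, Finset.inl_mem_disjSum] at hf'
  obtain ⟨hy, hi, hv⟩ := hf'
  have hT := SY_lab K hy
  have hm : (0 : ℤ) < K.m := by exact_mod_cast K.m_pos
  have hβ : (0 : ℤ) < K.β := by exact_mod_cast K.β_pos
  have hV' : (0 : ℤ) < V := by exact_mod_cast hV
  have hE : (0 : ℤ) < D * K.m := mul_pos (by exact_mod_cast hD) hm
  have hU : (0 : ℤ) < 2 ^ n := by positivity
  have hd : (0 : ℤ) < K.β * V := mul_pos hβ hV'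
  set T : Fin k → ℤ := (nm K t V hV cl d2).T n ⟨_, hf⟩ J with hTd
  set Y1 : Fin k → ℤ := fun j => V * (i j * 2 ^ n + J j) + v j with hY1
  have hT1 : ∀ a, T a = ∑ j, (y.2.2.2 a).1 j * Y1 j + K.β * V * (2 ^ n * base K t y a) := by
    intro a
    have e : ∑ j, (y.2.2.2 a).1 j * V * (J j : ℤ) +
        (∑ j, (y.2.2.2 a).1 j * (y.1 j * (K.β * t) + i j)) * V * 2 ^ n +
        ∑ j, (y.2.2.2 a).1 j * v j = ∑ j, (y.2.2.2 a).1 j * Y1 j +
        K.β * V * (2 ^ n * (t * ∑ j, (y.2.2.2 a).1 j * y.1 j)) := by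
      simp only [Finset.sum_mul, Finset.mul_sum, ← Finset.sum_add_distrib]
      refine Finset.sum_congr rfl fun j _ => ?_
      simp only [hY1]; ring
    simp only [hTd, NM.T, nm, matf, b0f, b1f, ht, hh, base]
    linarith
  set ε : Fin k → ℤ := fun a => ∑ j, (y.2.2.2 a).1 j * (dec D w j * K.m + y.2.1 j) +
    (y.2.2.2 a).2.2 with hε
  have hlt : ∀ j, y.2.1 j < K.m := fun j => by
    have : y.2.1 j = X j % K.m := hl j
    rw [this]; exact Nat.mod_lt _ K.m_pos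
  have hβX : ∀ a, (K.β : ℤ) * X' a = D * K.m * T a + ε a := by
    intro a
    have e : ∑ j, (y.2.2.2 a).1 j * (X j : ℤ) = D * K.m * (∑ j, (y.2.2.2 a).1 j * Y1 j +
        K.β * V * (2 ^ n * (t * ∑ j, (y.2.2.2 a).1 j * y.1 j))) +
        ∑ j, (y.2.2.2 a).1 j * (dec D w j * K.m + y.2.1 j) := by
      simp only [mul_add (D * K.m : ℤ), Finset.mul_sum, ← Finset.sum_add_distrib]
      refine Finset.sum_congr rfl fun j _ => ?_
      rw [hX j]; simp only [hY1, ht, hh, ll]; ring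
    rw [hX' a, hT1 a]
    simp only [iev, hε, base]
    rw [e]; push_cast; ring
  have hεb : ∀ a, |ε a| ≤ V * (D * K.m) := by
    intro a
    have h1 := abs_sum_le (y.2.2.2 a).1 (fun j => dec D w j * K.m + y.2.1 j) (D * K.m) fun j => by
      obtain ⟨a1, a2⟩ := low_bd D K.m w j (y.2.1 j) hD (hlt j)
      rw [abs_of_nonneg a1]; exact a2.le
    have h2 := hC _ hT a
    have h3 := abs_nonneg (y.2.2.2 a).2.2
    have h4 := abs_add_le (∑ j, (y.2.2.2 a).1 j * (dec D w j * K.m + y.2.1 j)) (y.2.2.2 a).2.2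
    have h5 := mul_le_mul_of_nonneg_right h2 hE.le
    have h6 : |(y.2.2.2 a).2.2| * 1 ≤ |(y.2.2.2 a).2.2| * (D * K.m) :=
      mul_le_mul_of_nonneg_left (by omega) h3
    simp only [hε]
    nlinarith
  have hcore := fun a => core K.β V (D * K.m) (T a) (ε a) (X' a) hβ hV' hE (hβX a) (hεb a)
  have hJ2 : ∀ a, (((nm K t V hV cl d2).J2 n ⟨_, hf⟩ J a : ℕ) : ℤ) = T a / (K.β * V) % 2 ^ n :=
    fun a => Int.toNat_of_nonneg (Int.emod_nonneg _ hU.ne')
  refine ⟨fun a => T a / (K.β * V) / 2 ^ n, fun a => (T a % (K.β * V) * (D * K.m) + ε a) / K.β,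
    fun a => (hcore a).2.1, fun a => (hcore a).2.2, fun a => ?_, fun a => ?_, ?_⟩
  · have := Int.emod_lt_of_pos (T a / (K.β * V)) hU
    rw [← hJ2 a] at this
    exact_mod_cast this
  · rw [hJ2 a, mul_comm (T a / _ / _), Int.mul_ediv_add_emod]
    exact (hcore a).1
  · have hf2 : ((nm K t V hV cl d2).f2 n ⟨_, hf⟩ J).1 = Sum.inl ⟨y,
        (fun a => T a / (K.β * V) / 2 ^ n - base K t y a, fun a => T a % (K.β * V))⟩ := by
      refine toS_val d2 ?_
      simp only [out2, S2, Finset.inl_mem_disjSum, Finset.mem_sigma]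
      refine ⟨hy, hcl _ hT ⟨2 ^ n, Y1, by positivity, fun j => ?_, ?_⟩⟩
      · obtain ⟨b1, b2⟩ := mem_box.1 hv j
        obtain ⟨c1, c2⟩ := mem_box.1 hi j
        have c3 : (J j : ℤ) < 2 ^ n := by exact_mod_cast hJ j
        have c4 : (0 : ℤ) ≤ J j := by positivity
        have c5 : i j * 2 ^ n + J j + 1 ≤ K.β * t * 2 ^ n := by nlinarith
        have c6 : 0 ≤ i j * 2 ^ n + J j := by positivity
        have c7 := mul_le_mul_of_nonneg_left c5 hV'.le
        have c8 : 0 ≤ V * (i j * 2 ^ n + J j) := by positivity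
        have c9 : (V : ℤ) * 1 ≤ V * (K.β * 2 ^ n) :=
          mul_le_mul_of_nonneg_left (mul_pos hβ hU) hV'.le
        simp only [hY1]
        push_cast
        constructor <;> nlinarith
      · refine Prod.ext (funext fun a => ?_) (funext fun a => ?_)
        · have := (shift_div (∑ j, (y.2.2.2 a).1 j * Y1 j) (base K t y a) (K.β * V) (2 ^ n) hd hU).1
          rw [← hT1 a] at this
          push_cast
          show T a / (K.β * V) / 2 ^ n - base K t y a = _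
          rw [this]; ring
        · have := (shift_div (∑ j, (y.2.2.2 a).1 j * Y1 j) (base K t y a) (K.β * V) (2 ^ n) hd hU).2
          rw [← hT1 a] at this
          push_cast
          exact this
    unfold st2
    rw [hf2]
    simp only [add_sub_cancel]
    rfl

end Ar

end Pool.Agent.MP_47ff19_lc.H50K
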