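import Pool.Agent.MP_47ff19_lc.H50K.Cnt
import Pool.Agent.MP_47ff19_lc.H50K.ArithKC

namespace Pool.Agent.MP_47ff19_lc.H50K

open Relation
open Pool.Agent.MP_47ff19_lc.H6P (Sym tape mv Op un tape_un A2 Table BHalts CM CHalts CStep val)

namespace Ar

variable {k : ℕ} {Q : Type} [Fintype Q]

theorem run (P : PA k Q) (K : MK k Q) (hK : K.Works P) (t V D n : ℕ) (ht0 : 0 < t) (hV : 0 < V)
    (hD : 0 < D) (cl : Lab k Q → Finset ((Fin k → ℤ) × (Fin k → ℤ)))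
    (hcl : ∀ l ∈ K.Tt, Cls (fun i j => (l.2 i).1 j) t (K.β * V) ⊆ ↑(cl l))
    (hC : ∀ l ∈ K.Tt, ∀ i, ∑ j, |(l.2 i).1 j| + |(l.2 i).2.2| ≤ V)
    (hΔ : K.Δ0 ≤ K.β * t * (2 ^ n * (V * (D * K.m)))) (b : Bool)
    (hR : P.Runs (K.H0 * (K.β * t * (2 ^ n * (V * (D * K.m))))) b)
    (d1 : S1 K t V) (d2 : S2 K t V cl) (th : ℕ)
    (hth : P.out (P.orb (K.H0 * (K.β * t * (2 ^ n * (V * (D * K.m))))) th).1 = some b) :
    ∀ (c s : ℕ), th ≤ s + c → s < th → ∀ (q : Q) (X : Fin k → ℕ) (f : S1 K t V) (w : ℕ)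
      (J : Fin k → ℕ),
      P.orb (K.H0 * (K.β * t * (2 ^ n * (V * (D * K.m))))) s = (q, fun j => (X j : ℚ)) →
      Rep K t V D n f.1 w J q X →
      NHalts (nm K t V hV cl d2) (st2 P K t V D cl d1) n (f, w, J) (!b) := by
  intro c
  induction c with
  | zero => intro s h1 h2; omega
  | succ c ih =>
    intro s h1 h2 q X f w J ho hrep
    have lab : ∀ (y : RY k Q) (i v : Fin k → ℤ) (hf : (Sum.inl y, i, v) ∈ S1 K t V),
        Rep K t V D n (Sum.inl y, i, v) w J q X →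
        NHalts (nm K t V hV cl d2) (st2 P K t V D cl d1) n (⟨_, hf⟩, w, J) (!b) := by
      intro y i v hf hrep
      have hj : K.Jump P _ s X (tl K _ q X) :=
        hK.2 _ hΔ (Dvd.intro_left (K.β * t * (2 ^ n * (V * D))) (by ring)) b hR s q X ho
      have hok : y.2.2 = tl K _ q X := hrep.ok
      rw [← hok] at hj
      obtain ⟨t', X', ht', ho', hX', hno, hZ⟩ := hj
      obtain ⟨X1, hX1, hX2⟩ := hR.rng t'
      rw [ho'] at hX2
      have hXe : ∀ j, X' j = X1 j := fun j => Nat.cast_injective (R := ℚ) (congrFun hX2 j)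
      obtain ⟨ut, z, hz0, hz, hJ2, hX, hst⟩ := lab_step P K t V D n hV hD cl hcl hC d1 d2 y i v hf
        w J q X X' hrep hX'
      have hle : t' ≤ th := by
        by_contra hc
        rw [hno th h2 (by omega)] at hth
        cases hth
      cases hout : P.out y.2.2.1 with
      | some b' =>
        have : b' = b := hR.uniq t' b' (by rw [ho']; exact hout)
        subst this
        refine ⟨(⟨_, hf⟩, w, J), ReflTransGen.refl, ?_⟩
        simp only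
        rw [hst]; unfold fin2; rw [hout]
      | none =>
        obtain ⟨f', w', hf', hrep'⟩ := fin2_rep P K t V D n ht0 hV hD d1 _ ut z _ X' hout hΔ hJ2
          hz0 hz hX (fun j => by rw [hXe j]; exact hX1 j) (hZ hout)
        have hne : t' ≠ th := by
          rintro rfl
          rw [ho', hout] at hth
          cases hth
        obtain ⟨c', hc1, hc2⟩ := ih t' (by omega) (by omega) _ X' f' w' _ ho' hrep'
        exact ⟨c', ReflTransGen.head ⟨by simp only; rw [hst, hf'], rfl⟩ hc1, hc2⟩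
    obtain ⟨⟨y | W, i, v⟩, hf⟩ := f
    · exact lab y i v hf hrep
    · obtain ⟨y, hy, hstep, hrep'⟩ := unl_step P K t V D n hV hD cl d1 d2 W i v hf w J q X hrep
      obtain ⟨c', hc1, hc2⟩ := lab y i v hy hrep'
      exact ⟨c', ReflTransGen.head hstep hc1, hc2⟩

end Ar

open Ar in
/-- ROW ARK: the numeric machine follows the jumps and negates the answer. -/
theorem arith {k : ℕ} (hk : 0 < k) {Q : Type} [Finite Q] (P : PA k Q) (K : MK k Q)
    (hK : K.Works P) :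
    ∃ (F1 F2 : Type) (_ : Finite F1) (_ : Finite F2) (A : NM k K.p F1 F2) (f0 : F1) (ν1 : ℕ),
      Nat.card F1 ≤ 2 ^ ν1 ∧ Nat.card F2 ≤ 2 ^ ν1 ∧ ∀ l0 : ℕ,
      ∃ (st2 : F2 → ℕ → (F1 × ℕ) ⊕ Bool) (c0 o n0 : ℕ),
        (∀ f w f' w', st2 f w = Sum.inl (f', w') → w' < 2 ^ (k * l0)) ∧
        ∀ n, n0 ≤ n → 2 ^ (k * l0 + ν1 + k * n + 3) ≤ ((2 * o + 1) * 2 ^ (n + c0)) ^ k ∧
          ∀ b, P.Runs ((2 * o + 1) * 2 ^ (n + c0)) b →
            NHalts A st2 n (f0, 0, fun _ => 0) (!b) := by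
  classical
  have := Fintype.ofFinite Q
  choose t0 V0 hV0 hc using fun l : Lab k Q => cnt (fun i j => (l.2 i).1 j)
  obtain ⟨t, ht⟩ : ∃ t : ℕ, t = ∑ l ∈ K.Tt, t0 l + 1 := ⟨_, rfl⟩
  have ht0 : 0 < t := by omega
  have htl : ∀ l ∈ K.Tt, t0 l ≤ t := fun l hl => by
    have := Finset.single_le_sum (f := t0) (fun _ _ => Nat.zero_le _) hl
    omega
  obtain ⟨C, hCd⟩ : ∃ C : ℕ, C = ∑ l ∈ K.Tt, ∑ i, (∑ j, |(l.2 i).1 j| + |(l.2 i).2.2|).toNat :=
    ⟨_, rfl⟩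
  obtain ⟨V, hVd⟩ : ∃ V : ℕ, V = (∏ l ∈ K.Tt, V0 l) * (C + 1) := ⟨_, rfl⟩
  have hP : 0 < ∏ l ∈ K.Tt, V0 l := Finset.prod_pos fun l _ => hV0 l
  have hCV : C + 1 ≤ V := by rw [hVd]; exact Nat.le_mul_of_pos_left _ hP
  have hV : 0 < V := by omega
  have hC : ∀ l ∈ K.Tt, ∀ i, ∑ j, |(l.2 i).1 j| + |(l.2 i).2.2| ≤ V := by
    intro l hl i
    have h1 := Finset.single_le_sum
      (f := fun l : Lab k Q => ∑ i, (∑ j, |(l.2 i).1 j| + |(l.2 i).2.2|).toNat)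
      (fun _ _ => Nat.zero_le _) hl
    have h2 := Finset.single_le_sum (f := fun i => (∑ j, |(l.2 i).1 j| + |(l.2 i).2.2|).toNat)
      (fun _ _ => Nat.zero_le _) (Finset.mem_univ i)
    have h3 := Int.self_le_toNat (∑ j, |(l.2 i).1 j| + |(l.2 i).2.2|)
    omega
  have hβ := K.β_pos
  have hm := K.m_pos
  have hex : ∀ l : Lab k Q, ∃ s : Finset ((Fin k → ℤ) × (Fin k → ℤ)), l ∈ K.Tt →
      Cls (fun i j => (l.2 i).1 j) t (K.β * V) ⊆ ↑s ∧ s.card ≤ (4 * t * (K.β * V)) ^ k := by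
    intro l
    by_cases hl : l ∈ K.Tt
    · obtain ⟨s, hs⟩ := hc l t (K.β * V) (htl l hl) (Nat.mul_pos hβ hV)
        (hVd ▸ Dvd.dvd.mul_left (Dvd.dvd.mul_right (Finset.dvd_prod_of_mem V0 hl) _) _)
      exact ⟨s, fun _ => hs⟩
    · exact ⟨∅, fun h => absurd h hl⟩
  choose cl hcl using hex
  have hbpos : 0 < bound K t V := by
    unfold bound
    exact Nat.mul_pos (by positivity) (by omega)
  obtain ⟨ν1, hν1, hν2⟩ := H6P.Ar.two_pow_between _ hbpos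
  have hB : (0 : ℤ) < K.β * t := by exact_mod_cast Nat.mul_pos hβ ht0
  have hV' : (0 : ℤ) < V := by exact_mod_cast hV
  have hst : ∀ Δ, K.Δ0 ≤ Δ → sym K P.q0 (fun _ => 0) (fun _ => 0) ∈ (SY K).disjSum (SW K) ∧
      Ok K (K.H0 * Δ) P.q0 (fun _ => 0) (sym K P.q0 (fun _ => 0) fun _ => 0) := by
    intro Δ hΔ
    have := sym_ok K Δ hΔ P.q0 (fun _ => 0) (fun _ => 0) (fun _ => Nat.zero_le _)
      (fun _ => by simp) (fun _ => by simpa using hK.1)
    simpa using this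
  have hb0 : (fun _ => 0) ∈ box k 0 (K.β * t) := mem_box.2 fun _ => ⟨le_rfl, hB⟩
  have hb1 : (fun _ => 0) ∈ box k (-V) (2 * V) := mem_box.2 fun _ => ⟨by omega, by omega⟩
  have hf0 : ((sym K P.q0 (fun _ => 0) (fun _ => 0), fun _ => 0, fun _ => 0) : Raw1 k Q) ∈
      S1 K t V := by
    simp only [S1, Finset.mem_product]
    exact ⟨(hst _ le_rfl).1, hb0, hb1⟩
  have d2 : S2 K t V cl := by
    apply Classical.choice
    have h1 := (hst _ le_rfl).1
    generalize sym K P.q0 (fun _ => 0) (fun _ => 0) = x at h1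
    rcases x with y | W
    · rw [Finset.inl_mem_disjSum] at h1
      refine ⟨⟨Sum.inl ⟨y, _⟩, Finset.inl_mem_disjSum.2 (Finset.mem_sigma.2 ⟨h1,
        (hcl _ (SY_lab K h1)).1 ⟨1, fun _ => 0, one_pos, fun j => ⟨?_, ?_⟩, rfl⟩⟩)⟩⟩
      · exact neg_nonpos.2 (by positivity)
      · positivity
    · rw [Finset.inr_mem_disjSum] at h1
      refine ⟨⟨Sum.inr (W, fun _ => 0, fun _ => 0, fun _ => 0), ?_⟩⟩
      simp only [S2, Finset.inr_mem_disjSum, Finset.mem_product, Fintype.mem_piFinset]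
      exact ⟨h1, hb0, hb1, fun _ => by simp⟩
  refine ⟨S1 K t V, S2 K t V cl, inferInstance, inferInstance, nm K t V hV cl d2, ⟨_, hf0⟩, ν1,
    ?_, ?_, fun l0 => ?_⟩
  · rw [Nat.card_eq_fintype_card, Fintype.card_coe]; exact (card_S1 K t V).trans hν1
  · rw [Nat.card_eq_fintype_card, Fintype.card_coe]
    exact (card_S2 K t V cl fun l hl => (hcl l hl).2).trans hν1
  have hD : 0 < 2 ^ l0 := by positivity
  have hH := K.H0_pos
  have hN1 : K.H0 * (K.β * t * (V * (2 ^ l0 * K.m))) ≠ 0 := by positivity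
  obtain ⟨c0, k', ⟨o, ho⟩, hN⟩ := Nat.exists_eq_two_pow_mul_odd hN1
  refine ⟨st2 P K t V (2 ^ l0) cl ⟨_, hf0⟩, c0, o, K.Δ0, fun f w f' w' h => ?_, fun n hn => ?_⟩
  · have := st2_bd _ _ _ _ _ hD _ _ _ _ _ _ h
    rwa [← pow_mul, mul_comm] at this
  have hNe : (2 * o + 1) * 2 ^ (n + c0) = K.H0 * (K.β * t * (2 ^ n * (V * (2 ^ l0 * K.m)))) := by
    rw [← ho, pow_add, show K.H0 * (K.β * t * (2 ^ n * (V * (2 ^ l0 * K.m)))) =
      2 ^ n * (K.H0 * (K.β * t * (V * (2 ^ l0 * K.m)))) by ring, hN]; ring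
  rw [hNe]
  constructor
  · have h1 := Nat.mul_le_mul_left ((K.β * t * V) ^ k) K.small
    rw [Nat.card_eq_fintype_card] at h1
    have h3 : 8 * 2 ^ ν1 ≤ (K.β * t * V) ^ k * (K.H0 * K.m) ^ k := by
      have : 32 * bound K t V ≤ (K.β * t * V) ^ k * (K.H0 * K.m) ^ k := by
        refine le_trans (le_of_eq ?_) h1
        unfold bound; ring
      omega
    calc 2 ^ (k * l0 + ν1 + k * n + 3) = (2 ^ l0) ^ k * (2 ^ n) ^ k * (8 * 2 ^ ν1) := by ring
      _ ≤ (2 ^ l0) ^ k * (2 ^ n) ^ k * ((K.β * t * V) ^ k * (K.H0 * K.m) ^ k) :=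
        Nat.mul_le_mul_left _ h3
      _ = _ := by rw [← mul_pow, ← mul_pow, ← mul_pow]; congr 1; ring
  · intro b hR
    obtain ⟨th, hth0, hth⟩ := hR.halt
    have hΔ : K.Δ0 ≤ K.β * t * (2 ^ n * (V * (2 ^ l0 * K.m))) :=
      le_trans (le_trans (le_trans hn Nat.lt_two_pow_self.le)
        (Nat.le_mul_of_pos_right _ (by positivity))) (Nat.le_mul_of_pos_left _ (by positivity))
    refine run P K hK t V (2 ^ l0) n ht0 hV hD cl (fun l hl => (hcl l hl).1) hC hΔ b hR ⟨_, hf0⟩ d2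
      th hth th 0 (by omega) hth0 P.q0 (fun _ => 0) ⟨_, hf0⟩ 0 (fun _ => 0) (by simp [PA.orb])
      ⟨by positivity, fun _ => by positivity, fun j => by simp [ll_sym], fun j => ?_, (hst _ hΔ).2⟩
    simp [Ar.ht, hh_sym, ll_sym, dec]

end Pool.Agent.MP_47ff19_lc.H50K
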