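import Pool.Agent.MP_47ff19_lc.H6P.Model

/-! Multihead two-way finite automata (sensing) and multihead two-way pushdown automata. -/

namespace Pool.Agent.MP_47ff19_lc.H50K

open Pool.Agent.MP_47ff19_lc.H6P

/-- Deterministic two-way finite automaton with `h` heads; `δ` sees the scanned symbols and which
heads are on the same cell. -/
structure MultiHead (h : ℕ) (A Q : Type) where
  start : Q
  acc : Q → Prop
  δ : Q → (Fin h → Sym A) → (Fin h → Fin h → Bool) → Q × (Fin h → SignType)

def MultiHead.step {h : ℕ} {A Q : Type} (M : MultiHead h A Q) (w : List A)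
    (c : Q × (Fin h → ℕ)) : Q × (Fin h → ℕ) :=
  ((M.δ c.1 (fun i => tape w (c.2 i)) (fun i j => decide (c.2 i = c.2 j))).1,
    fun i => mv w.length (c.2 i)
      ((M.δ c.1 (fun i => tape w (c.2 i)) (fun i j => decide (c.2 i = c.2 j))).2 i))

def MultiHead.Accepts {h : ℕ} {A Q : Type} (M : MultiHead h A Q) (w : List A) : Prop :=
  ∃ t : ℕ, M.acc ((M.step w)^[t] (M.start, fun _ => 0)).1

/-- Deterministic two-way pushdown automaton with `h` heads. -/
structure MultiPDA (h : ℕ) (A Q G : Type) where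
  start : Q
  acc : Q → Prop
  δ : Q → (Fin h → Sym A) → Option G → Q × (Fin h → SignType) × Op G

def MultiPDA.step {h : ℕ} {A Q G : Type} (D : MultiPDA h A Q G) (w : List A)
    (c : Q × (Fin h → ℕ) × List G) : Q × (Fin h → ℕ) × List G :=
  ((D.δ c.1 (fun i => tape w (c.2.1 i)) c.2.2.head?).1,
    fun i => mv w.length (c.2.1 i) ((D.δ c.1 (fun i => tape w (c.2.1 i)) c.2.2.head?).2.1 i),
    (D.δ c.1 (fun i => tape w (c.2.1 i)) c.2.2.head?).2.2.app c.2.2)

def MultiPDA.Accepts {h : ℕ} {A Q G : Type} (D : MultiPDA h A Q G) (w : List A) : Prop :=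
  ∃ t : ℕ, D.acc ((D.step w)^[t] (D.start, fun _ => 0, [])).1

end Pool.Agent.MP_47ff19_lc.H50K
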