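import Pool.Agent.MP_47ff19_lc.H6P.Defs
import Pool.Agent.MP_47ff19_lc.H50K.ModelK

/-! Internal definitions (machines A2, B, C come from `H6P.Defs`). -/

namespace Pool.Agent.MP_47ff19_lc.H50K

open Relation
open Pool.Agent.MP_47ff19_lc.H6P (Sym tape mv Op un A2 Table BHalts CM CHalts val)

/-- `D` answers `b` on `1^N`. -/
def Answers {h : ℕ} {Q G : Type} (D : MultiPDA h Unit Q G) (N : ℕ) (b : Bool) : Prop :=
  D.Accepts (un N) ↔ b = true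

/-! ### Machine C over blocks of `k` bits -/

structure CK (k : ℕ) (F1 F2 Sg : Type) where
  init : F1 → Sg
  dL : Sg → (Fin k → Bool) → Sg × (Fin k → Bool)
  dR : Sg → (Fin k → Bool) → Sg × (Fin k → Bool)
  mid : Sg → Sg
  fin : Sg → Sg ⊕ F2

def passK {Sg β : Type} (d : Sg → β → Sg × β) : Sg → List β → Sg × List β
  | s, [] => (s, [])
  | s, b :: l => ((passK d (d s b).1 l).1, (d s b).2 :: (passK d (d s b).1 l).2)

def CK.round {k : ℕ} {F1 F2 Sg : Type} (C : CK k F1 F2 Sg) (s : Sg) (J : List (Fin k → Bool)) :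
    (Sg ⊕ F2) × List (Fin k → Bool) :=
  (C.fin (passK C.dR (C.mid (passK C.dL s J).1) (passK C.dL s J).2.reverse).1,
    (passK C.dR (C.mid (passK C.dL s J).1) (passK C.dL s J).2.reverse).2.reverse)

inductive CK.Rounds {k : ℕ} {F1 F2 Sg : Type} (C : CK k F1 F2 Sg) :
    Sg → List (Fin k → Bool) → F2 → List (Fin k → Bool) → Prop
  | done {s J f J'} : C.round s J = (Sum.inr f, J') → CK.Rounds C s J f J'
  | more {s J s1 J1 f J'} : C.round s J = (Sum.inl s1, J1) → CK.Rounds C s1 J1 f J' →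
      CK.Rounds C s J f J'

/-- the bits of a list of blocks -/
def flat {k : ℕ} (J : List (Fin k → Bool)) : List Bool := (J.map List.ofFn).flatten

/-- the `k` numbers written in a list of blocks, low block first -/
def valK {k : ℕ} (J : List (Fin k → Bool)) (j : Fin k) : ℕ := val (J.map fun b => b j)

/-! ### Machine N: the numeric form -/

def clip (C : ℕ) (y : ℤ) : ℤ := max (-(C : ℤ)) (min (C : ℤ) y)

structure NM (k p : ℕ) (F1 F2 : Type) where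
  C : ℕ
  tst : F1 → Fin p → (Fin k → ℤ) × ℤ
  hC : ∀ f e, ∑ j, |(tst f e).1 j| ≤ C
  mat : F1 → Fin k → Fin k → ℤ
  b0 : F1 → Fin k → ℤ
  b1 : F1 → Fin k → ℤ
  d : F1 → ℤ
  pos : ∀ f, 0 < d f
  outp : F1 → (Fin p → ℤ) → (Fin k → ℤ) → (Fin k → ℤ) → F2

def NM.T {k p : ℕ} {F1 F2 : Type} (A : NM k p F1 F2) (n : ℕ) (f : F1) (J : Fin k → ℕ)
    (i : Fin k) : ℤ :=
  ∑ j, A.mat f i j * J j + A.b1 f i * 2 ^ n + A.b0 f i

def NM.y {k p : ℕ} {F1 F2 : Type} (A : NM k p F1 F2) (n : ℕ) (f : F1) (J : Fin k → ℕ)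
    (e : Fin p) : ℤ :=
  clip A.C (∑ j, (A.tst f e).1 j * J j + (A.tst f e).2 * 2 ^ n)

def NM.f2 {k p : ℕ} {F1 F2 : Type} (A : NM k p F1 F2) (n : ℕ) (f : F1) (J : Fin k → ℕ) : F2 :=
  A.outp f (A.y n f J) (fun i => A.T n f J i / A.d f / 2 ^ n) (fun i => A.T n f J i % A.d f)

def NM.J2 {k p : ℕ} {F1 F2 : Type} (A : NM k p F1 F2) (n : ℕ) (f : F1) (J : Fin k → ℕ)
    (i : Fin k) : ℕ :=
  (A.T n f J i / A.d f % 2 ^ n).toNat

def NStep {k p : ℕ} {F1 F2 : Type} (A : NM k p F1 F2) (st2 : F2 → ℕ → (F1 × ℕ) ⊕ Bool) (n : ℕ)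
    (c c' : F1 × ℕ × (Fin k → ℕ)) : Prop :=
  st2 (A.f2 n c.1 c.2.2) c.2.1 = Sum.inl (c'.1, c'.2.1) ∧ c'.2.2 = A.J2 n c.1 c.2.2

def NHalts {k p : ℕ} {F1 F2 : Type} (A : NM k p F1 F2) (st2 : F2 → ℕ → (F1 × ℕ) ⊕ Bool) (n : ℕ)
    (c0 : F1 × ℕ × (Fin k → ℕ)) (b : Bool) : Prop :=
  ∃ c, ReflTransGen (NStep A st2 n) c0 c ∧ st2 (A.f2 n c.1 c.2.2) c.2.1 = Sum.inr b

/-! ### Piecewise affine systems in `k` variables -/

/-- a rational form `α · X + a N + γ` -/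
abbrev Form (k : ℕ) := (Fin k → ℚ) × ℚ × ℚ

def ev {k : ℕ} (τ : Form k) (N : ℚ) (X : Fin k → ℚ) : ℚ := ∑ j, τ.1 j * X j + τ.2.1 * N + τ.2.2

/-- an affine map from `k` to `k'` variables -/
abbrev AM (k k' : ℕ) := Fin k' → Form k

def app {k k' : ℕ} (τ : AM k k') (N : ℚ) (X : Fin k → ℚ) : Fin k' → ℚ := fun i => ev (τ i) N X

inductive PB {k : ℕ} : (ℚ → (Fin k → ℚ) → Prop) → Prop
  | le (τ : Form k) : PB fun N X => 0 ≤ ev τ N X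
  | int (τ : Form k) : PB fun N X => ∃ z : ℤ, ev τ N X = z
  | not {P : ℚ → (Fin k → ℚ) → Prop} : PB P → PB fun N X => ¬ P N X
  | and {P R : ℚ → (Fin k → ℚ) → Prop} : PB P → PB R → PB fun N X => P N X ∧ R N X

/-- measurable predicate on configurations -/
def MP {k : ℕ} {Q : Type} (S : ℚ → Q × (Fin k → ℚ) → Prop) : Prop :=
  ∀ q, PB fun N X => S N (q, X)

/-- measurable function with finite range -/
def Meas {k : ℕ} {Q β : Type} (f : ℚ → Q × (Fin k → ℚ) → β) : Prop :=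
  (∃ s : Finset β, ∀ N c, f N c ∈ s) ∧ ∀ b, MP fun N c => f N c = b

structure PA (k : ℕ) (Q : Type) where
  q0 : Q
  out : Q → Option Bool
  lab : ℚ → Q × (Fin k → ℚ) → Q × AM k k
  meas : Meas lab

def PA.φ {k : ℕ} {Q : Type} (P : PA k Q) (N : ℚ) (c : Q × (Fin k → ℚ)) : Q × (Fin k → ℚ) :=
  ((P.lab N c).1, app (P.lab N c).2 N c.2)

def PA.orb {k : ℕ} {Q : Type} (P : PA k Q) (N : ℕ) (t : ℕ) : Q × (Fin k → ℚ) :=
  (P.φ N)^[t] (P.q0, fun _ => 0)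

structure PA.Runs {k : ℕ} {Q : Type} (P : PA k Q) (N : ℕ) (b : Bool) : Prop where
  rng : ∀ t, ∃ X : Fin k → ℕ, (∀ j, X j ≤ N + 1) ∧ (P.orb N t).2 = fun j => (X j : ℚ)
  halt : ∃ t, 0 < t ∧ P.out (P.orb N t).1 = some b
  uniq : ∀ t b', P.out (P.orb N t).1 = some b' → b' = b
  norep : ∀ t p, 0 < p → P.out (P.orb N t).1 = none → P.orb N (t + p) ≠ P.orb N t

/-- an integer form -/
abbrev IForm (k : ℕ) := (Fin k → ℤ) × ℤ × ℤ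

def iev {k : ℕ} (τ : IForm k) (N : ℤ) (X : Fin k → ℤ) : ℤ :=
  ∑ j, τ.1 j * X j + τ.2.1 * N + τ.2.2

/-- the truth value depends only on the residues mod `m` and the signs of the forms in `Fs` -/
def Det {k : ℕ} (P : ℚ → (Fin k → ℚ) → Prop) (m : ℕ) (Fs : Finset (IForm k)) : Prop :=
  ∀ (N N' : ℕ) (X X' : Fin k → ℤ), m ∣ N → m ∣ N' → (∀ j, X j ≡ X' j [ZMOD m]) →
    (∀ τ ∈ Fs, (0 ≤ iev τ N X ↔ 0 ≤ iev τ N' X')) →
    (P (N : ℚ) (fun j => (X j : ℚ)) ↔ P (N' : ℚ) (fun j => (X' j : ℚ)))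

/-- `X` lies in the enlarged cell `h` of width `Δ` -/
def Near {k : ℕ} (Δ : ℕ) (h X : Fin k → ℤ) : Prop :=
  ∀ j, (h j - 1) * Δ ≤ X j ∧ X j ≤ (h j + 2) * Δ

/-- a label: target state and `k` integer forms (to be divided by `β`) -/
abbrev Lab (k : ℕ) (Q : Type) := Q × (Fin k → IForm k)

/-- data produced by the marker construction -/
structure MK (k : ℕ) (Q : Type) where
  β : ℕ
  m : ℕ
  H0 : ℕ
  Δ0 : ℕ
  p : ℕ
  Cb : ℕ
  F : Fin p → IForm k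
  Tt : Finset (Lab k Q)
  Bad : Finset (Fin k → ℤ)
  Z : Finset (Q × (Fin k → ℤ) × (Fin k → ℕ))
  sg : (Fin k → ℤ) → Fin p → Bool
  mac : Q → (Fin k → ℕ) → (Fin p → Bool) → Lab k Q
  β_pos : 0 < β
  m_pos : 0 < m
  H0_pos : 0 < H0
  mac_mem : ∀ q l s, mac q l s ∈ Tt
  Cb_gt : ∀ e, 2 * ∑ j, |(F e).1 j| + |(F e).2.2| < Cb
  small : 32 * 4 ^ k * (Z.card + Bad.card * m ^ k * (Tt.card + Nat.card Q * (2 * Cb + 1) ^ p) + 1) ≤
    (H0 * m) ^ k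
  good : ∀ Δ : ℕ, Δ0 ≤ Δ → ∀ (h : Fin k → ℤ) (X : Fin k → ℕ), (∀ j, X j ≤ H0 * Δ + 1) →
    Near Δ h (fun j => (X j : ℤ)) → h ∉ Bad →
    ∀ e, decide (0 ≤ iev (F e) ((H0 * Δ : ℕ) : ℤ) (fun j => (X j : ℤ))) = sg h e

/-- the run on `N = H0 Δ` jumps from time `t` (position `X`) by the label `l` -/
def MK.Jump {k : ℕ} {Q : Type} (K : MK k Q) (P : PA k Q) (Δ t : ℕ) (X : Fin k → ℕ) (l : Lab k Q) :
    Prop :=
  ∃ (t' : ℕ) (X' : Fin k → ℕ), t < t' ∧ P.orb (K.H0 * Δ) t' = (l.1, fun j => (X' j : ℚ)) ∧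
    (∀ i, (K.β : ℤ) * X' i = iev (l.2 i) ((K.H0 * Δ : ℕ) : ℤ) (fun j => (X j : ℤ))) ∧
    (∀ s, t < s → s < t' → P.out (P.orb (K.H0 * Δ) s).1 = none) ∧
    (P.out l.1 = none → ∀ h' : Fin k → ℤ, Near Δ h' (fun j => (X' j : ℤ)) → h' ∉ K.Bad →
      (l.1, h', fun j => X' j % K.m) ∈ K.Z)

def MK.Works {k : ℕ} {Q : Type} (K : MK k Q) (P : PA k Q) : Prop :=
  (P.q0, (fun _ => 0), (fun _ => 0)) ∈ K.Z ∧
  ∀ Δ : ℕ, K.Δ0 ≤ Δ → K.m ∣ Δ → ∀ b, P.Runs (K.H0 * Δ) b →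
    ∀ (t : ℕ) (q : Q) (X : Fin k → ℕ), P.orb (K.H0 * Δ) t = (q, fun j => (X j : ℚ)) →
      K.Jump P Δ t X (K.mac q (fun j => X j % K.m)
        (fun e => decide (0 ≤ iev (K.F e) ((K.H0 * Δ : ℕ) : ℤ) (fun j => (X j : ℤ)))))

/-- the classes `(A Y / (d U), A Y % d)` of stage 1 -/
def Cls {k : ℕ} (A : Fin k → Fin k → ℤ) (t d : ℕ) : Set ((Fin k → ℤ) × (Fin k → ℤ)) :=
  {c | ∃ (U : ℕ) (Y : Fin k → ℤ), 0 < U ∧
    (∀ j, -((d * U : ℕ) : ℤ) ≤ Y j ∧ Y j ≤ (t + 1) * ((d * U : ℕ) : ℤ)) ∧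
    c = (fun i => (∑ j, A i j * Y j) / (d : ℤ) / (U : ℤ), fun i => (∑ j, A i j * Y j) % (d : ℤ))}

end Pool.Agent.MP_47ff19_lc.H50K
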