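import Pool.Agent.MP_47ff19_lc.H6P.ArithA
import Pool.Agent.MP_47ff19_lc.H50K.DefsK

/-! The numeric machine of row ARK: definitions, counts and integer lemmas. -/

namespace Pool.Agent.MP_47ff19_lc.H50K

open Relation
open Pool.Agent.MP_47ff19_lc.H6P.Ar (toS toS_val)

namespace Ar

/-- digit `j` of `w` in base `D` -/
def dec (D w j : ℕ) : ℕ := w / D ^ j % D

open Classical in
noncomputable def enc (k D : ℕ) (f : Fin k → ℕ) : ℕ :=
  if h : ∃ w, w < D ^ k ∧ ∀ j : Fin k, dec D w j = f j then h.choose else 0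

theorem enc_lt (k D : ℕ) (hD : 0 < D) (f : Fin k → ℕ) : enc k D f < D ^ k := by
  unfold enc
  split_ifs with h
  · exact h.choose_spec.1
  · positivity

theorem dec_enc (k D : ℕ) (f : Fin k → ℕ) (hf : ∀ j, f j < D) (j : Fin k) :
    dec D (enc k D f) j = f j := by
  have h : ∃ w, w < D ^ k ∧ ∀ j : Fin k, dec D w j = f j := by
    refine ⟨finFunctionFinEquiv (fun j => (⟨f j, hf j⟩ : Fin D)), Fin.is_lt _, fun j => ?_⟩
    have := congrFun (finFunctionFinEquiv.symm_apply_apply (fun j => (⟨f j, hf j⟩ : Fin D))) j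
    have h2 := congrArg Fin.val this
    rw [finFunctionFinEquiv_symm_apply_val] at h2
    exact h2
  unfold enc
  rw [dif_pos h]
  exact h.choose_spec.2 j

theorem dec_lt (D w j : ℕ) (hD : 0 < D) : dec D w j < D := Nat.mod_lt _ hD

theorem abs_sum_le {k : ℕ} (a z : Fin k → ℤ) (B : ℤ) (h : ∀ j, |z j| ≤ B) :
    |∑ j, a j * z j| ≤ (∑ j, |a j|) * B := by
  rw [Finset.sum_mul]
  refine (Finset.abs_sum_le_sum_abs _ _).trans (Finset.sum_le_sum fun j _ => ?_)
  rw [abs_mul]
  exact mul_le_mul_of_nonneg_left (h j) (abs_nonneg _)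

theorem clip_sign (C : ℕ) (G y s : ℤ) (hG : 0 < G) (hs : |s| < C * G) :
    0 ≤ G * clip C y + s ↔ 0 ≤ G * y + s := by
  have hs' := abs_lt.1 hs
  unfold clip
  rcases le_total y (-(C : ℤ)) with h | h
  · have hC : (0 : ℤ) ≤ C := by positivity
    rw [min_eq_right (by linarith), max_eq_left h]
    constructor <;> intro h1 <;> nlinarith
  · rcases le_total y (C : ℤ) with h2 | h2
    · rw [min_eq_right h2, max_eq_right h]
    · have hC : (0 : ℤ) ≤ C := by positivity
      rw [min_eq_left h2, max_eq_right (by linarith)]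
      constructor <;> intro h1 <;> nlinarith

theorem clip_mem (C : ℕ) (y : ℤ) : clip C y ∈ Finset.Icc (-(C : ℤ)) C := by
  have hC : (0 : ℤ) ≤ C := by positivity
  unfold clip
  rw [Finset.mem_Icc]
  exact ⟨le_max_left _ _, max_le (by linarith) (min_le_left _ _)⟩

/-- core division lemma, redundant form -/
theorem core (β V E T ε X' : ℤ) (hβ : 0 < β) (hV : 0 < V) (hE : 0 < E)
    (h : β * X' = E * T + ε) (hε : |ε| ≤ V * E) :
    X' = T / (β * V) * (V * E) + (T % (β * V) * E + ε) / β ∧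
      -(V * E) ≤ (T % (β * V) * E + ε) / β ∧ (T % (β * V) * E + ε) / β < 2 * (V * E) := by
  have hd : 0 < β * V := mul_pos hβ hV
  have hr0 : 0 ≤ T % (β * V) := Int.emod_nonneg _ hd.ne'
  have hr1 : T % (β * V) < β * V := Int.emod_lt_of_pos _ hd
  have hT : T = β * V * (T / (β * V)) + T % (β * V) := (Int.mul_ediv_add_emod _ _).symm
  generalize T / (β * V) = u at *
  generalize T % (β * V) = r at *
  have hε' := abs_le.1 hε
  have e1 : r * E + ε = β * (X' - u * (V * E)) := by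
    rw [mul_sub, h, hT]; ring
  have e2 : (r * E + ε) / β = X' - u * (V * E) := by
    rw [e1]; exact Int.mul_ediv_cancel_left _ hβ.ne'
  have hG : 0 < V * E := mul_pos hV hE
  have hβG : V * E ≤ β * (V * E) := by nlinarith
  have hrE : r * E < β * (V * E) := by nlinarith
  have hrE0 : 0 ≤ r * E := by positivity
  rw [e2]
  refine ⟨by ring, ?_, ?_⟩
  · apply le_of_mul_le_mul_left _ hβ
    rw [← e1]; linarith
  · apply lt_of_mul_lt_mul_left _ hβ.le
    rw [← e1]; linarith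

theorem shift_div (a c d U : ℤ) (hd : 0 < d) (hU : 0 < U) :
    (a + d * (U * c)) / d / U = c + a / d / U ∧ (a + d * (U * c)) % d = a % d := by
  constructor
  · rw [Int.add_mul_ediv_left _ _ hd.ne', Int.add_mul_ediv_left _ _ hU.ne', add_comm]
  · rw [Int.add_mul_emod_self_left]

variable {k : ℕ} {Q : Type} [Fintype Q]

abbrev RY (k : ℕ) (Q : Type) := (Fin k → ℤ) × (Fin k → ℕ) × Lab k Q
abbrev RW (k : ℕ) (Q : Type) := Q × (Fin k → ℤ) × (Fin k → ℕ)
abbrev Raw1 (k : ℕ) (Q : Type) := (RY k Q ⊕ RW k Q) × (Fin k → ℤ) × (Fin k → ℤ)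
abbrev Raw2 (k p : ℕ) (Q : Type) := (Σ _ : RY k Q, (Fin k → ℤ) × (Fin k → ℤ)) ⊕
  (RW k Q × (Fin k → ℤ) × (Fin k → ℤ) × (Fin p → ℤ))

noncomputable def box (k : ℕ) (a b : ℤ) : Finset (Fin k → ℤ) :=
  Fintype.piFinset fun _ => Finset.Ico a b

theorem mem_box {a b : ℤ} {x : Fin k → ℤ} : x ∈ box k a b ↔ ∀ j, a ≤ x j ∧ x j < b := by
  simp [box]

theorem card_box (a b : ℤ) : (box k a b).card = (b - a).toNat ^ k := by
  simp [box]

def res (k m : ℕ) : Finset (Fin k → ℕ) := Fintype.piFinset fun _ => Finset.range m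

theorem mem_res {m : ℕ} {x : Fin k → ℕ} : x ∈ res k m ↔ ∀ j, x j < m := by
  simp [res]

theorem card_res (m : ℕ) : (res k m).card = m ^ k := by
  simp [res]

open Classical in
noncomputable def SY (K : MK k Q) : Finset (RY k Q) :=
  K.Z.image (fun σ => (σ.2.1, σ.2.2, K.mac σ.1 σ.2.2 (K.sg σ.2.1))) ∪
    K.Bad ×ˢ res k K.m ×ˢ K.Tt

def SW (K : MK k Q) : Finset (RW k Q) := Finset.univ ×ˢ K.Bad ×ˢ res k K.m

noncomputable def S1 (K : MK k Q) (t V : ℕ) : Finset (Raw1 k Q) :=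
  ((SY K).disjSum (SW K)) ×ˢ box k 0 (K.β * t) ×ˢ box k (-V) (2 * V)

noncomputable def S2 (K : MK k Q) (t V : ℕ)
    (cl : Lab k Q → Finset ((Fin k → ℤ) × (Fin k → ℤ))) : Finset (Raw2 k K.p Q) :=
  ((SY K).sigma fun y => cl y.2.2).disjSum
    (SW K ×ˢ box k 0 (K.β * t) ×ˢ box k (-V) (2 * V) ×ˢ
      Fintype.piFinset fun _ => Finset.Icc (-(K.Cb : ℤ)) K.Cb)

omit [Fintype Q] in
theorem SY_lab (K : MK k Q) {y : RY k Q} (hy : y ∈ SY K) : y.2.2 ∈ K.Tt := by
  classical
  unfold SY at hy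
  rw [Finset.mem_union] at hy
  rcases hy with hy | hy
  · obtain ⟨σ, -, rfl⟩ := Finset.mem_image.1 hy
    exact K.mac_mem _ _ _
  · exact (Finset.mem_product.1 (Finset.mem_product.1 hy).2).2

omit [Fintype Q] in
theorem card_SY (K : MK k Q) : (SY K).card ≤ K.Z.card + K.Bad.card * (K.m ^ k * K.Tt.card) := by
  classical
  unfold SY
  refine (Finset.card_union_le _ _).trans (Nat.add_le_add Finset.card_image_le ?_)
  rw [Finset.card_product, Finset.card_product, card_res]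

theorem card_SW (K : MK k Q) : (SW K).card = Fintype.card Q * (K.Bad.card * K.m ^ k) := by
  unfold SW
  rw [Finset.card_product, Finset.card_product, card_res, Finset.card_univ]

theorem card_boxes (β t V : ℕ) :
    (box k 0 (β * t)).card * (box k (-V) (2 * V)).card ≤ 4 ^ k * (β * t * V) ^ k := by
  rw [card_box, card_box]
  have e1 : ((β : ℤ) * t - 0).toNat = β * t := by
    rw [sub_zero, ← Nat.cast_mul, Int.toNat_natCast]
  have e2 : (2 * (V : ℤ) - -V).toNat = 3 * V := by omega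
  rw [e1, e2, ← mul_pow, ← mul_pow]
  exact Nat.pow_le_pow_left (by nlinarith [Nat.zero_le (β * t * V)]) _

/-- the common bound -/
def bound (K : MK k Q) (t V : ℕ) : ℕ :=
  4 ^ k * (K.β * t * V) ^ k *
    (K.Z.card + K.Bad.card * K.m ^ k * (K.Tt.card + Fintype.card Q * (2 * K.Cb + 1) ^ K.p) + 1)

theorem card_S1 (K : MK k Q) (t V : ℕ) : (S1 K t V).card ≤ bound K t V := by
  unfold S1 bound
  rw [Finset.card_product, Finset.card_product, Finset.card_disjSum, card_SW, mul_comm]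
  refine Nat.mul_le_mul (card_boxes _ _ _) ?_
  have h1 := card_SY K
  have h2 : 1 ≤ (2 * K.Cb + 1) ^ K.p := Nat.one_le_pow _ _ (by omega)
  have h3 : Fintype.card Q * (K.Bad.card * K.m ^ k) * 1 ≤
      Fintype.card Q * (K.Bad.card * K.m ^ k) * (2 * K.Cb + 1) ^ K.p := Nat.mul_le_mul_left _ h2
  nlinarith

theorem card_S2 (K : MK k Q) (t V : ℕ) (cl : Lab k Q → Finset ((Fin k → ℤ) × (Fin k → ℤ)))
    (hcl : ∀ l ∈ K.Tt, (cl l).card ≤ (4 * t * (K.β * V)) ^ k) :
    (S2 K t V cl).card ≤ bound K t V := by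
  unfold S2 bound
  rw [Finset.card_disjSum, Finset.card_sigma]
  have h1 : ∑ y ∈ SY K, (cl y.2.2).card ≤ (SY K).card * (4 ^ k * (K.β * t * V) ^ k) := by
    rw [← smul_eq_mul]
    apply Finset.sum_le_card_nsmul
    intro y hy
    refine (hcl _ (SY_lab K hy)).trans (le_of_eq ?_)
    rw [← mul_pow]; congr 1; ring
  have h2 := card_boxes (k := k) K.β t V
  have h3 : (Fintype.piFinset fun _ : Fin K.p => Finset.Icc (-(K.Cb : ℤ)) K.Cb).card =
      (2 * K.Cb + 1) ^ K.p := by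
    have : ((K.Cb : ℤ) + 1 - -(K.Cb : ℤ)).toNat = 2 * K.Cb + 1 := by omega
    rw [Fintype.card_piFinset, Finset.prod_const, Int.card_Icc, this, Finset.card_univ,
      Fintype.card_fin]
  rw [Finset.card_product, Finset.card_product, Finset.card_product, h3, card_SW, ← mul_assoc
    (box k 0 (K.β * t)).card]
  have h4 := Nat.mul_le_mul_right (4 ^ k * (K.β * t * V) ^ k) (card_SY K)
  have h5 := Nat.mul_le_mul_left (Fintype.card Q * (K.Bad.card * K.m ^ k))
    (Nat.mul_le_mul_right ((2 * K.Cb + 1) ^ K.p) h2)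
  generalize 4 ^ k * (K.β * t * V) ^ k = c at *
  nlinarith [Nat.zero_le c]

end Ar

end Pool.Agent.MP_47ff19_lc.H50K
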