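import Pool.Agent.MP_47ff19_lc.H50K.ArithKA

/-! The numeric machine of row ARK and its two one-step lemmas. -/

namespace Pool.Agent.MP_47ff19_lc.H50K

open Relation
open Pool.Agent.MP_47ff19_lc.H6P.Ar (toS toS_val)

namespace Ar

variable {k : ℕ} {Q : Type} [Fintype Q]

def hh : RY k Q ⊕ RW k Q → Fin k → ℤ
  | Sum.inl y => y.1
  | Sum.inr w => w.2.1

def ll : RY k Q ⊕ RW k Q → Fin k → ℕ
  | Sum.inl y => y.2.1
  | Sum.inr w => w.2.2

/-- the fine cell -/
def ht (K : MK k Q) (t : ℕ) (f : Raw1 k Q) (j : Fin k) : ℤ := hh f.1 j * (K.β * t) + f.2.1 j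

def matf (V : ℕ) : RY k Q ⊕ RW k Q → Fin k → Fin k → ℤ
  | Sum.inl y => fun i j => (y.2.2.2 i).1 j * V
  | Sum.inr _ => fun i j => if i = j then 1 else 0

def b0f (v : Fin k → ℤ) : RY k Q ⊕ RW k Q → Fin k → ℤ
  | Sum.inl y => fun i => ∑ j, (y.2.2.2 i).1 j * v j
  | Sum.inr _ => fun _ => 0

def b1f (V : ℕ) (H : ℤ) (c : Fin k → ℤ) : RY k Q ⊕ RW k Q → Fin k → ℤ
  | Sum.inl y => fun i => (∑ j, (y.2.2.2 i).1 j * c j + (y.2.2.2 i).2.1 * H) * V
  | Sum.inr _ => fun _ => 0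

def df (d : ℤ) : RY k Q ⊕ RW k Q → ℤ
  | Sum.inl _ => d
  | Sum.inr _ => 1

def base (K : MK k Q) (t : ℕ) (y : RY k Q) (i : Fin k) : ℤ :=
  t * (∑ j, (y.2.2.2 i).1 j * y.1 j + (y.2.2.2 i).2.1 * K.H0)

def out2 (K : MK k Q) (t : ℕ) (i v : Fin k → ℤ) (y : Fin K.p → ℤ) (ut r : Fin k → ℤ) :
    RY k Q ⊕ RW k Q → Raw2 k K.p Q
  | Sum.inl Y => Sum.inl ⟨Y, (fun a => ut a - base K t Y a, r)⟩
  | Sum.inr W => Sum.inr (W, i, v, y)

noncomputable def nm (K : MK k Q) (t V : ℕ) (hV : 0 < V)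
    (cl : Lab k Q → Finset ((Fin k → ℤ) × (Fin k → ℤ))) (d2 : S2 K t V cl) :
    NM k K.p (S1 K t V) (S2 K t V cl) where
  C := K.Cb
  tst f e := ((K.F e).1, ∑ j, (K.F e).1 j * ht K t f.1 j + (K.F e).2.1 * (K.H0 * (K.β * t)))
  hC f e := by
    have h1 := K.Cb_gt e
    have h2 : 0 ≤ ∑ j, |(K.F e).1 j| := Finset.sum_nonneg fun j _ => abs_nonneg _
    have h3 := abs_nonneg (K.F e).2.2
    simp only
    linarith
  mat f := matf V f.1.1
  b0 f := b0f f.1.2.2 f.1.1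
  b1 f := b1f V (K.H0 * (K.β * t)) (ht K t f.1) f.1.1
  d f := df (K.β * V) f.1.1
  pos f := by
    have : (0 : ℤ) < K.β * V := mul_pos (by exact_mod_cast K.β_pos) (by exact_mod_cast hV)
    rcases f with ⟨⟨y | w, x⟩, hf⟩
    · exact this
    · exact one_pos
  outp f y ut r := toS _ d2 (out2 K t f.1.2.1 f.1.2.2 y ut r f.1.1)

open Classical in
/-- the symbol part of the code of a new position -/
noncomputable def sym (K : MK k Q) (q : Q) (h : Fin k → ℤ) (l : Fin k → ℕ) : RY k Q ⊕ RW k Q :=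
  if h ∈ K.Bad then Sum.inr (q, h, l) else Sum.inl (h, l, K.mac q l (K.sg h))

/-- re-encoding of the target -/
noncomputable def fin2 (P : PA k Q) (K : MK k Q) (t V D : ℕ) (d1 : S1 K t V) (q : Q)
    (ut z : Fin k → ℤ) : (S1 K t V × ℕ) ⊕ Bool :=
  match P.out q with
  | some b => Sum.inr (!b)
  | none => Sum.inl (toS _ d1 (sym K q (fun j => ut j / (K.β * t)) (fun j => (z j % K.m).toNat),
      fun j => ut j % (K.β * t), fun j => z j / (D * K.m)),
      enc k D fun j => (z j % (D * K.m) / K.m).toNat)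

noncomputable def st2 (P : PA k Q) (K : MK k Q) (t V D : ℕ)
    (cl : Lab k Q → Finset ((Fin k → ℤ) × (Fin k → ℤ))) (d1 : S1 K t V) (f : S2 K t V cl) (w : ℕ) :
    (S1 K t V × ℕ) ⊕ Bool :=
  match f.1 with
  | Sum.inl ⟨y, p, r⟩ => fin2 P K t V D d1 y.2.2.1 (fun i => base K t y i + p i)
      (fun i => (r i * (D * K.m) + (∑ j, (y.2.2.2 i).1 j * (dec D w j * K.m + y.2.1 j) +
        (y.2.2.2 i).2.2)) / K.β)
  | Sum.inr (W, i, v, y) => Sum.inl (toS _ d1 (Sum.inl (W.2.1, W.2.2, K.mac W.1 W.2.2 fun e =>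
      decide (0 ≤ (V * (D * K.m) : ℤ) * y e +
        (∑ j, (K.F e).1 j * (v j * (D * K.m) + (dec D w j * K.m + W.2.2 j)) + (K.F e).2.2))),
      i, v), w % D ^ k)

theorem st2_bd (P : PA k Q) (K : MK k Q) (t V D : ℕ) (hD : 0 < D)
    (cl : Lab k Q → Finset ((Fin k → ℤ) × (Fin k → ℤ))) (d1 : S1 K t V) (f : S2 K t V cl)
    (w f' w') (h : st2 P K t V D cl d1 f w = Sum.inl (f', w')) : w' < D ^ k := by
  unfold st2 at h
  split at h
  · unfold fin2 at h
    split at h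
    · cases h
    · cases h; exact enc_lt _ _ hD _
  · cases h; exact Nat.mod_lt _ (by positivity)

/-- the true label -/
def tl (K : MK k Q) (N : ℕ) (q : Q) (X : Fin k → ℕ) : Lab k Q :=
  K.mac q (fun j => X j % K.m) fun e => decide (0 ≤ iev (K.F e) (N : ℤ) fun j => (X j : ℤ))

def Ok (K : MK k Q) (N : ℕ) (q : Q) (X : Fin k → ℕ) : RY k Q ⊕ RW k Q → Prop
  | Sum.inl y => y.2.2 = tl K N q X
  | Sum.inr W => W.1 = q

/-- the code `(f, w, J)` represents the configuration `(q, X)` -/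
structure Rep (K : MK k Q) (t V D n : ℕ) (f : Raw1 k Q) (w : ℕ) (J : Fin k → ℕ) (q : Q)
    (X : Fin k → ℕ) : Prop where
  hw : w < D ^ k
  hJ : ∀ j, J j < 2 ^ n
  hl : ∀ j, ll f.1 j = X j % K.m
  hX : ∀ j, (X j : ℤ) = (ht K t f j * 2 ^ n + J j) * (V * (D * K.m)) +
    (f.2.2 j * (D * K.m) + (dec D w j * K.m + ll f.1 j))
  ok : Ok K (K.H0 * (K.β * t * (2 ^ n * (V * (D * K.m))))) q X f.1

theorem low_bd (D m w j l : ℕ) (hD : 0 < D) (hl : l < m) :
    (0 : ℤ) ≤ dec D w j * m + l ∧ (dec D w j * m + l : ℤ) < D * m := by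
  have h1 : dec D w j + 1 ≤ D := dec_lt D w j hD
  have h2 : (dec D w j + 1) * m ≤ D * m := Nat.mul_le_mul_right _ h1
  refine ⟨by positivity, ?_⟩
  have : dec D w j * m + l < D * m := by rw [add_mul] at h2; omega
  exact_mod_cast this

/-- an unlabelled code is labelled in one step -/
theorem unl_step (P : PA k Q) (K : MK k Q) (t V D n : ℕ) (hV : 0 < V) (hD : 0 < D)
    (cl : Lab k Q → Finset ((Fin k → ℤ) × (Fin k → ℤ))) (d1 : S1 K t V) (d2 : S2 K t V cl)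
    (W : RW k Q) (i v : Fin k → ℤ) (hf : (Sum.inr W, i, v) ∈ S1 K t V) (w : ℕ) (J : Fin k → ℕ)
    (q : Q) (X : Fin k → ℕ) (hrep : Rep K t V D n (Sum.inr W, i, v) w J q X) :
    ∃ (y : RY k Q) (hy : (Sum.inl y, i, v) ∈ S1 K t V),
      NStep (nm K t V hV cl d2) (st2 P K t V D cl d1) n (⟨_, hf⟩, w, J) (⟨_, hy⟩, w, J) ∧
      Rep K t V D n (Sum.inl y, i, v) w J q X := by
  classical
  obtain ⟨hw, hJ, hl, hX, hok⟩ := hrep
  have hf' := hf
  simp only [S1, Finset.mem_product, Finset.inr_mem_disjSum] at hf'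
  obtain ⟨hW, hi, hv⟩ := hf'
  have hW' := hW
  simp only [SW, Finset.mem_product] at hW'
  obtain ⟨-, hB, hr⟩ := hW'
  have hq : W.1 = q := hok
  set N := K.H0 * (K.β * t * (2 ^ n * (V * (D * K.m)))) with hN
  have hy : ((Sum.inl (W.2.1, W.2.2, tl K N q X), i, v) : Raw1 k Q) ∈ S1 K t V := by
    simp only [S1, Finset.mem_product, Finset.inl_mem_disjSum]
    refine ⟨?_, hi, hv⟩
    unfold SY
    rw [Finset.mem_union]
    exact Or.inr (Finset.mem_product.2 ⟨hB, Finset.mem_product.2 ⟨hr, K.mac_mem _ _ _⟩⟩)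
  refine ⟨_, hy, ⟨?_, ?_⟩, ⟨hw, hJ, hl, hX, rfl⟩⟩
  · have hm : (0 : ℤ) < K.m := by exact_mod_cast K.m_pos
    have hE : (0 : ℤ) < D * K.m := mul_pos (by exact_mod_cast hD) hm
    have hV1 : (1 : ℤ) ≤ V := by exact_mod_cast hV
    have hG : (0 : ℤ) < V * (D * K.m) := mul_pos (by omega) hE
    have hf2 : ((nm K t V hV cl d2).f2 n ⟨_, hf⟩ J).1 =
        Sum.inr (W, i, v, (nm K t V hV cl d2).y n ⟨_, hf⟩ J) := by
      refine toS_val d2 ?_
      simp only [out2, S2, Finset.inr_mem_disjSum, Finset.mem_product, Fintype.mem_piFinset]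
      exact ⟨hW, hi, hv, fun e => clip_mem _ _⟩
    simp only
    unfold st2
    rw [hf2]
    simp only
    rw [Nat.mod_eq_of_lt hw]
    congr 2
    apply Subtype.ext
    have hlab : (K.mac W.1 W.2.2 fun e => decide (0 ≤ (V * (D * K.m) : ℤ) *
        (nm K t V hV cl d2).y n ⟨_, hf⟩ J e + (∑ j, (K.F e).1 j * (v j * (D * K.m) +
          (dec D w j * K.m + W.2.2 j)) + (K.F e).2.2))) = tl K N q X := by
      unfold tl
      have e1 : W.2.2 = fun j => X j % K.m := funext hl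
      rw [hq]
      congr 1
      funext e
      apply decide_eq_decide.2
      have hz : ∀ j, |v j * (D * K.m) + (dec D w j * K.m + W.2.2 j)| ≤ 2 * (V * (D * K.m) : ℤ) := by
        intro j
        obtain ⟨a1, a2⟩ := low_bd D K.m w j (W.2.2 j) hD (mem_res.1 hr j)
        obtain ⟨b1, b2⟩ := mem_box.1 hv j
        rw [abs_le]
        constructor <;> nlinarith
      have hs := abs_sum_le (K.F e).1 _ _ hz
      have hc := K.Cb_gt e
      have h2 : 0 ≤ ∑ j, |(K.F e).1 j| := Finset.sum_nonneg fun j _ => abs_nonneg _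
      have h3 := abs_nonneg (K.F e).2.2
      have hs2 := abs_add_le (∑ j, (K.F e).1 j * (v j * (D * K.m) + (dec D w j * K.m + W.2.2 j)))
        (K.F e).2.2
      unfold NM.y
      have := clip_sign K.Cb (V * (D * K.m)) (∑ j, (K.F e).1 j * J j +
        (∑ j, (K.F e).1 j * ht K t (Sum.inr W, i, v) j + (K.F e).2.1 * (K.H0 * (K.β * t))) * 2 ^ n)
        (∑ j, (K.F e).1 j * (v j * (D * K.m) + (dec D w j * K.m + W.2.2 j)) + (K.F e).2.2) hG
        (by nlinarith)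
      refine this.trans (iff_of_eq (congrArg _ ?_))
      unfold iev
      have e2 : ∑ j, (K.F e).1 j * (X j : ℤ) = (V * (D * K.m) : ℤ) * (∑ j, (K.F e).1 j * J j +
          (∑ j, (K.F e).1 j * ht K t (Sum.inr W, i, v) j) * 2 ^ n) +
          ∑ j, (K.F e).1 j * (v j * (D * K.m) + (dec D w j * K.m + W.2.2 j)) := by
        rw [Finset.sum_mul, ← Finset.sum_add_distrib, Finset.mul_sum, ← Finset.sum_add_distrib]
        refine Finset.sum_congr rfl fun j _ => ?_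
        rw [hX j]; simp only [ll]; ring
      rw [e2, hN]; push_cast; ring
    rw [hlab]
    exact toS_val d1 hy
  · funext a
    simp only [NM.J2, NM.T, nm, matf, b0f, b1f, df, ite_mul, one_mul, zero_mul,
      Finset.sum_ite_eq, Finset.mem_univ, if_true, add_zero, Int.ediv_one]
    have : ((J a : ℤ)) % 2 ^ n = J a :=
      Int.emod_eq_of_lt (by positivity) (by exact_mod_cast hJ a)
    rw [this, Int.toNat_natCast]

end Ar

end Pool.Agent.MP_47ff19_lc.H50K
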