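import Pool.Agent.MP_47ff19_lc.H50K.DefsK

namespace Pool.Agent.MP_47ff19_lc.H50K

open Relation
open Pool.Agent.MP_47ff19_lc.H6P (Sym tape mv Op un tape_un A2 Table BHalts CM CHalts CStep val)

section BlkAux

variable {k : ℕ} {S : Type}

/-- a block transducer whose output depends on the state only, run bit by bit in the order `σ` -/
def blkD (hk : 0 < k) (nx : S → (Fin k → Bool) → S) (ot : S → Fin k → Bool) (σ : Fin k → Fin k)
    (c : S × Fin k × (Fin k → Bool)) (x : Bool) : (S × Fin k × (Fin k → Bool)) × Bool :=
  (if h : c.2.1.1 + 1 < k then (c.1, ⟨c.2.1.1 + 1, h⟩, Function.update c.2.2 c.2.1 x)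
    else (nx c.1 (fun j => Function.update c.2.2 c.2.1 x (σ j)), ⟨0, hk⟩, fun _ => false),
    ot c.1 (σ c.2.1))

theorem blk_one (hk : 0 < k) (nx : S → (Fin k → Bool) → S) (ot : S → Fin k → Bool)
    (σ : Fin k → Fin k) (s : S) (c : Fin k → Bool) (rest : List Bool) :
    ∀ (n : ℕ) (i : Fin k) (buf : Fin k → Bool), i.1 + n + 1 = k → (∀ j, j < i → buf j = c j) →
      H6P.pass (blkD hk nx ot σ) (s, i, buf) ((List.ofFn c).drop i ++ rest) =
        ((H6P.pass (blkD hk nx ot σ) (nx s (fun j => c (σ j)), ⟨0, hk⟩, fun _ => false) rest).1,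
          (List.ofFn fun j => ot s (σ j)).drop i ++
            (H6P.pass (blkD hk nx ot σ) (nx s (fun j => c (σ j)), ⟨0, hk⟩, fun _ => false) rest).2) := by
  intro n
  induction n with
  | zero =>
    intro i buf hi hb
    have e1 : (List.ofFn c).drop i = [c i] := by
      rw [List.drop_eq_getElem_cons (by simp), List.drop_eq_nil_of_le (by simp; omega)]
      simp
    have e2 : (List.ofFn fun j => ot s (σ j)).drop i = [ot s (σ i)] := by
      rw [List.drop_eq_getElem_cons (by simp), List.drop_eq_nil_of_le (by simp; omega)]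
      simp
    have e3 : Function.update buf i (c i) = c := by
      funext j
      by_cases h : j = i
      · subst h
        simp
      · rw [Function.update_of_ne h]
        refine hb j ?_
        have h1 : j.1 ≠ i.1 := fun e => h (Fin.ext e)
        have h2 := j.2
        rw [Fin.lt_def]
        omega
    have e4 : blkD hk nx ot σ (s, i, buf) (c i) =
        ((nx s (fun j => c (σ j)), ⟨0, hk⟩, fun _ => false), ot s (σ i)) := by
      unfold blkD
      rw [dif_neg (by simp only; omega)]
      simp only [e3]
    rw [e1, e2]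
    simp only [List.cons_append, List.nil_append, H6P.pass, e4]
  | succ n ih =>
    intro i buf hi hb
    have hl : i.1 + 1 < k := by omega
    have e1 : (List.ofFn c).drop i = c i :: (List.ofFn c).drop (i + 1) := by
      rw [List.drop_eq_getElem_cons (by simp)]
      simp
    have e2 : (List.ofFn fun j => ot s (σ j)).drop i =
        ot s (σ i) :: (List.ofFn fun j => ot s (σ j)).drop (i + 1) := by
      rw [List.drop_eq_getElem_cons (by simp)]
      simp
    have e4 : blkD hk nx ot σ (s, i, buf) (c i) =
        ((s, ⟨i.1 + 1, hl⟩, Function.update buf i (c i)), ot s (σ i)) := by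
      unfold blkD
      rw [dif_pos hl]
    have e5 := ih ⟨i.1 + 1, hl⟩ (Function.update buf i (c i)) (by simp only; omega) fun j hj => by
      by_cases h : j = i
      · subst h
        simp
      · rw [Function.update_of_ne h]
        refine hb j ?_
        have h1 : j.1 ≠ i.1 := fun e => h (Fin.ext e)
        rw [Fin.lt_def] at hj ⊢
        simp only at hj
        omega
    rw [e1, e2]
    simp only [List.cons_append, H6P.pass, e4]
    simp only at e5
    rw [e5]

theorem blk_all (hk : 0 < k) (nx : S → (Fin k → Bool) → S) (ot : S → Fin k → Bool)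
    (σ : Fin k → Fin k) (hσ : ∀ j, σ (σ j) = j) (J : List (Fin k → Bool)) : ∀ s : S,
    H6P.pass (blkD hk nx ot σ) (s, ⟨0, hk⟩, fun _ => false)
        (J.map fun b => List.ofFn fun j => b (σ j)).flatten =
      (((passK (fun s b => (nx s b, ot s)) s J).1, ⟨0, hk⟩, fun _ => false),
        ((passK (fun s b => (nx s b, ot s)) s J).2.map fun b => List.ofFn fun j => b (σ j)).flatten) := by
  induction J with
  | nil => intro s; simp [H6P.pass, passK]
  | cons b l ih =>
    intro s
    have e := blk_one hk nx ot σ s (fun j => b (σ j))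
      (l.map fun b => List.ofFn fun j => b (σ j)).flatten (k - 1) ⟨0, hk⟩ (fun _ => false)
      (by simp only; omega) fun j hj => absurd hj (by simp [Fin.lt_def])
    simp only [List.drop_zero, hσ, ih] at e
    simp only [List.map_cons, List.flatten_cons, passK]
    exact e

theorem blk_rev (J : List (Fin k → Bool)) :
    (flat J).reverse = (J.reverse.map fun b => List.ofFn fun j => b (Fin.rev j)).flatten := by
  induction J with
  | nil => simp [flat]
  | cons b l ih =>
    have e : (List.ofFn b).reverse = List.ofFn fun j => b (Fin.rev j) := by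
      refine List.ext_getElem (by simp) fun i h1 h2 => ?_
      simp only [List.getElem_reverse, List.getElem_ofFn, List.length_ofFn]
      congr 1
      ext
      simp only [Fin.val_rev]
      omega
    unfold flat at ih ⊢
    rw [List.map_cons, List.flatten_cons, List.reverse_append, ih, e, List.reverse_cons,
      List.map_append, List.flatten_append]
    simp

theorem blk_L {β : Type} (d : S → β → S × β) (J : List β) : ∀ (s : S) (o : β), ∃ (o' : β) (K : List β),
    passK (fun (c : S × β) b => (d c.1 b, c.2)) (s, o) J = (((passK d s J).1, o'), K) ∧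
      K ++ [o'] = o :: (passK d s J).2 := by
  induction J with
  | nil => intro s o; exact ⟨o, [], rfl, rfl⟩
  | cons b l ih =>
    intro s o
    obtain ⟨o', K, e1, e2⟩ := ih (d s b).1 (d s b).2
    refine ⟨o', o :: K, ?_, ?_⟩
    · simp only [passK, e1]
    · simp only [passK, List.cons_append, e2]

theorem blk_R {β : Type} (d : S → β → S × β) (K : List β) : ∀ (s : S) (o o' : β) (M : List β),
    o :: K = M ++ [o'] →
    passK (fun (c : S × β) b => (((d c.1 c.2).1, b), (d c.1 c.2).2)) (s, o) K =
      (((passK d s M).1, o'), (passK d s M).2) := by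
  induction K with
  | nil =>
    intro s o o' M h
    rcases M with _ | ⟨a, M⟩
    · obtain rfl : o = o' := by simpa using h
      rfl
    · simp at h
  | cons b l ih =>
    intro s o o' M h
    rcases M with _ | ⟨a, M⟩
    · simp at h
    · obtain ⟨rfl, h2⟩ := List.cons.inj h
      simp only [passK, ih _ b o' M h2]

variable {F1 F2 : Type}

/-- the bit machine -/
def blkC (hk : 0 < k) (C : CK k F1 F2 S) :
    CM F1 F2 ((S × (Fin k → Bool)) × Fin k × (Fin k → Bool)) where
  init f := ((C.init f, fun _ => false), ⟨0, hk⟩, fun _ => false)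
  dL := blkD hk (fun c b => C.dL c.1 b) (fun c => c.2) fun j => j
  dR := blkD hk (fun c b => ((C.dR c.1 c.2).1, b)) (fun c => (C.dR c.1 c.2).2) Fin.rev
  mid c := ((C.mid c.1.1, c.1.2), c.2)
  fin c := (C.fin c.1.1).map (fun s => ((s, c.1.2), c.2)) id

theorem blk_round (hk : 0 < k) (C : CK k F1 F2 S) (s : S) (o : Fin k → Bool)
    (J : List (Fin k → Bool)) :
    (blkC hk C).round ((s, o), ⟨0, hk⟩, fun _ => false) (flat J) =
      ((C.round s J).1.map (fun s => ((s, o), ⟨0, hk⟩, fun _ => false)) id, flat (C.round s J).2) := by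
  obtain ⟨o', K, e1, e2⟩ := blk_L C.dL J s o
  have e3 : H6P.pass (blkC hk C).dL ((s, o), ⟨0, hk⟩, fun _ => false) (flat J) =
      ((((passK C.dL s J).1, o'), ⟨0, hk⟩, fun _ => false), flat K) := by
    have h := blk_all hk (fun (c : S × (Fin k → Bool)) b => C.dL c.1 b) (fun c => c.2) (fun j => j)
      (fun _ => rfl) J (s, o)
    rw [e1] at h
    exact h
  have e4 := blk_R C.dR K.reverse (C.mid (passK C.dL s J).1) o' o (passK C.dL s J).2.reverse
    (by rw [← List.reverse_cons, ← e2]; simp)
  have e5 : H6P.pass (blkC hk C).dR ((C.mid (passK C.dL s J).1, o'), ⟨0, hk⟩, fun _ => false)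
      (flat K).reverse =
      ((((passK C.dR (C.mid (passK C.dL s J).1) (passK C.dL s J).2.reverse).1, o), ⟨0, hk⟩,
        fun _ => false),
        (flat (passK C.dR (C.mid (passK C.dL s J).1) (passK C.dL s J).2.reverse).2.reverse).reverse) := by
    have h := blk_all hk (fun (c : S × (Fin k → Bool)) b => ((C.dR c.1 c.2).1, b))
      (fun c => (C.dR c.1 c.2).2) Fin.rev Fin.rev_rev K.reverse (C.mid (passK C.dL s J).1, o')
    rw [e4] at h
    rw [blk_rev, blk_rev, List.reverse_reverse]
    exact h
  unfold CM.round
  rw [e3]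
  have e6 : (blkC hk C).mid (((passK C.dL s J).1, o'), ⟨0, hk⟩, fun _ => false) =
      ((C.mid (passK C.dL s J).1, o'), ⟨0, hk⟩, fun _ => false) := rfl
  simp only [e6, e5, List.reverse_reverse]
  rfl

theorem blk_rounds (hk : 0 < k) (C : CK k F1 F2 S) (o : Fin k → Bool) {s : S}
    {J : List (Fin k → Bool)} {f : F2} {J' : List (Fin k → Bool)} (h : C.Rounds s J f J') :
    (blkC hk C).Rounds ((s, o), ⟨0, hk⟩, fun _ => false) (flat J) f (flat J') := by
  induction h with
  | done e => exact CM.Rounds.done (by rw [blk_round, e]; rfl)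
  | more e _ ih => exact CM.Rounds.more (by rw [blk_round, e]; rfl) ih

end BlkAux

/-- ROW BLK: a block machine is a bit machine (the L pass delays by one block, the R pass undoes it). -/
theorem blk (k : ℕ) (hk : 0 < k) (F1 F2 Sg : Type) [Finite Sg] (C : CK k F1 F2 Sg) :
    ∃ (Sg' : Type) (_ : Finite Sg') (C' : CM F1 F2 Sg'), ∀ (f : F1) (J : List (Fin k → Bool))
      (f2 : F2) (J' : List (Fin k → Bool)), C.Rounds (C.init f) J f2 J' →
        C'.Rounds (C'.init f) (flat J) f2 (flat J') :=
  ⟨_, inferInstance, blkC hk C, fun _ _ _ _ h => blk_rounds hk C _ h⟩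

end Pool.Agent.MP_47ff19_lc.H50K
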