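import Pool.Agent.MP_47ff19_lc.H50K.DefsK

namespace Pool.Agent.MP_47ff19_lc.H50K

open Relation
open Pool.Agent.MP_47ff19_lc.H6P (Sym tape mv Op un tape_un A2 Table BHalts CM CHalts CStep val)

namespace Cn

variable {k : ℕ}

/-- residual finiteness of `ℤ^k / L ℤ^k` -/
theorem rf (L : (Fin k → ℤ) →ₗ[ℤ] (Fin k → ℤ)) (x : Fin k → ℤ) :
    ∃ M : ℕ, 0 < M ∧ ∀ z w, x = L z + (M : ℤ) • w → ∃ z', x = L z' := by
  by_contra hn
  have hn' : ∀ M : ℕ, 0 < M → ∃ z w, x = L z + (M : ℤ) • w ∧ ¬ ∃ z', x = L z' := by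
    intro M hM
    by_contra h
    apply hn
    refine ⟨M, hM, fun z w e => ?_⟩
    by_contra h'
    exact h ⟨z, w, e, h'⟩
  obtain ⟨_, _, _, hx⟩ := hn' 1 one_pos
  have key : ∀ a : ℤ, a ≠ 0 →
      ∃ r : ℤ, (r * a) • (LinearMap.range L).mkQ x = (LinearMap.range L).mkQ x := by
    intro a ha
    have h1 : (LinearMap.range L).mkQ x ∈
        (⨅ i : ℕ, (Ideal.span {a}) ^ i • ⊤ : Submodule ℤ ((Fin k → ℤ) ⧸ LinearMap.range L)) := by
      rw [Submodule.mem_iInf]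
      intro i
      obtain ⟨z, w, e, -⟩ := hn' (a ^ i).natAbs (Int.natAbs_pos.2 (pow_ne_zero _ ha))
      have h0 : (LinearMap.range L).mkQ (L z) = 0 :=
        (Submodule.Quotient.mk_eq_zero _).2 ⟨z, rfl⟩
      have h2 : (LinearMap.range L).mkQ x = (((a ^ i).natAbs : ℕ) : ℤ) • (LinearMap.range L).mkQ w := by
        rw [e, map_add, h0, zero_add, map_smul]
      rw [h2]
      refine Submodule.smul_mem_smul ?_ Submodule.mem_top
      rw [Ideal.span_singleton_pow, Ideal.mem_span_singleton]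
      exact Int.dvd_natAbs.2 dvd_rfl
    obtain ⟨⟨r, hr⟩, e⟩ := (Ideal.mem_iInf_smul_pow_eq_bot_iff _ _).1 h1
    obtain ⟨c, rfl⟩ := Ideal.mem_span_singleton'.1 hr
    exact ⟨c, e⟩
  obtain ⟨r, e⟩ := key 2 two_ne_zero
  obtain ⟨r', e'⟩ := key (r * 2 - 1) (by omega)
  have h0 : (r * 2 - 1) • (LinearMap.range L).mkQ x = 0 := by
    rw [sub_smul, e, one_smul, sub_self]
  rw [mul_smul, h0, smul_zero] at e'
  obtain ⟨z, hz⟩ := (Submodule.Quotient.mk_eq_zero _).1 e'.symm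
  exact hx ⟨z, hz.symm⟩

/-- representatives -/
theorem reps (L : (Fin k → ℤ) →ₗ[ℤ] (Fin k → ℤ)) :
    ∃ ρ ζ : (Fin k → ℤ) → (Fin k → ℤ), (∀ f, f = ρ f + L (ζ f)) ∧
      ∀ f f' z, f - f' = L z → ρ f = ρ f' := by
  classical
  have h1 : ∀ f : Fin k → ℤ, ∃ z, f = Classical.epsilon (fun g => ∃ z, f = g + L z) + L z :=
    fun f => Classical.epsilon_spec (p := fun g => ∃ z, f = g + L z) ⟨f, 0, by simp⟩
  choose ζ hζ using h1
  refine ⟨fun f => Classical.epsilon (fun g => ∃ z, f = g + L z), ζ, hζ, ?_⟩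
  intro f f' z e
  have : (fun g => ∃ z, f = g + L z) = fun g => ∃ z, f' = g + L z := by
    funext g
    apply propext
    constructor
    · rintro ⟨y, hy⟩
      refine ⟨y - z, ?_⟩
      rw [map_sub, ← e, hy]; abel
    · rintro ⟨y, hy⟩
      refine ⟨y + z, ?_⟩
      rw [map_add, ← e, hy]; abel
  simp only [this]

theorem box_bound (s : Finset (Fin k → ℤ)) : ∃ c : ℕ, ∀ x ∈ s, ∀ j, |x j| ≤ c := by
  refine ⟨∑ x ∈ s, ∑ j, (x j).natAbs, fun x hx j => ?_⟩
  have h1 : (x j).natAbs ≤ ∑ j, (x j).natAbs :=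
    Finset.single_le_sum (f := fun j => (x j).natAbs) (fun _ _ => Nat.zero_le _) (Finset.mem_univ j)
  have h2 : ∑ j, (x j).natAbs ≤ ∑ x ∈ s, ∑ j, (x j).natAbs :=
    Finset.single_le_sum (f := fun x : Fin k → ℤ => ∑ j, (x j).natAbs) (fun _ _ => Nat.zero_le _) hx
  rw [← Int.natCast_natAbs]
  exact_mod_cast h1.trans h2

theorem div_bound (a C D : ℤ) (hD : 0 < D) (h : |a| ≤ C * D) : -C ≤ a / D ∧ a / D ≤ C := by
  obtain ⟨h1, h2⟩ := abs_le.1 h
  constructor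
  · exact (Int.le_ediv_iff_mul_le hD).2 (by linarith)
  · exact Int.ediv_le_of_le_mul hD h2

end Cn

open Cn in
/-- ROW CNT: the tight count. -/
theorem cnt {k : ℕ} (A : Fin k → Fin k → ℤ) : ∃ t0 V0 : ℕ, 0 < V0 ∧ ∀ t d : ℕ, t0 ≤ t → 0 < d →
    V0 ∣ d → ∃ s : Finset ((Fin k → ℤ) × (Fin k → ℤ)), Cls A t d ⊆ ↑s ∧
      s.card ≤ (4 * t * d) ^ k := by
  classical
  obtain ⟨L, hL⟩ : ∃ L : (Fin k → ℤ) →ₗ[ℤ] (Fin k → ℤ), ∀ Y i, L Y i = ∑ j, A i j * Y j :=
    ⟨Matrix.mulVecLin (Matrix.of A), fun Y i => by simp [Matrix.mulVec, dotProduct]⟩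
  obtain ⟨ρ, ζ, hρ, hρ'⟩ := reps L
  choose M hM hM' using rf L
  obtain ⟨B, hB⟩ : ∃ B : Finset (Fin k → ℤ), ∀ f : Fin k → ℤ,
      (∀ i, -(∑ j, |A i j|) ≤ f i ∧ f i ≤ ∑ j, |A i j|) → f ∈ B :=
    ⟨Fintype.piFinset fun i => Finset.Icc (-(∑ j, |A i j|)) (∑ j, |A i j|), fun f hf =>
      Fintype.mem_piFinset.2 fun i => Finset.mem_Icc.2 (hf i)⟩
  obtain ⟨c, hc⟩ := box_bound (B.image ζ)
  refine ⟨c + 1, ∏ x ∈ B ×ˢ B, M (x.1 - x.2), Finset.prod_pos fun x _ => hM _, ?_⟩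
  intro t d ht hd hV
  have hd' : (0 : ℤ) < d := by exact_mod_cast hd
  obtain ⟨Rel, hRel⟩ : ∃ Rel : (Fin k → ℤ) × (Fin k → ℤ) → (Fin k → ℤ) × (Fin k → ℤ) → Prop,
      ∀ x y, Rel x y ↔ ∃ f ∈ B, ∃ Y, x.1 = L y.1 + ρ f ∧ (∀ i, y.2 i = (ρ f i + x.2 i) % d) ∧
        ∀ i, x.2 i = L Y i % d := ⟨_, fun _ _ => Iff.rfl⟩
  have huniq : ∀ x x' y, Rel x y → Rel x' y → x = x' := by
    intro x x' y h h'
    obtain ⟨f, hf, Y, a1, a2, a3⟩ := (hRel _ _).1 h
    obtain ⟨f', hf', Y', b1, b2, b3⟩ := (hRel _ _).1 h'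
    have hMd : (M (f - f') : ℤ) ∣ d := by
      have : M (f - f') ∣ ∏ x ∈ B ×ˢ B, M (x.1 - x.2) :=
        Finset.dvd_prod_of_mem (fun x : (Fin k → ℤ) × (Fin k → ℤ) => M (x.1 - x.2))
          (a := (f, f')) (Finset.mem_product.2 ⟨hf, hf'⟩)
      exact_mod_cast this.trans hV
    have hmod : ∀ i, (d : ℤ) ∣ (f - f') i - L (ζ f - ζ f' + Y' - Y) i := by
      intro i
      have e1 : (ρ f i + x.2 i) % d = (ρ f' i + x'.2 i) % d := (a2 i).symm.trans (b2 i)
      rw [a3, b3, Int.add_emod_emod, Int.add_emod_emod] at e1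
      have e3 : (d : ℤ) ∣ (ρ f i + L Y i) - (ρ f' i + L Y' i) := Int.ModEq.dvd e1.symm
      have g1 := congrFun (hρ f) i
      have g2 := congrFun (hρ f') i
      simp only [Pi.add_apply] at g1 g2
      have : (f - f') i - L (ζ f - ζ f' + Y' - Y) i = (ρ f i + L Y i) - (ρ f' i + L Y' i) := by
        simp only [map_sub, map_add, Pi.sub_apply, Pi.add_apply]
        linarith
      rw [this]; exact e3
    have hw : ∀ i, ∃ w, (f - f') i - L (ζ f - ζ f' + Y' - Y) i = (M (f - f') : ℤ) * w :=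
      fun i => hMd.trans (hmod i)
    choose w hw using hw
    obtain ⟨z', hz'⟩ := hM' (f - f') (ζ f - ζ f' + Y' - Y) w (by
      funext i
      have := hw i
      simp only [Pi.add_apply, Pi.smul_apply, smul_eq_mul]
      linarith)
    have e := hρ' f f' z' hz'
    refine Prod.ext (by rw [a1, b1, e]) (funext fun i => ?_)
    have e1 : (ρ f i + x.2 i) % d = (ρ f i + x'.2 i) % d := by
      rw [← a2 i, b2 i, e]
    have e2 : x.2 i % d = x'.2 i % d := Int.ModEq.add_left_cancel' (ρ f i) e1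
    rw [a3, b3, Int.emod_emod_of_dvd _ dvd_rfl, Int.emod_emod_of_dvd _ dvd_rfl] at e2
    rw [a3, b3, e2]
  obtain ⟨T, hT⟩ : ∃ T : Finset ((Fin k → ℤ) × (Fin k → ℤ)), T =
      (Fintype.piFinset fun _ : Fin k => Finset.Icc (-1 - c : ℤ) (t + 1 + c)) ×ˢ
        (Fintype.piFinset fun _ : Fin k => Finset.Ico (0 : ℤ) d) := ⟨_, rfl⟩
  refine ⟨T.image fun y => Classical.epsilon fun x => Rel x y, ?_, ?_⟩
  · rintro x ⟨U, Y, hU, hY, hx⟩
    have hU' : (0 : ℤ) < U := by exact_mod_cast hU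
    obtain ⟨D, hD⟩ : ∃ D : ℤ, D = ((d * U : ℕ) : ℤ) := ⟨_, rfl⟩
    rw [← hD] at hY
    have hD' : D = d * U := by rw [hD]; push_cast; ring
    have hD0 : 0 < D := by rw [hD']; positivity
    obtain ⟨f, hf⟩ : ∃ f : Fin k → ℤ, f = fun i => L (fun j => Y j % D) i / D := ⟨_, rfl⟩
    have hfB : f ∈ B := by
      apply hB
      intro i
      rw [hf]
      apply div_bound _ _ _ hD0
      rw [hL, Finset.sum_mul]
      refine (Finset.abs_sum_le_sum_abs _ _).trans (Finset.sum_le_sum fun j _ => ?_)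
      rw [abs_mul]
      refine mul_le_mul_of_nonneg_left ?_ (abs_nonneg _)
      rw [abs_of_nonneg (Int.emod_nonneg _ hD0.ne')]
      exact (Int.emod_lt_of_pos _ hD0).le
    have hrel : Rel x ((fun j => Y j / D) + ζ f, fun i => (ρ f i + x.2 i) % d) := by
      refine (hRel _ _).2 ⟨f, hfB, Y, ?_, fun _ => rfl, fun i => by rw [hx, hL]⟩
      funext i
      have g1 := congrFun (hρ f) i
      simp only [Pi.add_apply] at g1
      have g2 : L Y i = L (fun j => Y j % D) i + D * L (fun j => Y j / D) i := by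
        simp only [hL, Finset.mul_sum, ← Finset.sum_add_distrib]
        refine Finset.sum_congr rfl fun j _ => ?_
        have := Int.emod_add_mul_ediv (Y j) D
        linear_combination (-A i j) * this
      have g3 : x.1 i = L Y i / D := by
        rw [hx, hL, hD']
        exact Int.ediv_ediv_of_nonneg hd'.le
      have g4 : f i = L (fun j => Y j % D) i / D := by rw [hf]
      rw [g3, g2, Int.add_mul_ediv_left _ _ hD0.ne']
      simp only [map_add, Pi.add_apply]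
      linarith
    have hmem : ((fun j => Y j / D) + ζ f, fun i => (ρ f i + x.2 i) % d) ∈ T := by
      rw [hT]
      refine Finset.mem_product.2 ⟨Fintype.mem_piFinset.2 fun j => ?_,
        Fintype.mem_piFinset.2 fun j => ?_⟩
      · obtain ⟨c1, c2⟩ := abs_le.1 (hc _ (Finset.mem_image_of_mem ζ hfB) j)
        have y1 : -1 ≤ Y j / D := (Int.le_ediv_iff_mul_le hD0).2 (by linarith [(hY j).1])
        have y2 : Y j / D ≤ t + 1 := Int.ediv_le_of_le_mul hD0 (hY j).2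
        simp only [Finset.mem_Icc, Pi.add_apply]
        constructor <;> linarith
      · exact Finset.mem_Ico.2 ⟨Int.emod_nonneg _ hd'.ne', Int.emod_lt_of_pos _ hd'⟩
    refine Finset.mem_coe.2 (Finset.mem_image.2 ⟨_, hmem, ?_⟩)
    exact huniq _ _ _ (Classical.epsilon_spec (p := fun x' => Rel x' _) ⟨x, hrel⟩) hrel
  · refine Finset.card_image_le.trans ?_
    rw [hT, Finset.card_product, Fintype.card_piFinset, Fintype.card_piFinset]
    simp only [Finset.prod_const, Finset.card_univ, Fintype.card_fin, Int.card_Icc, Int.card_Ico]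
    rw [← mul_pow]
    refine Nat.pow_le_pow_left (Nat.mul_le_mul ?_ ?_) k
    · omega
    · omega

end Pool.Agent.MP_47ff19_lc.H50K
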