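import Pool.Agent.MP_47ff19_lc.H50K.DefsK
import Pool.Agent.MP_47ff19_lc.H6P.Interp

namespace Pool.Agent.MP_47ff19_lc.H50K

open Relation
open Pool.Agent.MP_47ff19_lc.H6P (Sym tape mv Op un tape_un A2 Table BHalts CM CHalts CStep val)

open H6P.Itp in
theorem ones_res {m : ℕ} (hm : Odd m) (e : ℕ) : ∀ r : ZMod m, ∃ r' : ZMod m, ∀ x : ℕ,
    (x : ZMod m) = r' → (ones e x : ZMod m) = r := by
  obtain ⟨h, hh⟩ : ∃ h : ZMod m, 2 * h = 1 := by
    obtain ⟨a, ha⟩ := hm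
    refine ⟨a + 1, ?_⟩
    have := ZMod.natCast_self m
    rw [congrArg (Nat.cast : ℕ → ZMod m) ha] at this
    push_cast at this
    linear_combination this
  induction e with
  | zero =>
    refine fun r => ⟨h * r, fun x hx => ?_⟩
    rw [ones, Nat.cast_mul, hx]
    push_cast
    linear_combination r * hh
  | succ e ih =>
    intro r
    obtain ⟨r', hr⟩ := ih (h * (r - 1))
    refine ⟨r', fun x hx => ?_⟩
    rw [ones, Nat.cast_add, Nat.cast_mul, hr x hx]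
    push_cast
    linear_combination (r - 1) * hh

open H6P.Itp in
theorem code_res {m : ℕ} (hm : Odd m) (B n : ℕ) : ∀ (f : ℕ → ℕ) (r : ZMod m), ∃ V : ℕ → ℕ,
    B ≤ V 0 ∧ (V 0 : ZMod m) = r ∧ (∀ i, i ≤ n → V i ≤ V 0) ∧
      ∀ i, i < n → V i = ones (f i) (V (i + 1)) := by
  have : NeZero m := ⟨hm.pos.ne'⟩
  induction n with
  | zero =>
    intro f r
    exact ⟨fun _ => r.val + B * m, le_add_left (Nat.le_mul_of_pos_right _ hm.pos), by simp,
      fun _ _ => le_rfl, fun i h => absurd h (by omega)⟩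
  | succ n ih =>
    intro f r
    obtain ⟨r', hr⟩ := ones_res hm (f 0) r
    obtain ⟨V, h1, h0, h2, h3⟩ := ih (fun i => f (i + 1)) r'
    refine ⟨fun i => Nat.casesOn i (ones (f 0) (V 0)) V, h1.trans (le_ones _ _), hr _ h0, ?_, ?_⟩
    · rintro (_ | i) h
      · exact le_rfl
      · exact (h2 i (by omega)).trans (le_ones _ _)
    · rintro (_ | i) h
      · rfl
      · exact h3 i (by omega)

open H6P.Itp in
theorem code_dvd {k : ℕ} (hk : 0 < k) (B : ℕ) {n : ℕ} (hn : k ≤ n) {f : ℕ → ℕ}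
    (hf : ∀ i, i < k → f i = 0) : ∃ V : ℕ → ℕ, B ≤ V 0 ∧ k ∣ V 0 ∧ (∀ i, i ≤ n → V i ≤ V 0) ∧
      ∀ i, i < n → V i = ones (f i) (V (i + 1)) := by
  obtain ⟨a, m, hm, e⟩ := Nat.exists_eq_two_pow_mul_odd hk.ne'
  obtain ⟨V, h1, h0, h2, h3⟩ := code_res hm B n f 0
  have h4 : ∀ j, j ≤ k → V 0 = 2 ^ j * V j := fun j hj => by
    induction j with
    | zero => simp
    | succ j ih => rw [ih (by omega), h3 j (by omega), hf j (by omega), ones, pow_succ, mul_assoc]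
  have h5 : a ≤ k := e ▸ Nat.lt_two_pow_self.le.trans (Nat.le_mul_of_pos_right _ hm.pos)
  refine ⟨V, h1, ?_, h2, h3⟩
  rw [e]
  exact Nat.Coprime.mul_dvd_of_dvd_of_dvd (Nat.Coprime.pow_left a hm.coprime_two_left)
    ⟨_, h4 a h5⟩ ((ZMod.natCast_eq_zero_iff _ _).1 h0)

open H6P H6P.Itp H6P.Itp.Ph H6P.Itp.Cx in
/-- ROW INK: `H6P.interp` with `k ∣ S` (skip `k` empty records first, choose the padding). -/
theorem interp (k : ℕ) (hk : 0 < k) (K G : Type) [Finite K] [Finite G] (k0 : K) (z : G) :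
    ∃ (Q Γ : Type) (_ : Finite Q) (_ : Finite Γ) (P : A2 Q Γ),
      ∀ (T : Table K G) (smax B : ℕ), ∃ S : ℕ, B ≤ S ∧ k ∣ S ∧ ∀ (o : ℕ) (b : Bool),
        BHalts T smax ((2 * o + 1) * 2 ^ S) (k0, List.replicate S (some z), 0) b →
          P.Halts ((2 * o + 1) * 2 ^ S) b := by
  have : Nonempty K := ⟨k0⟩
  have := fin_Out (K := K) (G := G)
  obtain ⟨M, ix, ixi, hix, hxk⟩ : ∃ (M : ℕ) (ix : Inp K G → ℕ) (ixi : ℕ → Inp K G),
      (∀ a, ix a < M ∧ ixi (ix a) = a) ∧ ∀ a, k ≤ ix a := by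
    obtain ⟨M, ix, ixi, hix⟩ := ex_inj (Inp K G)
    exact ⟨M + k, fun a => ix a + k, fun j => ixi (j - k), fun a => ⟨Nat.add_lt_add_right (hix a).1 k,
      by simpa using (hix a).2⟩, fun a => Nat.le_add_left _ _⟩
  obtain ⟨M', enc, dc, henc⟩ := ex_inj (Act K G ⊕ Bool)
  obtain ⟨p, hp⟩ : ∃ p : Par K G, p = ⟨k0, z, M, 2 * M + M', ix, dc⟩ := ⟨_, rfl⟩
  have p1 : p.M = M := by rw [hp]
  have p2 : p.W = 2 * M + M' := by rw [hp]
  have p3 : p.ix = ix := by rw [hp]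
  have p4 : p.dc = dc := by rw [hp]
  have p5 : p.k0 = k0 := by rw [hp]
  have p6 : p.z = z := by rw [hp]
  refine ⟨St p, Gm G, fin_St p, inferInstance, mach p, fun T smax B => ?_⟩
  obtain ⟨f, hf0, hf⟩ : ∃ f : ℕ → ℕ, (∀ i, i < k → f i = 0) ∧ ∀ (σ : ℕ) (κ : Inp K G),
      f (2 * M * σ + 2 * ix κ) = enc (oPart (T κ.1 σ κ.2.1 κ.2.2.1 κ.2.2.2)) ∧
      f (2 * M * σ + 2 * ix κ + 1) = sPart (T κ.1 σ κ.2.1 κ.2.2.1 κ.2.2.2) := by
    refine ⟨fun i => if i / 2 % M < k then 0 else (fun o => if i % 2 = 0 then enc (oPart o) else sPart o)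
      ((fun κ : Inp K G => T κ.1 (i / 2 / M) κ.2.1 κ.2.2.1 κ.2.2.2) (ixi (i / 2 % M))),
      fun i hi => if_pos (by have := Nat.mod_le (i / 2) M; omega), fun σ κ => ?_⟩
    obtain ⟨a1, a2⟩ := hix κ
    have b7 : ¬ ix κ < k := not_lt.2 (hxk κ)
    have b0 : 2 * M * σ = 2 * (M * σ) := by ring
    have b1 : (2 * M * σ + 2 * ix κ) / 2 = M * σ + ix κ := by omega
    have b2 : (2 * M * σ + 2 * ix κ + 1) / 2 = M * σ + ix κ := by omega
    have b3 : (2 * M * σ + 2 * ix κ) % 2 = 0 := by omega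
    have b4 : ¬ (2 * M * σ + 2 * ix κ + 1) % 2 = 0 := by omega
    have b5 : (M * σ + ix κ) / M = σ := by
      rw [Nat.mul_add_div (by omega), Nat.div_eq_of_lt a1, add_zero]
    have b6 : (M * σ + ix κ) % M = ix κ := by rw [Nat.mul_add_mod, Nat.mod_eq_of_lt a1]
    simp only [b1, b2, b3, b4, b5, b6, b7, a2, if_true, if_false, and_self]
  have hkM : k ≤ 2 * M * (smax + 1) := by
    have a1 := (hix (k0, true, true, none)).1
    have a2 := hxk (k0, true, true, none)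
    exact le_trans (by omega) (Nat.le_mul_of_pos_right _ smax.succ_pos)
  obtain ⟨V, v1, v3, v2, hV⟩ := code_dvd hk B hkM hf0
  clear hkM hf0 hxk
  refine ⟨V 0, v1, v3, fun k b hb => ?_⟩
  generalize hN : (2 * k + 1) * 2 ^ V 0 = N at hb ⊢
  have hS : V 0 ≤ N := by
    rw [← hN]
    exact le_trans Nat.lt_two_pow_self.le (Nat.le_mul_of_pos_left _ (by omega))
  have hbd : ∀ i, i ≤ 2 * M * (smax + 1) → V i ≤ N := fun i hi => (v2 i hi).trans hS
  have look : ∀ (μ : K) (σ R : ℕ) (r : List (Option G)), r.head? ≠ some none → σ < smax →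
      (2 * R + 1) * 2 ^ σ ≤ N → ∃ (l : List Bool) (x : ℕ), back l 0 = R ∧
        ones (sPart (T.at μ σ r R)) x ≤ N ∧
        Rch p N ((a1, pk μ none), (List.replicate σ none ++ r).map Sum.inl, R)
          ((e7, dec (oPart (T.at μ σ r R))), l.map tmp ++ r.map Sum.inl,
            ones (sPart (T.at μ σ r R)) x) := fun μ σ R r hr hσ h => by
    obtain ⟨l, hl, l0, r1⟩ := front (p := p) μ σ R r hr h
    obtain ⟨d, l, rfl⟩ := List.exists_cons_of_ne_nil l0
    obtain ⟨κ, hκ⟩ : ∃ κ : Inp K G, κ = (μ, decide (R % 2 = 1), decide (R / 2 = 0), r.head?.join) :=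
      ⟨_, rfl⟩
    have e0 : T κ.1 σ κ.2.1 κ.2.2.1 κ.2.2.2 = T.at μ σ r R := by rw [hκ]; rfl
    obtain ⟨f1, f2⟩ := hf σ κ
    rw [e0] at f1 f2
    rw [← hκ] at r1
    have a1 := (hix κ).1
    have m1 : 2 * M * (σ + 1) ≤ 2 * M * (smax + 1) := Nat.mul_le_mul_left _ (by omega)
    have r2 := lookup (p := p) hV hbd (by omega) κ (by rw [p1, p3]; exact a1)
      ((d :: l).map tmp ++ r.map Sum.inl) rfl rfl k σ (by rw [p1]; exact m1)
      (by rw [p1, p2, p3, f1]; have := (henc (oPart (T.at μ σ r R))).1; omega) hN.symm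
    rw [p1, p3, p4, f1, (henc _).2] at r2
    rw [mul_add, mul_one] at m1
    have b1 := hbd (2 * M * σ + 2 * ix κ + 1) (by omega)
    rw [hV (2 * M * σ + 2 * ix κ + 1) (by omega), f2] at b1 r2
    refine ⟨d :: l, _, hl, b1, ?_⟩
    rw [List.map_append, List.map_replicate]
    exact r1.trans r2
  have sim : ∀ c c' : K × List (Option G) × ℕ, ReflTransGen (BStep T smax N) c c' →
      Rch p N ((a1, pk c.1 none), c.2.1.map Sum.inl, c.2.2)
        ((a1, pk c'.1 none), c'.2.1.map Sum.inl, c'.2.2) := fun c c' h => by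
    induction h with
    | refl => exact ReflTransGen.refl
    | tail _ h ih =>
      obtain ⟨σ, r, μ', σ', mo, ro, h1, h2, h3, h4, h5, h6, rfl⟩ := h
      obtain ⟨l, x, hl, b1, r1⟩ := look _ σ _ r h2 h3 h4
      rw [h6] at b1 r1
      rw [← h1] at r1
      have r2 := carryBack (p := p) (N := N) (μ', mo, ro) σ' (r.map Sum.inl) l 0 (by rw [hl]; exact h5)
      rw [hl] at r2
      exact ih.trans (r1.trans (stp rfl rfl b1 ((readS _ _ _ _ b1).trans
        (r2.trans (finish μ' mo ro σ' _ r h2 h5)))))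
  obtain ⟨μ, σ, r, R, h1, h2, h3, h4, h5⟩ := hb
  obtain ⟨l, x, -, -, r1⟩ := look μ σ R r h2 h3 h4
  rw [h5] at r1
  have r0 := extract (p := p) (N := N) ini (R := k) (V 0) [] hN.le
  rw [hN] at r0
  have r2 := sim _ _ h1
  refine ⟨_, stp (R' := N) rfl rfl le_rfl (r0.trans (stp (R' := 0) rfl rfl (Nat.zero_le _)
    (ReflTransGen.trans ?_ r1))), rfl⟩
  simpa [sym, p5, p6] using r2

end Pool.Agent.MP_47ff19_lc.H50K
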