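import Pool.Agent.MP_47ff19_lc.H50K.DefsK

namespace Pool.Agent.MP_47ff19_lc.H50K

open Relation
open Pool.Agent.MP_47ff19_lc.H6P (Sym tape mv Op un tape_un A2 Table BHalts CM CHalts CStep val)

section TransAux

theorem trk_len {Sg β : Type} (d : Sg → β → Sg × β) (J : List β) :
    ∀ s, (passK d s J).2.length = J.length := by
  induction J with
  | nil => intro s; simp [passK]
  | cons b l ih => intro s; simp [passK, ih]

theorem trk_val_lt (J : List Bool) : val J < 2 ^ J.length := by
  induction J with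
  | nil => simp [val]
  | cons b l ih =>
    simp only [val, List.length_cons, pow_succ]
    cases b <;> simp <;> omega

theorem trk_val_snoc (l : List Bool) (b : Bool) :
    val (l ++ [b]) = val l + b.toNat * 2 ^ l.length := by
  induction l with
  | nil => simp [val]
  | cons a l ih =>
    simp only [List.cons_append, val, ih, List.length_cons, pow_succ]
    ring

/-- restriction of a transducer to a closed set of states -/
def trkRd {S β : Type} (P : S → Prop) (d : S → β → S × β)
    (h : ∀ s b, P s → P (d s b).1) (s : {s // P s}) (b : β) : {s // P s} × β :=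
  (⟨(d s.1 b).1, h _ _ s.2⟩, (d s.1 b).2)

theorem trkRd_pass {S β : Type} (P : S → Prop) (d : S → β → S × β)
    (h : ∀ s b, P s → P (d s b).1) (J : List β) :
    ∀ s : {s // P s}, (passK (trkRd P d h) s J).1.1 = (passK d s.1 J).1 ∧
      (passK (trkRd P d h) s J).2 = (passK d s.1 J).2 := by
  induction J with
  | nil => intro s; simp [passK]
  | cons b l ih =>
    intro s
    have := ih (trkRd P d h s b).1
    simp only [passK]
    exact ⟨this.1, by rw [this.2]; rfl⟩

/-- a set of states closed under all the maps of a machine -/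
structure TrkClosed {k : ℕ} {F1 F2 S : Type} (C : CK k F1 F2 S) (P : S → Prop) : Prop where
  hi : ∀ f, P (C.init f)
  hL : ∀ s b, P s → P (C.dL s b).1
  hR : ∀ s b, P s → P (C.dR s b).1
  hm : ∀ s, P s → P (C.mid s)
  hf : ∀ s s', P s → C.fin s = Sum.inl s' → P s'

def trkFin {k : ℕ} {F1 F2 S : Type} (C : CK k F1 F2 S) (P : S → Prop) (h : TrkClosed C P)
    (s : {s // P s}) : {s // P s} ⊕ F2 :=
  match hs : C.fin s.1 with
  | Sum.inl s' => Sum.inl ⟨s', h.hf _ _ s.2 hs⟩
  | Sum.inr f => Sum.inr f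

theorem trkFin_inl {k : ℕ} {F1 F2 S : Type} (C : CK k F1 F2 S) (P : S → Prop) (h : TrkClosed C P)
    (s : {s // P s}) (s' : S) (hs : C.fin s.1 = Sum.inl s') :
    ∃ h' : P s', trkFin C P h s = Sum.inl ⟨s', h'⟩ := by
  refine ⟨h.hf _ _ s.2 hs, ?_⟩
  unfold trkFin
  split
  · next t ht =>
    have : t = s' := Sum.inl.inj (ht.symm.trans hs)
    subst this
    rfl
  · next t ht => exact absurd (ht.symm.trans hs) (by simp)

theorem trkFin_inr {k : ℕ} {F1 F2 S : Type} (C : CK k F1 F2 S) (P : S → Prop) (h : TrkClosed C P)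
    (s : {s // P s}) (f : F2) (hs : C.fin s.1 = Sum.inr f) :
    trkFin C P h s = Sum.inr f := by
  unfold trkFin
  split
  · next t ht => exact absurd (ht.symm.trans hs) (by simp)
  · next t ht =>
    have : t = f := Sum.inr.inj (ht.symm.trans hs)
    subst this
    rfl

def trkRestr {k : ℕ} {F1 F2 S : Type} (C : CK k F1 F2 S) (P : S → Prop) (h : TrkClosed C P) :
    CK k F1 F2 {s // P s} where
  init f := ⟨C.init f, h.hi f⟩
  dL := trkRd P C.dL h.hL
  dR := trkRd P C.dR h.hR
  mid s := ⟨C.mid s.1, h.hm _ s.2⟩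
  fin := trkFin C P h

theorem trkRestr_round {k : ℕ} {F1 F2 S : Type} (C : CK k F1 F2 S) (P : S → Prop) (h : TrkClosed C P)
    (s : {s // P s}) (J : List (Fin k → Bool)) :
    ∃ t : {s // P s}, ((trkRestr C P h).round s J).1 = trkFin C P h t ∧
      (C.round s.1 J).1 = C.fin t.1 ∧ ((trkRestr C P h).round s J).2 = (C.round s.1 J).2 := by
  have h1 := trkRd_pass P C.dL h.hL J s
  have h2 := trkRd_pass P C.dR h.hR (passK (trkRd P C.dL h.hL) s J).2.reverse
    ⟨C.mid (passK (trkRd P C.dL h.hL) s J).1.1, h.hm _ (passK (trkRd P C.dL h.hL) s J).1.2⟩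
  refine ⟨_, rfl, ?_, ?_⟩
  · show C.fin _ = C.fin _
    congr 1
    rw [← h1.1, ← h1.2]
    exact h2.1.symm
  · show List.reverse _ = List.reverse _
    congr 1
    rw [← h1.1, ← h1.2]
    exact h2.2

theorem trkRestr_rounds {k : ℕ} {F1 F2 S : Type} (C : CK k F1 F2 S) (P : S → Prop) (h : TrkClosed C P)
    {s : S} {J : List (Fin k → Bool)} {f : F2} {J' : List (Fin k → Bool)} (hr : C.Rounds s J f J') :
    ∀ hs : P s, (trkRestr C P h).Rounds ⟨s, hs⟩ J f J' := by
  induction hr with
  | @done s J f J' e =>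
    intro hs
    obtain ⟨t, e1, e2, e3⟩ := trkRestr_round C P h ⟨s, hs⟩ J
    simp only [e] at e2 e3
    refine CK.Rounds.done (Prod.ext ?_ e3)
    rw [e1]
    exact trkFin_inr C P h t f e2.symm
  | @more s J s1 J1 f J' e _ ih =>
    intro hs
    obtain ⟨t, e1, e2, e3⟩ := trkRestr_round C P h ⟨s, hs⟩ J
    simp only [e] at e2 e3
    obtain ⟨h', e4⟩ := trkFin_inl C P h t s1 e2.symm
    exact CK.Rounds.more (s1 := ⟨s1, h'⟩) (J1 := J1) (Prod.ext (e1.trans e4) e3) (ih h')

/-- states: small field, phase, tests, two integer vectors -/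
abbrev TrkS (k p : ℕ) (F1 : Type) : Type :=
  F1 × Option Bool × (Fin p → ℤ) × (Fin k → ℤ) × (Fin k → ℤ)

variable {k p : ℕ} {F1 F2 : Type}

/-- the scalar product of a row with a block -/
def trkDot (a : Fin k → ℤ) (b : Fin k → Bool) : ℤ := ∑ j, a j * ((b j).toNat : ℤ)

theorem trkDot_abs (a : Fin k → ℤ) (b : Fin k → Bool) : |trkDot a b| ≤ ∑ j, |a j| := by
  refine (Finset.abs_sum_le_sum_abs _ _).trans (Finset.sum_le_sum fun j _ => ?_)
  cases b j <;> simp

theorem trk_valK_cons (b : Fin k → Bool) (l : List (Fin k → Bool)) (j : Fin k) :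
    valK (b :: l) j = 2 * valK l j + (b j).toNat := rfl

theorem trk_valK_snoc (b : Fin k → Bool) (l : List (Fin k → Bool)) (j : Fin k) :
    valK (l ++ [b]) j = valK l j + (b j).toNat * 2 ^ l.length := by
  simp only [valK, List.map_append, List.map_cons, List.map_nil, trk_val_snoc, List.length_map]

theorem trk_valK_lt (l : List (Fin k → Bool)) (j : Fin k) : valK l j < 2 ^ l.length := by
  have := trk_val_lt (l.map fun b => b j)
  rwa [List.length_map] at this

theorem trk_dot_cons (a : Fin k → ℤ) (b : Fin k → Bool) (l : List (Fin k → Bool)) :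
    ∑ j, a j * (valK (b :: l) j : ℤ) = 2 * ∑ j, a j * (valK l j : ℤ) + trkDot a b := by
  rw [trkDot, Finset.mul_sum, ← Finset.sum_add_distrib]
  refine Finset.sum_congr rfl fun j _ => ?_
  rw [trk_valK_cons]
  push_cast
  ring

theorem trk_dot_snoc (a : Fin k → ℤ) (b : Fin k → Bool) (l : List (Fin k → Bool)) :
    ∑ j, a j * (valK (l ++ [b]) j : ℤ) =
      ∑ j, a j * (valK l j : ℤ) + trkDot a b * 2 ^ l.length := by
  rw [trkDot, Finset.sum_mul, ← Finset.sum_add_distrib]
  refine Finset.sum_congr rfl fun j _ => ?_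
  rw [trk_valK_snoc]
  push_cast
  ring

theorem trk_clip_abs (C : ℕ) (y : ℤ) : |clip C y| ≤ C := by
  unfold clip
  rw [abs_le]
  omega

theorem trk_clip_clip (C : ℕ) (y s : ℤ) (hs : |s| ≤ C) :
    clip C (2 * clip C y + s) = clip C (2 * y + s) := by
  unfold clip
  rw [abs_le] at hs
  omega

def trkL (A : NM k p F1 F2) : TrkS k p F1 → (Fin k → Bool) → TrkS k p F1 × (Fin k → Bool)
  | (f, none, z, x, y), b => ((f, none, z, x, y), b)
  | (f, some false, z, x, y), b =>
      ((f, some false, z, fun i => (trkDot (A.mat f i) b + x i) / 2, y),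
        fun i => decide ((trkDot (A.mat f i) b + x i) % 2 = 1))
  | (f, some true, z, x, y), b => ((f, some true, z, x, y), b)

def trkR (A : NM k p F1 F2) : TrkS k p F1 → (Fin k → Bool) → TrkS k p F1 × (Fin k → Bool)
  | (f, none, z, x, y), b =>
      ((f, none, fun e => clip A.C (2 * z e + trkDot (A.tst f e).1 b), x, y), b)
  | (f, some false, z, x, y), b => ((f, some false, z, x, y), b)
  | (f, some true, z, x, y), b =>
      ((f, some true, z, x, fun i => if A.d f ≤ 2 * y i + (b i).toNat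
          then 2 * y i + (b i).toNat - A.d f else 2 * y i + (b i).toNat),
        fun i => decide (A.d f ≤ 2 * y i + (b i).toNat))

def trkM (A : NM k p F1 F2) : TrkS k p F1 → TrkS k p F1
  | (f, none, z, x, y) => (f, none, z, x, y)
  | (f, some false, z, x, _) =>
      (f, some true, z, fun i => (x i + A.b1 f i) / A.d f, fun i => (x i + A.b1 f i) % A.d f)
  | (f, some true, z, x, y) => (f, some true, z, x, y)

def trkF (A : NM k p F1 F2) : TrkS k p F1 → TrkS k p F1 ⊕ F2
  | (f, none, z, _, _) => Sum.inl (f, some false, z, A.b0 f, fun _ => 0)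
  | (f, some false, z, x, y) => Sum.inl (f, some false, z, x, y)
  | (f, some true, z, x, y) => Sum.inr (A.outp f z x y)

def trkC (A : NM k p F1 F2) : CK k F1 F2 (TrkS k p F1) where
  init f := (f, none, fun e => clip A.C (A.tst f e).2, fun _ => 0, fun _ => 0)
  dL := trkL A
  dR := trkR A
  mid := trkM A
  fin := trkF A

def trkP (A : NM k p F1 F2) : TrkS k p F1 → Prop
  | (_, none, z, x, y) => (∀ e, |z e| ≤ A.C) ∧ ∀ i, x i = 0 ∧ y i = 0
  | (f, some false, z, x, y) =>
      (∀ e, |z e| ≤ A.C) ∧ ∀ i, |x i| ≤ ∑ j, |A.mat f i j| + |A.b0 f i| ∧ y i = 0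
  | (f, some true, z, x, y) =>
      (∀ e, |z e| ≤ A.C) ∧ ∀ i, |x i| ≤ ∑ j, |A.mat f i j| + |A.b0 f i| + |A.b1 f i| ∧ 0 ≤ y i ∧
        y i < A.d f

theorem trk_closed (A : NM k p F1 F2) : TrkClosed (trkC A) (trkP A) where
  hi f := ⟨fun _ => trk_clip_abs _ _, fun _ => ⟨rfl, rfl⟩⟩
  hL := by
    rintro ⟨f, _ | _ | _, z, x, y⟩ b h
    · exact h
    · refine ⟨h.1, fun i => ⟨?_, (h.2 i).2⟩⟩
      have h1 := (h.2 i).1
      show |(trkDot (A.mat f i) b + x i) / 2| ≤ _
      have h2 := abs_nonneg (A.b0 f i)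
      have h3 := trkDot_abs (A.mat f i) b
      rw [abs_le] at h1 h3 ⊢
      omega
    · exact h
  hR := by
    rintro ⟨f, _ | _ | _, z, x, y⟩ b h
    · exact ⟨fun _ => trk_clip_abs _ _, h.2⟩
    · exact h
    · refine ⟨h.1, fun i => ?_⟩
      obtain ⟨h1, h2, h3⟩ := h.2 i
      have h4 : ((b i).toNat : ℤ) ≤ 1 := by cases b i <;> simp
      refine ⟨h1, ?_, ?_⟩ <;> dsimp only <;> split_ifs <;> omega
  hm := by
    rintro ⟨f, _ | _ | _, z, x, y⟩ h
    · exact h
    · have hp := A.pos f
      refine ⟨h.1, fun i => ⟨?_, Int.emod_nonneg _ hp.ne', Int.emod_lt_of_pos _ hp⟩⟩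
      have h1 := (h.2 i).1
      have h2 := Int.abs_ediv_le_abs (x i + A.b1 f i) (A.d f)
      have h3 := abs_add_le (x i) (A.b1 f i)
      show |(x i + A.b1 f i) / A.d f| ≤ _
      omega
    · exact h
  hf := by
    rintro ⟨f, _ | _ | _, z, x, y⟩ s' h e
    · obtain rfl := Sum.inl.inj e
      refine ⟨h.1, fun i => ⟨?_, rfl⟩⟩
      have : 0 ≤ ∑ j, |A.mat f i j| := Finset.sum_nonneg fun _ _ => abs_nonneg _
      omega
    · obtain rfl := Sum.inl.inj e
      exact h
    · exact absurd e (by simp [trkC, trkF])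

theorem trk_finite [Finite F1] (A : NM k p F1 F2) : Finite {s // trkP A s} := by
  let B : F1 → Fin k → ℤ := fun f i => ∑ j, |A.mat f i j| + |A.b0 f i| + |A.b1 f i| + A.d f
  have hfin : (⋃ f : F1, ({f} : Set F1) ×ˢ ((Set.univ : Set (Option Bool)) ×ˢ
      ({z : Fin p → ℤ | ∀ e, z e ∈ Set.Icc (-(A.C : ℤ)) A.C} ×ˢ
        ({x : Fin k → ℤ | ∀ i, x i ∈ Set.Icc (-B f i) (B f i)} ×ˢ
          {x : Fin k → ℤ | ∀ i, x i ∈ Set.Icc (-B f i) (B f i)})))).Finite :=
    Set.finite_iUnion fun f => (Set.finite_singleton f).prod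
      (Set.finite_univ.prod ((Set.Finite.pi' fun _ => Set.finite_Icc _ _).prod
        ((Set.Finite.pi' fun _ => Set.finite_Icc _ _).prod
          (Set.Finite.pi' fun _ => Set.finite_Icc _ _))))
  refine (hfin.subset ?_ : {s | trkP A s}.Finite).to_subtype
  rintro ⟨f, o, z, x, y⟩ h
  have key : (∀ e, |z e| ≤ A.C) ∧ ∀ i, (-B f i ≤ x i ∧ x i ≤ B f i) ∧ -B f i ≤ y i ∧ y i ≤ B f i := by
    have h0 := A.pos f
    have h1 : ∀ i, 0 ≤ ∑ j, |A.mat f i j| := fun i => Finset.sum_nonneg fun _ _ => abs_nonneg _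
    simp only [B]
    rcases o with _ | _ | _ <;> refine ⟨h.1, fun i => ?_⟩ <;> have h4 := h.2 i <;>
      have h5 := h1 i <;> have h2 := abs_nonneg (A.b0 f i) <;> have h3 := abs_nonneg (A.b1 f i)
    · omega
    · rw [abs_le] at h4
      omega
    · rw [abs_le] at h4
      omega
  exact Set.mem_iUnion.2 ⟨f, rfl, trivial, fun e => abs_le.1 (key.1 e), fun i => (key.2 i).1,
    fun i => (key.2 i).2⟩

theorem trk_id (A : NM k p F1 F2) (f : F1) (z : Fin p → ℤ) (x y : Fin k → ℤ)
    (J : List (Fin k → Bool)) : passK (trkL A) (f, none, z, x, y) J = ((f, none, z, x, y), J) := by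
  induction J with
  | nil => simp [passK]
  | cons b l ih => simp only [passK, trkL, ih]

theorem trk_test (A : NM k p F1 F2) (f : F1) (x y : Fin k → ℤ) (L : List (Fin k → Bool)) :
    ∀ Y : Fin p → ℤ, passK (trkR A) (f, none, fun e => clip A.C (Y e), x, y) L =
      ((f, none, fun e => clip A.C (∑ j, (A.tst f e).1 j * (valK L.reverse j : ℤ) +
        Y e * 2 ^ L.length), x, y), L) := by
  induction L with
  | nil => intro Y; simp [passK, valK, val]
  | cons b l ih =>
    intro Y
    have e0 : (fun e => clip A.C (2 * clip A.C (Y e) + trkDot (A.tst f e).1 b)) =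
        fun e => clip A.C (2 * Y e + trkDot (A.tst f e).1 b) :=
      funext fun e => trk_clip_clip _ _ _ ((trkDot_abs _ _).trans (A.hC f e))
    have e1 : (fun e => clip A.C (∑ j, (A.tst f e).1 j * (valK l.reverse j : ℤ) +
        (2 * Y e + trkDot (A.tst f e).1 b) * 2 ^ l.length)) =
        fun e => clip A.C (∑ j, (A.tst f e).1 j * (valK (b :: l).reverse j : ℤ) +
          Y e * 2 ^ (b :: l).length) := by
      funext e
      rw [List.reverse_cons, trk_dot_snoc, List.length_reverse, List.length_cons, pow_succ]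
      congr 1
      ring
    simp only [passK, trkR, e0, ih, e1]

theorem trk_mul (A : NM k p F1 F2) (f : F1) (z : Fin p → ℤ) (y : Fin k → ℤ)
    (J : List (Fin k → Bool)) : ∀ x : Fin k → ℤ, ∃ (c : Fin k → ℤ) (J1 : List (Fin k → Bool)),
      passK (trkL A) (f, some false, z, x, y) J = ((f, some false, z, c, y), J1) ∧
      ∀ i, ∑ j, A.mat f i j * (valK J j : ℤ) + x i = valK J1 i + c i * 2 ^ J.length := by
  induction J with
  | nil => intro x; exact ⟨x, [], rfl, by simp [valK, val]⟩
  | cons b l ih =>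
    intro x
    obtain ⟨c, J1, e1, e2⟩ := ih fun i => (trkDot (A.mat f i) b + x i) / 2
    refine ⟨c, (fun i => decide ((trkDot (A.mat f i) b + x i) % 2 = 1)) :: J1, ?_, fun i => ?_⟩
    · simp only [passK, trkL, e1]
    · have e3 : trkDot (A.mat f i) b + x i = 2 * ((trkDot (A.mat f i) b + x i) / 2) +
          ((decide ((trkDot (A.mat f i) b + x i) % 2 = 1)).toNat : ℤ) := by
        generalize trkDot (A.mat f i) b + x i = t
        by_cases ht : t % 2 = 1 <;> simp [ht] <;> omega
      rw [trk_dot_cons, trk_valK_cons, List.length_cons, pow_succ]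
      push_cast
      linear_combination 2 * e2 i + e3

theorem trk_div (A : NM k p F1 F2) (f : F1) (z : Fin p → ℤ) (x : Fin k → ℤ)
    (L : List (Fin k → Bool)) : ∀ y : Fin k → ℤ, (∀ i, 0 ≤ y i ∧ y i < A.d f) →
      ∃ (r : Fin k → ℤ) (L1 : List (Fin k → Bool)),
      passK (trkR A) (f, some true, z, x, y) L = ((f, some true, z, x, r), L1) ∧
      (∀ i, 0 ≤ r i ∧ r i < A.d f) ∧ L1.length = L.length ∧
      ∀ i, y i * 2 ^ L.length + valK L.reverse i = A.d f * valK L1.reverse i + r i := by
  induction L with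
  | nil => intro y h0; exact ⟨y, [], rfl, h0, rfl, by simp [valK, val]⟩
  | cons b l ih =>
    intro y h0
    obtain ⟨r, L1, e1, e2, e4, e5⟩ := ih (fun i => if A.d f ≤ 2 * y i + (b i).toNat
          then 2 * y i + (b i).toNat - A.d f else 2 * y i + (b i).toNat) fun i => by
      have h1 := h0 i
      have h4 : ((b i).toNat : ℤ) ≤ 1 := by cases b i <;> simp
      split_ifs <;> omega
    refine ⟨r, (fun i => decide (A.d f ≤ 2 * y i + (b i).toNat)) :: L1, ?_, e2, by simp [e4],
      fun i => ?_⟩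
    · simp only [passK, trkR, e1]
    · have e6 := e5 i
      simp only [List.reverse_cons, trk_valK_snoc, List.length_cons, pow_succ,
        List.length_reverse, e4]
      push_cast
      by_cases hd : A.d f ≤ 2 * y i + (b i).toNat
      · simp only [hd, if_true, decide_true, Bool.toNat_true] at e6 ⊢
        push_cast
        linear_combination e6
      · simp only [hd, if_false, decide_false, Bool.toNat_false] at e6 ⊢
        push_cast
        linear_combination e6

theorem trk_main (A : NM k p F1 F2) (f : F1) (J : List (Fin k → Bool)) :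
    ∃ J' : List (Fin k → Bool), (trkC A).Rounds ((trkC A).init f) J (A.f2 J.length f (valK J)) J' ∧
      J'.length = J.length ∧ valK J' = A.J2 J.length f (valK J) := by
  have r1 : (trkC A).round ((trkC A).init f) J =
      (Sum.inl (f, some false, A.y J.length f (valK J), A.b0 f, fun _ => 0), J) := by
    simp only [CK.round, trkC, trk_id, trkM, trk_test, trkF, List.reverse_reverse,
      List.length_reverse]
    rfl
  have hd := A.pos f
  obtain ⟨c, J1, e1, e2⟩ := trk_mul A f (A.y J.length f (valK J)) (fun _ => 0) J (A.b0 f)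
  have l1 : J1.length = J.length := by
    have := trk_len (trkL A) J (f, some false, A.y J.length f (valK J), A.b0 f, fun _ => 0)
    rwa [e1] at this
  obtain ⟨r, L1, e3, r0, l2, e4⟩ := trk_div A f (A.y J.length f (valK J))
    (fun i => (c i + A.b1 f i) / A.d f) J1.reverse (fun i => (c i + A.b1 f i) % A.d f)
    fun i => ⟨Int.emod_nonneg _ hd.ne', Int.emod_lt_of_pos _ hd⟩
  rw [List.length_reverse, l1] at l2
  rw [List.length_reverse, l1, List.reverse_reverse] at e4
  have r2 : (trkC A).round (f, some false, A.y J.length f (valK J), A.b0 f, fun _ => 0) J =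
      (Sum.inr (A.outp f (A.y J.length f (valK J)) (fun i => (c i + A.b1 f i) / A.d f) r),
        L1.reverse) := by
    simp only [CK.round, trkC, e1, trkM, e3, trkF]
  have hT : ∀ i, A.T J.length f (valK J) i = r i + A.d f *
      (valK L1.reverse i + 2 ^ J.length * ((c i + A.b1 f i) / A.d f)) := by
    intro i
    have e5 := Int.emod_add_mul_ediv (c i + A.b1 f i) (A.d f)
    unfold NM.T
    linear_combination e2 i + e4 i - 2 ^ J.length * e5
  have hq : ∀ i, A.T J.length f (valK J) i / A.d f =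
      valK L1.reverse i + 2 ^ J.length * ((c i + A.b1 f i) / A.d f) := fun i => by
    rw [hT, Int.add_mul_ediv_left _ _ hd.ne', Int.ediv_eq_zero_of_lt (r0 i).1 (r0 i).2, zero_add]
  have hr : ∀ i, A.T J.length f (valK J) i % A.d f = r i := fun i => by
    rw [hT, Int.add_mul_emod_self_left, Int.emod_eq_of_lt (r0 i).1 (r0 i).2]
  have hv0 : ∀ i, (0 : ℤ) ≤ valK L1.reverse i := fun i => Int.natCast_nonneg _
  have hv1 : ∀ i, (valK L1.reverse i : ℤ) < 2 ^ J.length := fun i => by
    have := trk_valK_lt L1.reverse i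
    rw [List.length_reverse, l2] at this
    exact_mod_cast this
  have h2 : (2 : ℤ) ^ J.length ≠ 0 := by positivity
  refine ⟨L1.reverse, CK.Rounds.more r1 (CK.Rounds.done ?_), by simp [l2], funext fun i => ?_⟩
  · rw [r2, NM.f2]
    congr 3
    · funext i
      rw [hq, Int.add_mul_ediv_left _ _ h2, Int.ediv_eq_zero_of_lt (hv0 i) (hv1 i), zero_add]
    · exact funext fun i => (hr i).symm
  · rw [NM.J2, hq, Int.add_mul_emod_self_left, Int.emod_eq_of_lt (hv0 i) (hv1 i),
      Int.toNat_natCast]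

end TransAux

/-- ROW TRK: round 1 (R pass, high to low: `z ↦ clip (2 z + α · bits)`), round 2 (multiply, divide). -/
theorem trans (k p : ℕ) (F1 F2 : Type) [Finite F1] (A : NM k p F1 F2) :
    ∃ (Sg : Type) (_ : Finite Sg) (C : CK k F1 F2 Sg), ∀ (f : F1) (J : List (Fin k → Bool)),
      ∃ J' : List (Fin k → Bool), C.Rounds (C.init f) J (A.f2 J.length f (valK J)) J' ∧
        J'.length = J.length ∧ valK J' = A.J2 J.length f (valK J) := by
  refine ⟨_, trk_finite A, trkRestr (trkC A) (trkP A) (trk_closed A), fun f J => ?_⟩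
  obtain ⟨J', h1, h2, h3⟩ := trk_main A f J
  exact ⟨J', trkRestr_rounds (trkC A) (trkP A) (trk_closed A) h1 _, h2, h3⟩

end Pool.Agent.MP_47ff19_lc.H50K
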