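import Pool.Agent.MP_47ff19_lc.H6P.Ctl
import Pool.Agent.MP_47ff19_lc.H50K.A2K
import Pool.Agent.MP_47ff19_lc.H50K.InterpK
import Pool.Agent.MP_47ff19_lc.H50K.Blk
import Pool.Agent.MP_47ff19_lc.H50K.TransK

namespace Pool.Agent.MP_47ff19_lc.H50K

open Relation
open Pool.Agent.MP_47ff19_lc.H6P (Sym tape mv Op un tape_un A2 Table BHalts CM CHalts CStep val)

theorem glk_bits (l w : ℕ) : ∃ L : List Bool, L.length = l ∧ (w < 2 ^ l → val L = w) := by
  induction l generalizing w with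
  | zero => exact ⟨[], rfl, fun h => by simp only [val]; omega⟩
  | succ l ih =>
    obtain ⟨L, h1, h2⟩ := ih (w / 2)
    refine ⟨decide (w % 2 = 1) :: L, by simp [h1], fun h => ?_⟩
    rw [pow_succ] at h
    rw [val, h2 (by omega)]
    by_cases h3 : w % 2 = 1
    · simp only [h3, decide_true, Bool.toNat_true]; omega
    · simp only [h3, decide_false, Bool.toNat_false]; omega

theorem glk_val_zero (n : ℕ) : val (List.replicate n false) = 0 := by
  induction n with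
  | zero => rfl
  | succ n ih => simp [List.replicate_succ, val, ih]

theorem glk_flat (k n : ℕ) :
    flat (List.replicate n fun _ : Fin k => false) = List.replicate (k * n) false := by
  simp [flat, mul_comm]

/-- ROW GLK: a fixed `k`-head 2DPDA runs every numeric machine that fits (`H6P.ctl` with `k n`, `k c0`, `N ^ k`). -/
theorem glue (k : ℕ) (hk : 0 < k) :
    ∃ (Q G : Type) (_ : Finite Q) (_ : Finite G) (D : MultiPDA k Unit Q G),
    ∀ (p : ℕ) (F1 F2 : Type) [Finite F1] [Finite F2] (A : NM k p F1 F2) (f0 : F1) (ν1 : ℕ),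
      Nat.card F1 ≤ 2 ^ ν1 → Nat.card F2 ≤ 2 ^ ν1 → ∃ lam0 : ℕ, ∀ lam, lam0 ≤ lam →
      ∀ (st2 : F2 → ℕ → (F1 × ℕ) ⊕ Bool),
        (∀ f w f' w', st2 f w = Sum.inl (f', w') → w' < 2 ^ lam) →
      ∀ c0 n0 : ℕ, ∃ n, n0 ≤ n ∧ ∀ (o : ℕ) (b : Bool),
        2 ^ (lam + ν1 + k * n + 3) ≤ ((2 * o + 1) * 2 ^ (n + c0)) ^ k →
        NHalts A st2 n (f0, 0, fun _ => 0) b → Answers D ((2 * o + 1) * 2 ^ (n + c0)) b := by
  obtain ⟨K, G, hK, hG, k0, z, hctl⟩ := H6P.ctl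
  obtain ⟨Q, Γ, hQ, hΓ, P, hint⟩ := interp k hk K G k0 z
  obtain ⟨Q', G', hQ', hG', D, hD⟩ := a2_compile k hk Q Γ P
  refine ⟨Q', G', hQ', hG', D, fun p F1 F2 _ _ A f0 ν1 h1 h2 => ?_⟩
  obtain ⟨Sg0, hSg0, C0, hC⟩ := trans k p F1 F2 A
  obtain ⟨Sg, hSg, C, hB⟩ := blk k hk F1 F2 Sg0 C0
  refine ⟨max (Nat.card Sg) (2 ^ (ν1 + 1)), fun lam hlam st2 hst c0 n0 => ?_⟩
  choose bits hb1 hb2 using glk_bits lam
  obtain ⟨st, hs1, hs2⟩ : ∃ st : F2 → List Bool → (F1 × List Bool) ⊕ Bool,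
      (∀ f w, st f w = Sum.map (fun x : F1 × ℕ => (x.1, bits x.2)) id (st2 f (val w))) ∧
      ∀ f w f' w', w.length = lam → st f w = Sum.inl (f', w') → w'.length = lam := by
    refine ⟨fun f w => Sum.map (fun x : F1 × ℕ => (x.1, bits x.2)) id (st2 f (val w)),
      fun _ _ => rfl, fun f w f' w' _ h => ?_⟩
    rcases e : st2 f (val w) with x | b
    · simp only [e, Sum.map_inl, Sum.inl.injEq, Prod.mk.injEq] at h
      rw [← h.2, hb1]
    · simp [e] at h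
  obtain ⟨T, smax, hT⟩ := hctl F1 F2 Sg C f0 ν1 lam (k * c0) st h1 h2
    (le_trans (le_max_left _ _) hlam) (le_trans (le_max_right _ _) hlam) hs2
  obtain ⟨S, hS, ⟨S', rfl⟩, hrun⟩ := hint T smax (k * (c0 + (n0 + 2 ^ (lam + ν1 + 1))))
  replace hS := Nat.le_of_mul_le_mul_left hS hk
  obtain ⟨n, rfl⟩ : ∃ n, S' = n + c0 :=
    ⟨S' - c0, (Nat.sub_add_cancel (le_trans (Nat.le_add_right _ _) hS)).symm⟩
  have hp : 0 < 2 ^ (lam + ν1 + 1) := by positivity
  have hn : n ≤ k * n := Nat.le_mul_of_pos_left _ hk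
  refine ⟨n, by omega, fun o b hcap hN => ?_⟩
  obtain ⟨o', ho⟩ : Odd ((2 * o + 1) ^ k) := Odd.pow ⟨o, rfl⟩
  have e : ((2 * o + 1) * 2 ^ (n + c0)) ^ k = (2 * o' + 1) * 2 ^ (k * (n + c0)) := by
    rw [mul_pow, ho, ← pow_mul, mul_comm (n + c0)]
  refine hD _ _ (le_trans (Nat.le_self_pow (by omega) 2) (Nat.le_mul_of_pos_left _ (by omega))) ?_
  rw [e] at hcap ⊢
  refine hrun o' b ?_
  have e' := hT (k * n) _ b (by omega) hcap (le_trans
    (Nat.pow_le_pow_right two_pos (by rw [mul_add]; omega)) (Nat.le_mul_of_pos_left _ (by omega)))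
  rw [← mul_add] at e'
  refine e' ?_
  obtain ⟨c, hc, hend⟩ := hN
  have key : ∃ (w : List Bool) (J : List (Fin k → Bool)), J.length = n ∧ val w = c.2.1 ∧
      valK J = c.2.2 ∧ ReflTransGen (CStep C st)
        (f0, List.replicate lam false, List.replicate (k * n) false) (c.1, w, flat J) := by
    clear hend
    induction hc with
    | refl =>
      refine ⟨_, List.replicate n fun _ => false, by simp, glk_val_zero lam, funext fun j => ?_,
        by rw [glk_flat]⟩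
      rw [valK, List.map_replicate, glk_val_zero]
    | @tail c1 c2 _ hstep ih =>
      obtain ⟨w, J, e1, e2, e3, hr⟩ := ih
      obtain ⟨J', r1, r2, r3⟩ := hC c1.1 J
      obtain ⟨s1, s2⟩ := hstep
      rw [e1, e3] at r1 r3
      refine ⟨bits c2.2.1, J', r2.trans e1, hb2 _ (hst _ _ _ _ s1), r3.trans s2.symm,
        hr.tail ⟨_, hB _ _ _ _ r1, ?_⟩⟩
      rw [hs1]
      simp only [e2, s1, Sum.map_inl]
  obtain ⟨w, J, e1, e2, e3, hr⟩ := key
  obtain ⟨J', r1, -, -⟩ := hC c.1 J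
  rw [e1, e3] at r1
  refine ⟨_, _, flat J', hr, hB _ _ _ _ r1, ?_⟩
  rw [hs1]
  simp only [e2, hend, Sum.map_inr, id]

end Pool.Agent.MP_47ff19_lc.H50K
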