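import Pool.Agent.MP_47ff19_lc.H6P.Halt
import Pool.Agent.MP_47ff19_lc.H50K.DefsK

namespace Pool.Agent.MP_47ff19_lc.H50K

open Relation
open Pool.Agent.MP_47ff19_lc.H6P (Sym tape mv Op un tape_un hEff hCan h_lft h_rgt h_mv0 h_mv1 h_mv2
  h_le h_e1 h_e2 h_e3 HSt)

variable {h : ℕ}

open Classical in
/-- Sipser's backward depth-first search -/
noncomputable def hDfs {Q : Type} {n : ℕ} (M : MultiHead h Unit Q) (fin : Q)
    (e : (Q × (Fin h → SignType)) ≃ Fin n) : MultiHead h Unit (HSt Q n) where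
  start := Sum.inl (fin, 0)
  acc := fun _ => False
  δ := fun st s b =>
    match st with
    | Sum.inl (q, i) =>
      if hi : i = Fin.last n then
        if q = M.start ∧ ∀ a, s a = Sym.lft then (Sum.inr (Sum.inr true), fun _ => 0)
        else if q = fin then (Sum.inr (Sum.inr false), fun _ => 0)
        else (Sum.inl ((M.δ q s b).1,
          (e (q, fun a => hEff (s a) ((M.δ q s b).2 a))).succ), (M.δ q s b).2)
      else
        if ∀ a, hCan (s a) ((e.symm (i.castPred hi)).2 a) then
          (Sum.inr (Sum.inl (q, i.castPred hi)), fun a => -((e.symm (i.castPred hi)).2 a))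
        else (Sum.inl (q, (i.castPred hi).succ), fun _ => 0)
    | Sum.inr (Sum.inl (q, j)) =>
      if (e.symm j).1 ≠ fin ∧ (M.δ (e.symm j).1 s b).1 = q ∧
          (fun a => hEff (s a) ((M.δ (e.symm j).1 s b).2 a)) = (e.symm j).2 then
        (Sum.inl ((e.symm j).1, 0), fun _ => 0)
      else (Sum.inl (q, j.succ), (e.symm j).2)
    | Sum.inr (Sum.inr c) => (Sum.inr (Sum.inr c), fun _ => 0)

/-- what `M` does in the configuration `c` -/
def hIns {Q : Type} (M : MultiHead h Unit Q) (N : ℕ) (c : Q × (Fin h → ℕ)) :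
    Q × (Fin h → SignType) :=
  M.δ c.1 (fun i => tape (un N) (c.2 i)) (fun i j => decide (c.2 i = c.2 j))

theorem h_step {Q : Type} (M : MultiHead h Unit Q) (N : ℕ) (c : Q × (Fin h → ℕ)) :
    M.step (un N) c = ((hIns M N c).1, fun i => mv N (c.2 i) ((hIns M N c).2 i)) := by
  simp [MultiHead.step, hIns]

/-- `c'` is a child of `c` -/
def hR {Q : Type} (M : MultiHead h Unit Q) (fin : Q) (N : ℕ) (c' c : Q × (Fin h → ℕ)) : Prop :=
  (∀ a, c'.2 a ≤ N + 1) ∧ c'.1 ≠ fin ∧ M.step (un N) c' = c

noncomputable def hLab {Q : Type} (M : MultiHead h Unit Q) (N : ℕ) (c : Q × (Fin h → ℕ)) :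
    Q × (Fin h → SignType) :=
  (c.1, fun a => hEff (tape (un N) (c.2 a)) ((hIns M N c).2 a))

inductive hD {Q : Type} (M : MultiHead h Unit Q) (fin : Q) (N : ℕ) : ℕ → Q × (Fin h → ℕ) → Prop
  | root : hD M fin N 0 (fin, fun _ => 0)
  | down {k c' c} : hR M fin N c' c → hD M fin N k c → hD M fin N (k + 1) c'

theorem hD.rng {Q : Type} {M : MultiHead h Unit Q} {fin : Q} {N k : ℕ} {c : Q × (Fin h → ℕ)}
    (hd : hD M fin N k c) : ∀ a, c.2 a ≤ N + 1 := by
  cases hd with
  | root => simp
  | down h1 _ => exact h1.1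

theorem hD.uniq {Q : Type} {M : MultiHead h Unit Q} {fin : Q} {N k : ℕ} {c : Q × (Fin h → ℕ)}
    (hd : hD M fin N k c) : ∀ k', hD M fin N k' c → k' = k := by
  induction hd with
  | root =>
    intro k' h'
    generalize hc : ((fin, fun _ => 0) : Q × (Fin h → ℕ)) = c at h'
    cases h' with
    | root => rfl
    | down h1 _ => exact absurd (by rw [← hc]) h1.2.1
  | down h1 _ ih =>
    intro k' h'
    cases h' with
    | root => exact absurd rfl h1.2.1
    | down h2 h3 =>
      have e := h2.2.2.symm.trans h1.2.2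
      rw [e] at h3
      rw [ih _ h3]

theorem hD.toRoot {Q : Type} {M : MultiHead h Unit Q} {fin : Q} {N k : ℕ} {c : Q × (Fin h → ℕ)}
    (hd : hD M fin N k c) : ReflTransGen (hR M fin N) c (fin, fun _ => 0) := by
  induction hd with
  | root => exact ReflTransGen.refl
  | down h1 _ ih => exact ReflTransGen.head h1 ih

theorem hD_bound {Q : Type} [Finite Q] (M : MultiHead h Unit Q) (fin : Q) (N : ℕ) :
    ∃ B, ∀ k c, hD M fin N k c → k ≤ B := by
  classical
  have := Fintype.ofFinite Q
  let f : Q × (Fin h → ℕ) → ℕ := fun c => if hc : ∃ k, hD M fin N k c then hc.choose else 0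
  refine ⟨((Finset.univ : Finset Q) ×ˢ (Fintype.piFinset fun _ => Finset.range (N + 2))).sup f,
    fun k c hd => ?_⟩
  have h1 : ∃ k, hD M fin N k c := ⟨k, hd⟩
  have h2 : k = f c := by
    simp only [f, dif_pos h1]
    exact h1.choose_spec.uniq k hd
  rw [h2]
  apply Finset.le_sup
  simp only [Finset.mem_product, Finset.mem_univ, Fintype.mem_piFinset, Finset.mem_range, true_and]
  intro a
  have := hd.rng a
  omega

/-- reachability in the search machine -/
def hGo {Q : Type} (M : MultiHead h Unit Q) (N : ℕ) (a b : Q × (Fin h → ℕ)) : Prop :=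
  ∃ t, (M.step (un N))^[t] a = b

theorem hGo.refl {Q : Type} (M : MultiHead h Unit Q) (N : ℕ) (a : Q × (Fin h → ℕ)) :
    hGo M N a a := ⟨0, rfl⟩

theorem hGo.trans {Q : Type} {M : MultiHead h Unit Q} {N : ℕ} {a b c : Q × (Fin h → ℕ)}
    (h1 : hGo M N a b) (h' : hGo M N b c) : hGo M N a c := by
  obtain ⟨t, rfl⟩ := h1
  obtain ⟨s, rfl⟩ := h'
  exact ⟨s + t, Function.iterate_add_apply _ _ _ _⟩

theorem hGo.one {Q : Type} {M : MultiHead h Unit Q} {N : ℕ} {a : Q × (Fin h → ℕ)} {q : Q}
    {d : Fin h → SignType} (h1 : hIns M N a = (q, d)) :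
    hGo M N a (q, fun i => mv N (a.2 i) (d i)) :=
  ⟨1, by rw [Function.iterate_one, h_step, h1]⟩

section
variable {Q : Type} {n : ℕ} (M : MultiHead h Unit Q) (fin : Q)
  (e : (Q × (Fin h → SignType)) ≃ Fin n) (N : ℕ)

theorem h_yes : hGo (hDfs M fin e) N (Sum.inl (M.start, Fin.last n), fun _ => 0)
    (Sum.inr (Sum.inr true), fun _ => 0) := by
  have : hIns (hDfs M fin e) N (Sum.inl (M.start, Fin.last n), fun _ => 0) =
      (Sum.inr (Sum.inr true), fun _ => 0) := by
    simp [hIns, hDfs, h_lft]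
  exact hGo.one this

theorem h_no (h1 : fin ≠ M.start) :
    hGo (hDfs M fin e) N (Sum.inl (fin, Fin.last n), fun _ => 0)
      (Sum.inr (Sum.inr false), fun _ => 0) := by
  have : hIns (hDfs M fin e) N (Sum.inl (fin, Fin.last n), fun _ => 0) =
      (Sum.inr (Sum.inr false), fun _ => 0) := by
    simp [hIns, hDfs, h1]
  exact hGo.one this

theorem h_up (c : Q × (Fin h → ℕ)) (h1 : c ≠ (M.start, fun _ => 0)) (h2 : c.1 ≠ fin) :
    hGo (hDfs M fin e) N (Sum.inl (c.1, Fin.last n), c.2)
      (Sum.inl ((M.step (un N) c).1, (e (hLab M N c)).succ), (M.step (un N) c).2) := by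
  obtain ⟨q, x⟩ := c
  have h3 : ¬ (q = M.start ∧ ∀ a, tape (un N) (x a) = Sym.lft) := by
    simp only [h_lft]
    rintro ⟨rfl, k⟩
    exact h1 (Prod.ext rfl (funext k))
  have : hIns (hDfs M fin e) N (Sum.inl (q, Fin.last n), x) =
      (Sum.inl ((hIns M N (q, x)).1, (e (hLab M N (q, x))).succ), (hIns M N (q, x)).2) := by
    simp only [hIns, hDfs, hLab, dif_pos, if_neg h3, if_neg h2]
  rw [h_step]
  exact hGo.one this

theorem h_try (c : Q × (Fin h → ℕ)) (hx : ∀ a, c.2 a ≤ N + 1) (j : Fin n) :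
    (∃ c1, hR M fin N c1 c ∧ e (hLab M N c1) = j ∧ (∀ c2, hR M fin N c2 c →
        e (hLab M N c2) = j → c2 = c1) ∧
      hGo (hDfs M fin e) N (Sum.inl (c.1, j.castSucc), c.2) (Sum.inl (c1.1, 0), c1.2)) ∨
    ((∀ c1, hR M fin N c1 c → e (hLab M N c1) ≠ j) ∧
      hGo (hDfs M fin e) N (Sum.inl (c.1, j.castSucc), c.2) (Sum.inl (c.1, j.succ), c.2)) := by
  obtain ⟨q, x⟩ := c
  obtain ⟨⟨q', d⟩, rfl⟩ := e.surjective j
  have hne : (e (q', d)).castSucc ≠ Fin.last n := Fin.castSucc_ne_last _
  have child : ∀ c1, hR M fin N c1 (q, x) → e (hLab M N c1) = e (q', d) →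
      (∀ a, hCan (tape (un N) (x a)) (d a)) ∧ c1 = (q', fun a => mv N (x a) (-(d a))) := by
    rintro ⟨q1, x1⟩ ⟨a1, _, a4⟩ hl
    have hl := e.injective hl
    rw [h_step] at a4
    simp only [hLab, Prod.mk.injEq] at hl a4
    obtain ⟨rfl, rfl⟩ := hl
    obtain ⟨_, rfl⟩ := a4
    have b1 := fun a => h_e3 N (x1 a) ((hIns M N (q1, x1)).2 a) (a1 a)
    exact ⟨fun a => (b1 a).1, Prod.ext rfl (funext fun a => (b1 a).2.symm)⟩
  by_cases hc : ∀ a, hCan (tape (un N) (x a)) (d a)
  · have s1 : hIns (hDfs M fin e) N (Sum.inl (q, (e (q', d)).castSucc), x) =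
        (Sum.inr (Sum.inl (q, e (q', d))), fun a => -(d a)) := by
      simp only [hIns, hDfs, dif_neg hne]
      rw [if_pos (by simpa using hc)]
      simp
    have g1 := hGo.one s1
    have r1 := fun a => h_le N (x a) (-(d a)) (hx a)
    have u1 := fun a => h_e2 N (x a) (d a) (hx a) (hc a)
    by_cases hk : q' ≠ fin ∧ (hIns M N (q', fun a => mv N (x a) (-(d a)))).1 = q ∧
        (fun a => hEff (tape (un N) (mv N (x a) (-(d a))))
          ((hIns M N (q', fun a => mv N (x a) (-(d a)))).2 a)) = d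
    · left
      have s2 : hIns (hDfs M fin e) N
          (Sum.inr (Sum.inl (q, e (q', d))), fun a => mv N (x a) (-(d a))) =
          (Sum.inl (q', 0), fun _ => 0) := by
        simp only [hIns] at hk
        simp only [hIns, hDfs]
        rw [Equiv.symm_apply_apply, if_pos hk]
      refine ⟨(q', fun a => mv N (x a) (-(d a))), ⟨r1, hk.1, ?_⟩, ?_,
        fun c2 k1 k2 => (child c2 k1 k2).2, g1.trans (hGo.one s2)⟩
      · rw [h_step]
        refine Prod.ext hk.2.1 (funext fun a => ?_)
        have k3 := congrFun hk.2.2 a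
        simp only at k3 ⊢
        rw [← h_e1 N _ _ (r1 a), k3, u1]
      · simp only [hLab, hk.2.2]
    · right
      have s2 : hIns (hDfs M fin e) N
          (Sum.inr (Sum.inl (q, e (q', d))), fun a => mv N (x a) (-(d a))) =
          (Sum.inl (q, (e (q', d)).succ), d) := by
        simp only [hIns] at hk
        simp only [hIns, hDfs]
        rw [Equiv.symm_apply_apply, if_neg hk]
      refine ⟨fun c1 k1 k2 => hk ?_, ?_⟩
      · obtain ⟨_, rfl⟩ := child c1 k1 k2
        have k3 := e.injective k2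
        have k4 := k1.2.2
        rw [h_step] at k4
        simp only [hLab, Prod.mk.injEq] at k3 k4
        exact ⟨k1.2.1, k4.1, k3.2⟩
      · have g2 := hGo.one s2
        simp only [u1] at g2
        exact g1.trans g2
  · right
    have s1 : hIns (hDfs M fin e) N (Sum.inl (q, (e (q', d)).castSucc), x) =
        (Sum.inl (q, (e (q', d)).succ), fun _ => 0) := by
      simp only [hIns, hDfs, dif_neg hne]
      rw [if_neg (by simpa only [Fin.castPred_castSucc, Equiv.symm_apply_apply] using hc)]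
      simp
    exact ⟨fun c1 k1 k2 => hc (child c1 k1 k2).1, hGo.one s1⟩

theorem h_tree (B : ℕ) (hB : ∀ k c, hD M fin N k c → k ≤ B) :
    ∀ (m k : ℕ) (c : Q × (Fin h → ℕ)), B - k = m → hD M fin N k c →
      (hGo (hDfs M fin e) N (Sum.inl (c.1, 0), c.2) (Sum.inr (Sum.inr true), fun _ => 0) ∧
        ∃ k', hD M fin N k' (M.start, fun _ => 0)) ∨
      (hGo (hDfs M fin e) N (Sum.inl (c.1, 0), c.2) (Sum.inl (c.1, Fin.last n), c.2) ∧
        ∀ c1, hR M fin N c1 c → ¬ ReflTransGen (hR M fin N) (M.start, fun _ => 0) c1) := by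
  intro m
  induction m using Nat.strong_induction_on with
  | _ m ih =>
    intro k c hm hc
    have inner : ∀ i : Fin (n + 1),
        (hGo (hDfs M fin e) N (Sum.inl (c.1, 0), c.2) (Sum.inr (Sum.inr true), fun _ => 0) ∧
          ∃ k', hD M fin N k' (M.start, fun _ => 0)) ∨
        (hGo (hDfs M fin e) N (Sum.inl (c.1, 0), c.2) (Sum.inl (c.1, i), c.2) ∧
          ∀ c1, hR M fin N c1 c → (e (hLab M N c1)).val < i.val →
            ¬ ReflTransGen (hR M fin N) (M.start, fun _ => 0) c1) := by
      intro i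
      induction i using Fin.induction with
      | zero => exact Or.inr ⟨hGo.refl _ _ _, fun c1 _ h0 => absurd h0 (by simp)⟩
      | succ j ihj =>
        rcases ihj with h0 | ⟨g, hn⟩
        · exact Or.inl h0
        rcases h_try M fin e N c hc.rng j with ⟨c1, r1, l1, u1, g1⟩ | ⟨l1, g1⟩
        · have d1 := hD.down r1 hc
          have b1 := hB _ _ d1
          rcases ih (B - (k + 1)) (by omega) (k + 1) c1 rfl d1 with ⟨g2, h2⟩ | ⟨g2, h2⟩
          · exact Or.inl ⟨g.trans (g1.trans g2), h2⟩
          by_cases hs : c1 = (M.start, fun _ => 0)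
          · subst hs
            exact Or.inl ⟨g.trans (g1.trans (g2.trans (h_yes M fin e N))), _, d1⟩
          · have g3 := h_up M fin e N c1 hs r1.2.1
            rw [r1.2.2, l1] at g3
            refine Or.inr ⟨g.trans (g1.trans (g2.trans g3)), fun c2 r2 hl => ?_⟩
            by_cases hj : e (hLab M N c2) = j
            · rw [u1 c2 r2 hj]
              intro hh
              rcases hh.cases_tail with h3 | ⟨c3, h3, h4⟩
              · exact hs h3
              · exact h2 c3 h4 h3
            · refine hn c2 r2 ?_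
              have : (e (hLab M N c2)).val ≠ j.val := fun k => hj (Fin.ext k)
              simp only [Fin.val_succ, Fin.val_castSucc] at hl ⊢
              omega
        · refine Or.inr ⟨g.trans g1, fun c2 r2 hl => hn c2 r2 ?_⟩
          have : (e (hLab M N c2)).val ≠ j.val := fun k => l1 c2 r2 (Fin.ext k)
          simp only [Fin.val_succ, Fin.val_castSucc] at hl ⊢
          omega
    rcases inner (Fin.last n) with h0 | ⟨g, hn⟩
    · exact Or.inl h0
    · exact Or.inr ⟨g, fun c1 r1 => hn c1 r1 (by simp)⟩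

theorem h_search [Finite Q] : ∃ b : Bool,
    hGo (hDfs M fin e) N (Sum.inl (fin, 0), fun _ => 0) (Sum.inr (Sum.inr b), fun _ => 0) ∧
      (b = true ↔ ∃ k, hD M fin N k (M.start, fun _ => 0)) := by
  obtain ⟨B, hB⟩ := hD_bound M fin N
  rcases h_tree M fin e N B hB _ 0 (fin, fun _ => 0) rfl hD.root with ⟨g, h0⟩ | ⟨g, h0⟩
  · exact ⟨true, g, by simp only [true_iff]; exact h0⟩
  by_cases hs : fin = M.start
  · refine ⟨true, g.trans ?_, ?_⟩
    · have := h_yes M fin e N
      rw [← hs] at this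
      exact this
    · simp only [true_iff]
      exact ⟨0, by rw [← hs]; exact hD.root⟩
  · refine ⟨false, g.trans (h_no M fin e N hs), ?_⟩
    simp only [Bool.false_eq_true, false_iff]
    rintro ⟨k, hk⟩
    rcases hk.toRoot.cases_tail with h3 | ⟨c3, h3, h4⟩
    · exact hs (congrArg Prod.fst h3)
    · exact h0 c3 h4 h3

end

open Classical in
/-- after acceptance, sweep all heads to the left and enter the final state -/
noncomputable def hNorm {Q : Type} (M : MultiHead h Unit Q) : MultiHead h Unit (Q ⊕ Bool) where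
  start := Sum.inl M.start
  acc := fun _ => False
  δ := fun st s b =>
    match st with
    | Sum.inl q => if M.acc q then (Sum.inr false, fun _ => 0)
        else (Sum.inl (M.δ q s b).1, (M.δ q s b).2)
    | Sum.inr false => if ∀ a, s a = Sym.lft then (Sum.inr true, fun _ => 0)
        else (Sum.inr false, fun _ => -1)
    | Sum.inr true => (Sum.inr true, fun _ => 0)

theorem hn_acc {Q : Type} (M : MultiHead h Unit Q) (N : ℕ) (q : Q) (x : Fin h → ℕ)
    (ha : M.acc q) : (hNorm M).step (un N) (Sum.inl q, x) = (Sum.inr false, x) := by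
  rw [h_step]
  simp [hIns, hNorm, ha, h_mv0]

theorem hn_run {Q : Type} (M : MultiHead h Unit Q) (N : ℕ) (q : Q) (x : Fin h → ℕ)
    (ha : ¬ M.acc q) : (hNorm M).step (un N) (Sum.inl q, x) =
      (Sum.inl (M.step (un N) (q, x)).1, (M.step (un N) (q, x)).2) := by
  rw [h_step, h_step]
  simp [hIns, hNorm, ha]

theorem hn_sweep {Q : Type} (M : MultiHead h Unit Q) (N : ℕ) : ∀ (m : ℕ) (x : Fin h → ℕ),
    (∀ a, x a ≤ m) → (∀ a, x a ≤ N + 1) →
    ∃ k, hD (hNorm M) (Sum.inr true) N k (Sum.inr false, x) := by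
  have base : ∃ k, hD (hNorm M) (Sum.inr true) N k (Sum.inr false, fun _ => 0) := by
    refine ⟨1, hD.down ⟨by simp, by simp, ?_⟩ hD.root⟩
    rw [h_step]
    simp [hIns, hNorm, h_lft, h_mv0]
  intro m
  induction m with
  | zero =>
    intro x hx _
    obtain rfl : x = fun _ => 0 := funext fun a => Nat.le_zero.1 (hx a)
    exact base
  | succ m ih =>
    intro x hx hx'
    by_cases h0 : ∀ a, x a = 0
    · obtain rfl : x = fun _ => 0 := funext h0
      exact base
    · obtain ⟨k, hk⟩ := ih (fun a => x a - 1) (fun a => by have := hx a; omega)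
        (fun a => by have := hx' a; omega)
      refine ⟨k + 1, hD.down ⟨hx', by simp, ?_⟩ hk⟩
      rw [h_step]
      simp only [hIns, hNorm, h_lft, if_neg h0, h_mv2]

theorem hn_iff {Q : Type} (M : MultiHead h Unit Q) (N : ℕ) :
    (∃ k, hD (hNorm M) (Sum.inr true) N k ((hNorm M).start, fun _ => 0)) ↔ M.Accepts (un N) := by
  constructor
  · rintro ⟨k, hk⟩
    have key : ∀ k c, hD (hNorm M) (Sum.inr true) N k c → ∀ q, c.1 = Sum.inl q →
        ∃ t, M.acc ((M.step (un N))^[t] (q, c.2)).1 := by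
      intro k c hd
      induction hd with
      | root => intro q hq; simp at hq
      | @down k c' c h1 _ ih =>
        intro q hq
        obtain ⟨q0, x⟩ := c'
        simp only at hq
        subst hq
        by_cases ha : M.acc q
        · exact ⟨0, ha⟩
        · have e := h1.2.2
          rw [hn_run M N q x ha] at e
          subst e
          obtain ⟨t, ht⟩ := ih _ rfl
          exact ⟨t + 1, by rw [Function.iterate_succ_apply]; exact ht⟩
    exact key k _ hk M.start rfl
  · rintro ⟨t, ht⟩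
    have key : ∀ (t : ℕ) (q : Q) (x : Fin h → ℕ), (∀ a, x a ≤ N + 1) →
        M.acc ((M.step (un N))^[t] (q, x)).1 →
        ∃ k, hD (hNorm M) (Sum.inr true) N k (Sum.inl q, x) := by
      intro t
      induction t with
      | zero =>
        intro q x hx ha
        obtain ⟨k, hk⟩ := hn_sweep M N (N + 1) x hx hx
        exact ⟨k + 1, hD.down ⟨hx, by simp, hn_acc M N q x ha⟩ hk⟩
      | succ t ih =>
        intro q x hx h1
        by_cases ha : M.acc q
        · obtain ⟨k, hk⟩ := hn_sweep M N (N + 1) x hx hx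
          exact ⟨k + 1, hD.down ⟨hx, by simp, hn_acc M N q x ha⟩ hk⟩
        · rw [Function.iterate_succ_apply] at h1
          have r1 : ∀ a, (M.step (un N) (q, x)).2 a ≤ N + 1 := by
            intro a
            rw [h_step]; exact h_le N _ _ (hx a)
          obtain ⟨k, hk⟩ := ih _ _ r1 h1
          exact ⟨k + 1, hD.down ⟨hx, by simp, hn_run M N q x ha⟩ hk⟩
    exact key t M.start _ (fun _ => by omega) ht

/-- ROW HLK (Sipser): a halting machine with absorbing halting states, all heads on the left marker. -/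
theorem halting (h : ℕ) (Q : Type) [Finite Q] (M : MultiHead h Unit Q) :
    ∃ (Q' : Type) (_ : Finite Q') (M' : MultiHead h Unit Q') (out : Q' → Option Bool),
      (∀ q b s e, out q = some b → M'.δ q s e = (q, fun _ => 0)) ∧
      ∀ N : ℕ, ∃ (t : ℕ) (b : Bool),
        out ((M'.step (un N))^[t] (M'.start, fun _ => 0)).1 = some b ∧
        ((M'.step (un N))^[t] (M'.start, fun _ => 0)).2 = (fun _ => 0) ∧
        (b = true ↔ M.Accepts (un N)) := by
  let e := Finite.equivFin ((Q ⊕ Bool) × (Fin h → SignType))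
  refine ⟨HSt (Q ⊕ Bool) _, inferInstance, hDfs (hNorm M) (Sum.inr true) e,
    Sum.elim (fun _ => none) (Sum.elim (fun _ => none) some), ?_, fun N => ?_⟩
  · rintro (q | q | c) b s e' h1
    · simp at h1
    · simp at h1
    · rfl
  · obtain ⟨b, ⟨t, ht⟩, hb⟩ := h_search (hNorm M) (Sum.inr true) e N
    have ht' : ((hDfs (hNorm M) (Sum.inr true) e).step (un N))^[t]
        ((hDfs (hNorm M) (Sum.inr true) e).start, fun _ => 0) =
        (Sum.inr (Sum.inr b), fun _ => 0) := ht
    exact ⟨t, b, by rw [ht']; rfl, by rw [ht'], hb.trans (hn_iff M N)⟩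

end Pool.Agent.MP_47ff19_lc.H50K
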