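import Pool.Agent.MP_47ff19_lc.H50K.DefsK

namespace Pool.Agent.MP_47ff19_lc.H50K

open Relation
open Pool.Agent.MP_47ff19_lc.H6P (Sym tape mv Op un tape_un A2 Table BHalts CM CHalts CStep val)

/-- ROW NFK -/
theorem Det.mono {k : ℕ} {P : ℚ → (Fin k → ℚ) → Prop} {m m' : ℕ} {Fs Fs' : Finset (IForm k)}
    (h : Det P m Fs) (hm : m ∣ m') (hF : Fs ⊆ Fs') : Det P m' Fs' := by
  intro N N' X X' h1 h2 h3 h4
  exact h N N' X X' (hm.trans h1) (hm.trans h2)
    (fun j => (h3 j).of_dvd (by exact_mod_cast hm)) (fun τ hτ => h4 τ (hF hτ))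

theorem nfk_den (c : ℚ) (n : ℤ) (h : (c.den : ℤ) ∣ n) : ∃ z : ℤ, c * n = z := by
  obtain ⟨k, rfl⟩ := h
  refine ⟨c.num * k, ?_⟩
  push_cast
  rw [← mul_assoc, Rat.mul_den_eq_num]

/-- a common denominator of a form -/
theorem nfk_scale {k : ℕ} (τ : Form k) : ∃ β : ℕ, 0 < β ∧ ∀ β' : ℕ, β ∣ β' → ∃ σ : IForm k,
    (∀ j, ((σ.1 j : ℤ) : ℚ) = β' * τ.1 j) ∧ ((σ.2.1 : ℤ) : ℚ) = β' * τ.2.1 ∧
      ((σ.2.2 : ℤ) : ℚ) = β' * τ.2.2 := by
  refine ⟨(∏ j, (τ.1 j).den) * τ.2.1.den * τ.2.2.den,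
    Nat.mul_pos (Nat.mul_pos (Finset.prod_pos fun j _ => Rat.den_pos _) (Rat.den_pos _))
      (Rat.den_pos _), fun β' hβ => ?_⟩
  have h1 : ∀ j, ∃ z : ℤ, τ.1 j * (β' : ℤ) = z := fun j => nfk_den _ _ (by
    exact_mod_cast (((Finset.dvd_prod_of_mem (fun j => (τ.1 j).den)
      (Finset.mem_univ j)).mul_right _).mul_right _).trans hβ)
  obtain ⟨a, ha⟩ := nfk_den τ.2.1 (β' : ℤ) (by
    exact_mod_cast ((Dvd.intro_left _ rfl : τ.2.1.den ∣ (∏ j, (τ.1 j).den) * τ.2.1.den).mul_right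
      _).trans hβ)
  obtain ⟨g, hg⟩ := nfk_den τ.2.2 (β' : ℤ) (by
    exact_mod_cast (Dvd.intro_left _ rfl : τ.2.2.den ∣ _ * τ.2.2.den).trans hβ)
  choose z hz using h1
  refine ⟨(z, a, g), fun j => ?_, ?_, ?_⟩
  · have := hz j
    push_cast at this
    simp only; linarith
  · push_cast at ha
    simp only; linarith
  · push_cast at hg
    simp only; linarith

theorem nfk_iev {k : ℕ} {τ : Form k} {σ : IForm k} {β : ℕ}
    (h1 : ∀ j, ((σ.1 j : ℤ) : ℚ) = β * τ.1 j) (h2 : ((σ.2.1 : ℤ) : ℚ) = β * τ.2.1)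
    (h3 : ((σ.2.2 : ℤ) : ℚ) = β * τ.2.2) (N : ℤ) (X : Fin k → ℤ) :
    ((iev σ N X : ℤ) : ℚ) = β * ev τ N (fun j => (X j : ℚ)) := by
  simp only [iev, ev]
  push_cast
  simp only [h1, h2, h3, mul_add, Finset.mul_sum, mul_assoc]

theorem nf {k : ℕ} {P : ℚ → (Fin k → ℚ) → Prop} (h : PB P) :
    ∃ (m : ℕ) (Fs : Finset (IForm k)), 0 < m ∧ Det P m Fs := by
  classical
  induction h with
  | le τ =>
    obtain ⟨β, hβ, h⟩ := nfk_scale τ
    obtain ⟨σ, h1, h2, h3⟩ := h β dvd_rfl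
    refine ⟨1, {σ}, one_pos, fun N N' X X' _ _ _ h4 => ?_⟩
    have key : ∀ (N : ℕ) (X : Fin k → ℤ),
        0 ≤ ev τ (N : ℚ) (fun j => (X j : ℚ)) ↔ 0 ≤ iev σ N X := by
      intro N X
      have e := nfk_iev h1 h2 h3 (N : ℤ) X
      have hb : (0 : ℚ) < β := by exact_mod_cast hβ
      rw [Int.cast_natCast] at e
      rw [← Int.cast_nonneg_iff (R := ℚ), e, mul_nonneg_iff_of_pos_left hb]
    beta_reduce
    rw [key, key]
    exact h4 σ (by simp)
  | int τ =>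
    obtain ⟨β, hβ, h⟩ := nfk_scale τ
    obtain ⟨σ, h1, h2, h3⟩ := h β dvd_rfl
    refine ⟨β, ∅, hβ, fun N N' X X' a1 a2 a3 _ => ?_⟩
    have hb : (β : ℚ) ≠ 0 := by exact_mod_cast hβ.ne'
    have key : ∀ (N : ℕ) (X : Fin k → ℤ),
        (∃ z : ℤ, ev τ (N : ℚ) (fun j => (X j : ℚ)) = z) ↔ (β : ℤ) ∣ iev σ N X := by
      intro N X
      have e := nfk_iev h1 h2 h3 (N : ℤ) X
      rw [Int.cast_natCast] at e
      constructor
      · rintro ⟨z, hz⟩
        refine ⟨z, ?_⟩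
        rw [hz] at e
        exact_mod_cast e
      · rintro ⟨z, hz⟩
        refine ⟨z, mul_left_cancel₀ hb ?_⟩
        rw [← e, hz]
        push_cast
        rfl
    beta_reduce
    rw [key, key]
    have b1 : (N : ℤ) ≡ N' [ZMOD β] :=
      ((Int.modEq_zero_iff_dvd.2 (by exact_mod_cast a1)).trans
        (Int.modEq_zero_iff_dvd.2 (by exact_mod_cast a2)).symm)
    have b2 : iev σ N X ≡ iev σ N' X' [ZMOD β] := by
      unfold iev
      refine Int.ModEq.add (Int.ModEq.add ?_ (b1.mul_left _)) rfl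
      rw [Int.modEq_iff_dvd, ← Finset.sum_sub_distrib]
      exact Finset.dvd_sum fun j _ => ((a3 j).mul_left _).dvd
    rw [← Int.modEq_zero_iff_dvd, ← Int.modEq_zero_iff_dvd]
    exact ⟨fun h => b2.symm.trans h, fun h => b2.trans h⟩
  | not _ ih =>
    obtain ⟨m, Fs, hm, h⟩ := ih
    exact ⟨m, Fs, hm, fun N N' X X' a1 a2 a3 a4 => not_congr (h N N' X X' a1 a2 a3 a4)⟩
  | and _ _ ih1 ih2 =>
    obtain ⟨m, Fs, hm, h⟩ := ih1
    obtain ⟨m', Fs', hm', h'⟩ := ih2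
    have k1 := h.mono (Dvd.intro m' rfl) (Finset.subset_union_left (s₂ := Fs'))
    have k2 := h'.mono (Dvd.intro_left m rfl) (Finset.subset_union_right (s₁ := Fs))
    exact ⟨m * m', Fs ∪ Fs', Nat.mul_pos hm hm', fun N N' X X' a1 a2 a3 a4 =>
      and_congr (k1 N N' X X' a1 a2 a3 a4) (k2 N N' X X' a1 a2 a3 a4)⟩

theorem nf_fin {k : ℕ} {ι : Type} (s : Finset ι) {P : ι → ℚ → (Fin k → ℚ) → Prop}
    (h : ∀ i ∈ s, PB (P i)) :
    ∃ (m : ℕ) (Fs : Finset (IForm k)), 0 < m ∧ ∀ i ∈ s, Det (P i) m Fs := by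
  classical
  choose m Fs hm hd using fun i : s => nf (h i.1 i.2)
  refine ⟨∏ i, m i, Finset.univ.biUnion Fs, Finset.prod_pos (fun i _ => hm i), fun i hi => ?_⟩
  exact (hd ⟨i, hi⟩).mono (Finset.dvd_prod_of_mem _ (Finset.mem_univ _))
    (Finset.subset_biUnion_of_mem Fs (Finset.mem_univ _))

/-- the cells `-2 ≤ h j ≤ H + 2` -/
noncomputable def cells (k H : ℕ) : Finset (Fin k → ℤ) :=
  Fintype.piFinset fun _ => Finset.Icc (-2 : ℤ) (H + 2)

theorem card_cells (k H : ℕ) : (cells k H).card = (H + 5) ^ k := by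
  have : ((H : ℤ) + 2 + 1 - -2).toNat = H + 5 := by omega
  simp only [cells, Fintype.card_piFinset, Int.card_Icc, this, Finset.prod_const,
    Finset.card_univ, Fintype.card_fin]

theorem mem_cells {k H : ℕ} {h : Fin k → ℤ} : h ∈ cells k H ↔ ∀ j, -2 ≤ h j ∧ h j ≤ H + 2 := by
  simp [cells, Fintype.mem_piFinset]

theorem nfk_line (s : Finset ℤ) (L : ℚ) (hL : 0 ≤ L) (h : ∀ x ∈ s, ∀ y ∈ s, (x : ℚ) - y ≤ L) :
    (s.card : ℚ) ≤ L + 1 := by
  rcases s.eq_empty_or_nonempty with rfl | hs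
  · simp; linarith
  · have h1 : s ⊆ Finset.Icc (s.min' hs) (s.max' hs) := fun x hx =>
      Finset.mem_Icc.2 ⟨s.min'_le x hx, s.le_max' x hx⟩
    have h2 := Finset.card_le_card h1
    rw [Int.card_Icc] at h2
    have h3 := h _ (s.max'_mem hs) _ (s.min'_mem hs)
    have h4 : s.min' hs ≤ s.max' hs := s.min'_le _ (s.max'_mem hs)
    have h5 : (s.card : ℤ) ≤ s.max' hs + 1 - s.min' hs := by omega
    have h6 : (s.card : ℚ) ≤ (s.max' hs : ℚ) + 1 - s.min' hs := by exact_mod_cast h5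
    linarith

open Classical in
/-- few cells meet a slab -/
theorem slab {k : ℕ} (H : ℕ) (α : Fin k → ℚ) (j : Fin k) (hj : α j ≠ 0) (b W : ℚ) (hW : 0 ≤ W) :
    (((cells k H).filter fun h => |∑ i, α i * h i + b| ≤ W).card : ℚ) * (H + 5) ≤
      (2 * W / |α j| + 1) * (H + 5) ^ k := by
  set S := (cells k H).filter fun h => |∑ i, α i * h i + b| ≤ W with hS
  have ha : 0 < |α j| := abs_pos.2 hj
  set I : Finset ℤ := Finset.Icc (-2 : ℤ) (H + 2) with hI
  have hIc : I.card = H + 5 := by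
    rw [hI, Int.card_Icc]; omega
  have h1 : (S ×ˢ I).card = ∑ c ∈ cells k H,
      ((S ×ˢ I).filter fun x => Function.update x.1 j x.2 = c).card := by
    refine Finset.card_eq_sum_card_fiberwise fun x hx => ?_
    obtain ⟨x1, x2⟩ := Finset.mem_product.1 hx
    have x3 := mem_cells.1 (Finset.mem_filter.1 x1).1
    refine mem_cells.2 fun i => ?_
    by_cases hi : i = j
    · subst hi
      simpa [hI] using x2
    · simpa [Function.update_of_ne hi] using x3 i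
  have h2 : ∀ c ∈ cells k H,
      (((S ×ˢ I).filter fun x => Function.update x.1 j x.2 = c).card : ℚ) ≤ 2 * W / |α j| + 1 := by
    intro c _
    set T := (S ×ˢ I).filter fun x => Function.update x.1 j x.2 = c with hT
    have t1 : ∀ x ∈ T, x.2 = c j ∧ ∀ i, i ≠ j → x.1 i = c i := by
      intro x hx
      have := (Finset.mem_filter.1 hx).2
      refine ⟨by rw [← this]; simp, fun i hi => by rw [← this, Function.update_of_ne hi]⟩
    have t2 : T.card = (T.image fun x => x.1 j).card := by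
      refine (Finset.card_image_of_injOn fun x hx y hy e => ?_).symm
      refine Prod.ext (funext fun i => ?_) ((t1 x hx).1.trans (t1 y hy).1.symm)
      by_cases hi : i = j
      · subst hi; exact e
      · exact ((t1 x hx).2 i hi).trans ((t1 y hy).2 i hi).symm
    rw [t2]
    refine nfk_line _ _ (by positivity) fun u hu v hv => ?_
    obtain ⟨x, hx, rfl⟩ := Finset.mem_image.1 hu
    obtain ⟨y, hy, rfl⟩ := Finset.mem_image.1 hv
    have x1 := (Finset.mem_filter.1 (Finset.mem_product.1 (Finset.mem_filter.1 hx).1).1).2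
    have y1 := (Finset.mem_filter.1 (Finset.mem_product.1 (Finset.mem_filter.1 hy).1).1).2
    have e : (∑ i, α i * x.1 i + b) - (∑ i, α i * y.1 i + b) = α j * ((x.1 j : ℚ) - y.1 j) := by
      rw [add_sub_add_right_eq_sub, ← Finset.sum_sub_distrib, Finset.sum_eq_single j]
      · ring
      · intro i _ hi
        rw [(t1 x hx).2 i hi, (t1 y hy).2 i hi, sub_self]
      · simp
    have e2 : |α j| * |(x.1 j : ℚ) - y.1 j| ≤ 2 * W := by
      rw [← abs_mul, ← e]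
      exact (abs_sub _ _).trans (by linarith)
    rw [le_div_iff₀ ha]
    nlinarith [le_abs_self ((x.1 j : ℚ) - y.1 j)]
  have h3 : ((S ×ˢ I).card : ℚ) ≤ (cells k H).card * (2 * W / |α j| + 1) := by
    rw [h1]
    push_cast
    exact (Finset.sum_le_card_nsmul _ _ _ h2).trans_eq (by rw [nsmul_eq_mul])
  rw [Finset.card_product, hIc, card_cells] at h3
  push_cast at h3
  linarith

end Pool.Agent.MP_47ff19_lc.H50K
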