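import Pool.Agent.MP_47ff19_lc.H50K.PBK
import Pool.Agent.MP_47ff19_lc.H50K.NFK

namespace Pool.Agent.MP_47ff19_lc.H50K

open Relation
open Pool.Agent.MP_47ff19_lc.H6P (Sym tape mv Op un tape_un A2 Table BHalts CM CHalts CStep val)

theorem m2_pi {k n : ℕ} {Q β : Type} (f : Fin n → ℚ → Q × (Fin k → ℚ) → β)
    (h : ∀ j, Meas (f j)) : Meas fun N c j => f j N c := by
  classical
  choose s hs using fun j => (h j).1
  refine ⟨⟨Fintype.piFinset s, fun N c => Fintype.mem_piFinset.2 fun j => hs j N c⟩,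
    fun b q => ?_⟩
  exact (PB.all Finset.univ (P := fun j N X => f j N (q, X) = b j)
    fun j _ => (h j).2 (b j) q).congr (by intro N X; simp [funext_iff])

theorem m2_ev {k : ℕ} (j : Fin k) (r a s N : ℚ) (X : Fin k → ℚ) :
    ev ((Pi.single j r, a, s) : Form k) N X = r * X j + a * N + s := by
  simp [ev, Pi.single_apply]

/-- the rows of `composite - identity` -/
theorem m2_forms {k : ℕ} {Q : Type} (P : PA k Q) (g : ℕ) :
    ∃ T : Finset (Form k), ∀ N c p i, p < g →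
      ∃ σ ∈ T, ((P.φ N)^[p] c).2 i - c.2 i = ev σ N c.2 := by
  classical
  choose s hs using fun p => (P.meas_cmp p).1
  refine ⟨(((Finset.range g).biUnion s) ×ˢ (Finset.univ : Finset (Fin k))).image
    fun x => ((x.1 x.2).1 - Pi.single x.2 1, (x.1 x.2).2.1, (x.1 x.2).2.2), fun N c p i hp => ?_⟩
  refine ⟨_, Finset.mem_image.2 ⟨(P.cmp N c p, i), Finset.mem_product.2
    ⟨Finset.mem_biUnion.2 ⟨p, Finset.mem_range.2 hp, hs p N c⟩, Finset.mem_univ _⟩, rfl⟩, ?_⟩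
  rw [P.ev_cmp N c p]
  simp only [app, ev, Pi.sub_apply, sub_mul, Finset.sum_sub_distrib, Pi.single_apply, ite_mul,
    one_mul, zero_mul, Finset.sum_ite_eq', Finset.mem_univ, if_true]
  ring

theorem m2_bound {k : ℕ} (T : Finset (Form k)) (δ : Form k → ℚ) (hδ : ∀ τ, 0 < δ τ) :
    ∃ B : ℕ, 0 < B ∧ ∀ τ ∈ T, 1 ≤ B * δ τ ∧ |τ.2.2| < B * δ τ ∧ |τ.2.2| < B := by
  choose B hB using fun τ : Form k => exists_nat_gt (max ((1 + |τ.2.2|) / δ τ) |τ.2.2|)
  refine ⟨T.sup B + 1, Nat.succ_pos _, fun τ hτ => ?_⟩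
  have h1 : (B τ : ℚ) ≤ ((T.sup B + 1 : ℕ) : ℚ) := by
    exact_mod_cast (Finset.le_sup (f := B) hτ).trans (Nat.le_succ _)
  have h2 := (max_lt_iff.1 (hB τ)).1
  have h3 := (max_lt_iff.1 (hB τ)).2
  rw [div_lt_iff₀ (hδ τ)] at h2
  have h4 := mul_le_mul_of_nonneg_right h1 (hδ τ).le
  have h5 := abs_nonneg τ.2.2
  exact ⟨by linarith, by linarith, by linarith⟩

/-- residue and cell of one coordinate -/
theorem m2_col1 {k : ℕ} {Q : Type} (B : ℕ) (hB : 0 < B) (j : Fin k) :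
    ∃ f : ℚ → Q × (Fin k → ℚ) → ℕ × ℕ, Meas f ∧
      ∀ (N X X' : ℕ) (x x' : Q × (Fin k → ℚ)), B ≤ N → X ≤ N + 1 → X' ≤ N + 1 →
        x.2 j = X → x'.2 j = X' → f N x' = f N x →
        (∃ z : ℤ, (X' : ℚ) - X = B * z) ∧ |(X' : ℚ) - X| * B ≤ N := by
  have hB' : (0 : ℚ) < B := by exact_mod_cast hB
  obtain ⟨f1, m1, h1⟩ := Meas.choose (k := k) (Q := Q) (Finset.range B) 0
    (fun l N c => ∃ z : ℤ, ev ((Pi.single j (1 / (B : ℚ)), 0, -(l : ℚ) / B) : Form k) N c.2 = z)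
    fun l _ _ => PB.int _
  obtain ⟨f2, m2, h2⟩ := Meas.choose (k := k) (Q := Q) (Finset.range (B + 1)) 0
    (fun h N c => 0 ≤ ev ((Pi.single j (B : ℚ), -(h : ℚ), 0) : Form k) N c.2 ∧
      0 ≤ ev ((Pi.single j (-(B : ℚ)), (h : ℚ) + 1, 0) : Form k) N c.2)
    fun l _ _ => PB.and (PB.le _) (PB.le _)
  refine ⟨_, Meas.prod m1 m2, fun N X X' x x' hN hX hX' ex ex' hc => ?_⟩
  have a1 : ∀ (x : Q × (Fin k → ℚ)) (X : ℕ), x.2 j = X →
      ∃ z : ℤ, (X : ℚ) - f1 N x = B * z := fun x X ex => by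
    obtain ⟨z, hz⟩ := (h1 N x ⟨X % B, Finset.mem_range.2 (Nat.mod_lt _ hB),
      ((X / B : ℕ) : ℤ), by
        have e1 : (X : ℚ) = B * ((X / B : ℕ) : ℚ) + ((X % B : ℕ) : ℚ) := by
          exact_mod_cast (Nat.div_add_mod X B).symm
        simp only [m2_ev, Int.cast_natCast, ex]
        field_simp
        linarith⟩).2
    refine ⟨z, ?_⟩
    simp only [m2_ev, ex] at hz
    field_simp at hz
    linarith
  have a2 : ∀ (x : Q × (Fin k → ℚ)) (X : ℕ), x.2 j = X → X ≤ N + 1 →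
      (f2 N x : ℚ) * N ≤ B * X ∧ (B : ℚ) * X ≤ (f2 N x + 1) * N := fun x X ex hX => by
    have hN0 : 0 < N := hB.trans_le hN
    have ex2 : ∃ h ∈ Finset.range (B + 1), h * N ≤ B * X ∧ B * X ≤ (h + 1) * N := by
      by_cases c : X ≤ N
      · refine ⟨B * X / N, Finset.mem_range.2 (Nat.lt_succ_of_le ?_), Nat.div_mul_le_self _ _, ?_⟩
        · exact Nat.div_le_of_le_mul (by rw [mul_comm N]; exact Nat.mul_le_mul_left _ c)
        · have := Nat.lt_div_mul_add (a := B * X) hN0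
          rw [add_mul, one_mul]
          exact this.le
      · have : X = N + 1 := by omega
        subst this
        exact ⟨B, Finset.mem_range.2 (Nat.lt_succ_self _), by nlinarith, by nlinarith⟩
    obtain ⟨h, hh, u1, u2⟩ := ex2
    have u1' : (h : ℚ) * N ≤ B * X := by exact_mod_cast u1
    have u2' : (B : ℚ) * X ≤ (h + 1) * N := by exact_mod_cast u2
    obtain ⟨v1, v2⟩ := (h2 N x ⟨h, hh, by simp only [m2_ev, ex]; linarith,
      by simp only [m2_ev, ex]; linarith⟩).2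
    simp only [m2_ev, ex] at v1 v2
    exact ⟨by linarith, by linarith⟩
  simp only [Prod.mk.injEq] at hc
  obtain ⟨c2, c3⟩ := hc
  obtain ⟨z, hz⟩ := a1 x X ex
  obtain ⟨z', hz'⟩ := a1 x' X' ex'
  obtain ⟨b1, b2⟩ := a2 x X ex hX
  obtain ⟨b3, b4⟩ := a2 x' X' ex' hX'
  rw [c2] at hz'
  rw [c3] at b3 b4
  refine ⟨⟨z' - z, by push_cast; linarith⟩, ?_⟩
  rw [← abs_of_pos hB', ← abs_mul, abs_le]
  constructor <;> linarith

theorem m2_col {k : ℕ} {Q : Type} [Finite Q] (B : ℕ) (hB : 0 < B) :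
    ∃ (r : ℕ) (col : ℚ → Q × (Fin k → ℚ) → ℕ), Meas col ∧ (∀ N x, col N x < r) ∧
      ∀ (N : ℕ) (X X' : Fin k → ℕ) (x x' : Q × (Fin k → ℚ)), B ≤ N → (∀ j, X j ≤ N + 1) →
        (∀ j, X' j ≤ N + 1) → (x.2 = fun j => (X j : ℚ)) → (x'.2 = fun j => (X' j : ℚ)) →
        col N x' = col N x →
        x'.1 = x.1 ∧ ∀ j, (∃ z : ℤ, (X' j : ℚ) - X j = B * z) ∧ |(X' j : ℚ) - X j| * B ≤ N := by
  choose f mf hf using fun j : Fin k => m2_col1 (Q := Q) B hB j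
  obtain ⟨e, he⟩ := Countable.exists_injective_nat (Q × (Fin k → ℕ × ℕ))
  have m3 := Meas.map (Meas.prod (Meas.state (k := k) (Q := Q)) (m2_pi f mf)) e
  obtain ⟨s, hs⟩ := m3.1
  refine ⟨s.sup id + 1, _, m3, fun N x => Nat.lt_succ_of_le (Finset.le_sup (f := id) (hs N x)),
    fun N X X' x x' hN hX hX' ex ex' hc => ?_⟩
  have hc' := he hc
  simp only [Prod.mk.injEq] at hc'
  exact ⟨hc'.1, fun j => hf j N (X j) (X' j) x x' hN (hX j) (hX' j) (by rw [ex]) (by rw [ex'])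
    (congrFun hc'.2 j)⟩

/-- few cells meet a thin slab -/
theorem m2_slab {k : ℕ} (σ : Form k) (u : ℕ) (hu : 0 < u) :
    ∃ ε : ℚ, 0 < ε ∧ ∃ H1 : ℕ, ∀ H : ℕ, H1 ≤ H → ∃ E : Finset (Fin k → ℤ), E.card * u ≤ H ^ k ∧
      ∀ (Δ : ℕ) (h X : Fin k → ℤ), 0 < Δ → h ∈ cells k H → Near Δ h X → σ.1 ≠ 0 →
        |∑ j, σ.1 j * X j + σ.2.1 * ((H * Δ : ℕ) : ℚ)| ≤ ε * ((H * Δ : ℕ) : ℚ) → h ∈ E := by
  classical
  by_cases h0 : σ.1 = 0
  · exact ⟨1, one_pos, 0, fun H _ => ⟨∅, by simp, fun _ _ _ _ _ _ h _ => absurd h0 h⟩⟩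
  obtain ⟨j, hj⟩ := Function.ne_iff.1 h0
  have hj' : σ.1 j ≠ 0 := hj
  have ha : 0 < |σ.1 j| := abs_pos.2 hj'
  have hu' : (0 : ℚ) < u := by exact_mod_cast hu
  obtain ⟨S, hS⟩ : ∃ S : ℚ, S = ∑ i, |σ.1 i| := ⟨_, rfl⟩
  have S0 : 0 ≤ S := hS ▸ Finset.sum_nonneg fun i _ => abs_nonneg _
  obtain ⟨w, hw⟩ : ∃ w : ℚ, w = 2 ^ k * u := ⟨_, rfl⟩
  have w0 : 0 < w := by rw [hw]; positivity
  obtain ⟨H1, hH1⟩ := exists_nat_ge (2 * w * (4 * S / |σ.1 j| + 1))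
  refine ⟨|σ.1 j| / (4 * w), by positivity, H1 + 5, fun H hH => ?_⟩
  have hH5 : (5 : ℚ) ≤ H := by exact_mod_cast (by omega : 5 ≤ H)
  have hH1' : (H1 : ℚ) ≤ H := by exact_mod_cast (by omega : H1 ≤ H)
  obtain ⟨W, hW⟩ : ∃ W : ℚ, W = |σ.1 j| / (4 * w) * H + 2 * S := ⟨_, rfl⟩
  have W0 : 0 ≤ W := by rw [hW]; positivity
  obtain ⟨E, hs, hE⟩ : ∃ E : Finset (Fin k → ℤ),
      (E.card : ℚ) * (H + 5) ≤ (2 * W / |σ.1 j| + 1) * (H + 5) ^ k ∧
      ∀ h ∈ cells k H, |∑ i, σ.1 i * h i + σ.2.1 * H| ≤ W → h ∈ E :=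
    ⟨_, slab H σ.1 j hj' (σ.2.1 * H) W W0, fun h hh hx => Finset.mem_filter.2 ⟨hh, hx⟩⟩
  refine ⟨E, ?_, fun Δ h X Δ0 hh hn _ hx => hE h hh ?_⟩
  · have a1 : 2 * W / |σ.1 j| + 1 = H / (2 * w) + (4 * S / |σ.1 j| + 1) := by
      rw [hW]
      field_simp
      ring
    have a2 : 4 * S / |σ.1 j| + 1 ≤ H / (2 * w) := by
      rw [le_div_iff₀ (by positivity)]
      linarith
    have a3 : 2 * W / |σ.1 j| + 1 ≤ H / w := by
      have : (H : ℚ) / w = H / (2 * w) + H / (2 * w) := by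
        field_simp
        ring
      linarith
    have a4 : ((H : ℚ) + 5) ^ k ≤ 2 ^ k * H ^ k := by
      rw [← mul_pow]
      exact pow_le_pow_left₀ (by linarith) (by linarith) k
    have a5 : (E.card : ℚ) * (H + 5) ≤ H / w * (2 ^ k * H ^ k) :=
      hs.trans (mul_le_mul a3 a4 (by positivity) (by positivity))
    have a6 : (H : ℚ) / w * (2 ^ k * H ^ k) * u = H ^ k * H := by
      rw [hw]
      field_simp
    have a7 := mul_le_mul_of_nonneg_right a5 hu'.le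
    have a8 : (E.card : ℚ) * u * (H + 5) ≤ H ^ k * (H + 5) := by
      have : (0 : ℚ) ≤ H ^ k := by positivity
      rw [a6] at a7
      linarith
    exact_mod_cast le_of_mul_le_mul_right a8 (by linarith)
  · have Δ1 : (0 : ℚ) < Δ := by exact_mod_cast Δ0
    have b1 : ∀ i, |(h i : ℚ) * Δ - X i| ≤ 2 * Δ := fun i => by
      have c1 : ((h i : ℚ) - 1) * Δ ≤ X i := by exact_mod_cast (hn i).1
      have c2 : (X i : ℚ) ≤ (h i + 2) * Δ := by exact_mod_cast (hn i).2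
      rw [abs_le]
      constructor <;> linarith
    have b2 : |∑ i, σ.1 i * ((h i : ℚ) * Δ - X i)| ≤ S * (2 * Δ) := by
      rw [hS, Finset.sum_mul]
      refine (Finset.abs_sum_le_sum_abs _ _).trans (Finset.sum_le_sum fun i _ => ?_)
      rw [abs_mul]
      exact mul_le_mul_of_nonneg_left (b1 i) (abs_nonneg _)
    have b3 : (∑ i, σ.1 i * h i + σ.2.1 * H) * Δ = ∑ i, σ.1 i * ((h i : ℚ) * Δ - X i) +
        (∑ i, σ.1 i * X i + σ.2.1 * ((H * Δ : ℕ) : ℚ)) := by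
      simp only [mul_sub, Finset.sum_sub_distrib, add_mul, Finset.sum_mul, mul_assoc, Nat.cast_mul]
      ring
    have b4 : |∑ i, σ.1 i * h i + σ.2.1 * H| * Δ ≤ W * Δ := by
      rw [← abs_of_pos Δ1, ← abs_mul, b3, abs_of_pos Δ1, hW]
      refine (abs_add_le _ _).trans ?_
      rw [Nat.cast_mul] at hx ⊢
      linarith
    exact le_of_mul_le_mul_right b4 Δ1

/-- ROW M2K: colours and the exceptional set (slabs around the fixed hyperplanes). -/
theorem colours {k : ℕ} {Q : Type} [Finite Q] (P : PA k Q) (g c : ℕ) :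
    ∃ (r N0 H1 : ℕ) (col : ℚ → Q × (Fin k → ℚ) → ℕ) (Exc : ℚ → Q × (Fin k → ℚ) → Prop),
      Meas col ∧ MP Exc ∧ (∀ N x, col N x < r) ∧
      (∀ N : ℕ, N0 ≤ N → ∀ b, P.Runs N b → ∀ t p, 0 < p → p < g →
        P.out (P.orb N t).1 = none → ¬ Exc N (P.orb N t) →
        col N (P.orb N (t + p)) ≠ col N (P.orb N t)) ∧
      (∀ H : ℕ, H1 ≤ H → ∃ E : Finset (Fin k → ℤ), c * E.card ≤ H ^ k ∧
        ∀ (Δ : ℕ) (h : Fin k → ℤ) (q : Q) (X : Fin k → ℤ), 0 < Δ → h ∈ cells k H → Near Δ h X →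
          Exc ((H * Δ : ℕ) : ℚ) (q, fun j => (X j : ℚ)) → h ∈ E) := by
  classical
  obtain ⟨T, hT⟩ := m2_forms P g
  choose ε ε0 H1 hsl using fun σ : Form k => m2_slab σ (c * T.card + 1) (Nat.succ_pos _)
  obtain ⟨B, hB, hb⟩ := m2_bound T
    (fun τ => if τ.1 = 0 then (if τ.2.1 = 0 then 1 else |τ.2.1| / 2) else ε τ / 2)
    fun τ => by
      split_ifs with c1 c2
      · exact one_pos
      · exact half_pos (abs_pos.2 c2)
      · exact half_pos (ε0 τ)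
  obtain ⟨r, col, hm, hr, hcol⟩ := m2_col (k := k) (Q := Q) B hB
  refine ⟨r, B, T.sup H1, col, fun N x => ∃ τ ∈ T, τ.1 ≠ 0 ∧
    ev ((0, -ε τ, 0) : Form k) N x.2 ≤ ev (τ.1, τ.2.1, 0) N x.2 ∧
      ev (τ.1, τ.2.1, 0) N x.2 ≤ ev ((0, ε τ, 0) : Form k) N x.2,
    hm, fun q => PB.ex T fun τ _ => (PB.const _).and (PB.and (PB.le2 _ _) (PB.le2 _ _)), hr,
    fun N hN b hR t p p0 pg ho hE hc => ?_, fun H hH => ?_⟩
  · obtain ⟨X, hX, eX⟩ := hR.rng t
    obtain ⟨X', hX', eX'⟩ := hR.rng (t + p)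
    have eo : P.orb N (t + p) = (P.φ N)^[p] (P.orb N t) := by
      unfold PA.orb
      rw [add_comm, Function.iterate_add_apply]
    have hτ := fun i => hT N (P.orb N t) p i pg
    rw [← eo] at hτ
    obtain ⟨c0, hj⟩ := hcol N X X' _ _ hN hX hX' eX eX' hc
    refine hR.norep t p p0 ho (Prod.ext c0 (funext fun i => ?_))
    obtain ⟨τ, hτ, e1⟩ := hτ i
    obtain ⟨⟨z, hz⟩, hd⟩ := hj i
    beta_reduce at hE
    rw [eX] at hE
    rw [eX, eX'] at e1 ⊢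
    obtain ⟨b1, b2, b3⟩ := hb τ hτ
    have hN' : (B : ℚ) ≤ N := by exact_mod_cast hN
    have hB' : (0 : ℚ) < B := by exact_mod_cast hB
    simp only [ev] at e1
    have key : ∀ δ : ℚ, 1 ≤ B * δ → |τ.2.2| < B * δ →
        |∑ j, τ.1 j * X j + τ.2.1 * N| < 2 * (N * δ) := by
      intro δ d1 d2
      have d0 : 0 < δ := by
        by_contra hn
        nlinarith
      have k1 : |(X' i : ℚ) - X i| ≤ N * δ := by
        have := mul_le_mul_of_nonneg_right hd d0.le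
        have := abs_nonneg ((X' i : ℚ) - X i)
        nlinarith
      have k2 : B * δ ≤ N * δ := mul_le_mul_of_nonneg_right hN' d0.le
      have k3 : ∑ j, τ.1 j * X j + τ.2.1 * N = ((X' i : ℚ) - X i) - τ.2.2 := by rw [e1]; ring
      have k4 := abs_sub ((X' i : ℚ) - X i) τ.2.2
      rw [k3]
      linarith
    have kk := key _ b1 b2
    by_cases c1 : τ.1 = 0
    · by_cases c2 : τ.2.1 = 0
      · have k1 : τ.2.2 = B * z := by
          rw [← hz, e1, c1, c2]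
          simp
        rw [k1, abs_mul, abs_of_pos hB', mul_lt_iff_lt_one_right hB'] at b3
        have k2 : z = 0 := Int.abs_lt_one_iff.1 (by exact_mod_cast b3)
        rw [k2, Int.cast_zero, mul_zero, sub_eq_zero] at hz
        exact hz
      · simp only [c1, c2, if_true, if_false, Pi.zero_apply, zero_mul, Finset.sum_const_zero,
          zero_add] at kk
        rw [abs_mul, Nat.abs_cast] at kk
        linarith
    · exfalso
      apply hE
      simp only [c1, if_false] at kk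
      have k3 := abs_lt.1 kk
      refine ⟨τ, hτ, c1, ?_, ?_⟩ <;>
        simp only [ev, Pi.zero_apply, zero_mul, Finset.sum_const_zero] <;> linarith [k3.1, k3.2]
  · choose E hE hmem using fun σ : T => hsl σ.1 H ((Finset.le_sup (f := H1) σ.2).trans hH)
    refine ⟨Finset.univ.biUnion E, ?_, fun Δ h q X Δ0 h1 h2 ⟨τ, hτ, u0, u1, u2⟩ => ?_⟩
    · have a1 := Finset.card_biUnion_le_card_mul Finset.univ E (H ^ k / (c * T.card + 1))
        fun σ _ => (Nat.le_div_iff_mul_le (Nat.succ_pos _)).2 (hE σ)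
      have a2 := Nat.mul_le_mul_left c a1
      have a3 := Nat.div_mul_le_self (H ^ k) (c * T.card + 1)
      rw [← mul_assoc, Finset.card_univ, Fintype.card_coe] at a2
      generalize c * T.card = u at *
      generalize H ^ k / (u + 1) = v at *
      nlinarith
    · refine Finset.mem_biUnion.2 ⟨⟨τ, hτ⟩, Finset.mem_univ _, hmem ⟨τ, hτ⟩ Δ h X Δ0 h1 h2 u0 ?_⟩
      simp only [ev, Pi.zero_apply, zero_mul, Finset.sum_const_zero] at u1 u2
      exact abs_le.2 ⟨by linarith, by linarith⟩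

end Pool.Agent.MP_47ff19_lc.H50K
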