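import Pool.Agent.MP_47ff19_lc.H6P.Mark1
import Pool.Agent.MP_47ff19_lc.H50K.Mark2K

namespace Pool.Agent.MP_47ff19_lc.H50K

open Relation
open Pool.Agent.MP_47ff19_lc.H6P (Sym tape mv Op un tape_un A2 Table BHalts CM CHalts CStep val)
open Pool.Agent.MP_47ff19_lc.H6P (Sel Mark mark_disj mark_hit)

theorem m3_next {k : ℕ} {Q : Type} (P : PA k Q) {S : ℚ → Q × (Fin k → ℚ) → Prop} (h : MP S)
    (g : ℕ) : MP fun N c => ∀ j, 0 < j → j < g → ¬ S N ((P.φ N)^[j] c) := fun q =>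
  (PB.all (Finset.Ioo 0 g) fun j _ => (MP.iter P h j q).not).congr fun N X => by simp

theorem m3_sel {k : ℕ} {Q : Type} (P : PA k Q) {col : ℚ → Q × (Fin k → ℚ) → ℕ} (h : Meas col)
    (g n : ℕ) : MP fun N c => Sel (P.φ N) (col N) g n c := by
  induction n with
  | zero => exact fun q => PB.const False
  | succ n ih => exact fun q => (ih q).or ((h.2 n q).and (m3_next P ih g q))

theorem m3_mark {k : ℕ} {Q : Type} (P : PA k Q) {col : ℚ → Q × (Fin k → ℚ) → ℕ} (h : Meas col)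
    (g r : ℕ) : MP fun N c => Mark (P.φ N) (col N) g r c := fun q =>
  (m3_sel P h g r q).and (m3_next P (m3_sel P h g r) g q)

theorem m3_bind {k : ℕ} {Q β γ : Type} {f : ℚ → Q × (Fin k → ℚ) → β} (h : Meas f)
    {F : β → ℚ → Q × (Fin k → ℚ) → γ} (hF : ∀ b, Meas (F b)) :
    Meas fun N c => F (f N c) N c := by
  classical
  obtain ⟨⟨s, hs⟩, h2⟩ := h
  choose S hS using fun b => (hF b).1
  refine ⟨⟨s.biUnion S, fun N c => Finset.mem_biUnion.2 ⟨_, hs N c, hS _ N c⟩⟩, fun y q => ?_⟩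
  refine (PB.ex s fun b _ => (h2 b q).and ((hF b).2 y q)).congr fun N X => ?_
  constructor
  · rintro ⟨b, -, rfl, e⟩
    exact e
  · exact fun e => ⟨_, hs N _, rfl, e⟩

/-- the label of the first later visit to a measurable set -/
theorem m3_mac {k : ℕ} {Q : Type} [Finite Q] (P : PA k Q) {S : ℚ → Q × (Fin k → ℚ) → Prop}
    (hS : MP S) (B : ℕ) :
    ∃ mac : ℚ → Q × (Fin k → ℚ) → Q × AM k k, Meas mac ∧ ∀ N c,
      (∃ p, 0 < p ∧ p ≤ B ∧ S N ((P.φ N)^[p] c)) → ∃ p, 0 < p ∧ S N ((P.φ N)^[p] c) ∧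
        (∀ s, 0 < s → s < p → ¬ S N ((P.φ N)^[s] c)) ∧
        (P.φ N)^[p] c = ((mac N c).1, app (mac N c).2 N c.2) := by
  classical
  obtain ⟨f, hf, hf2⟩ := Meas.choose (Finset.range (B + 1)) 0
    (fun p N c => 0 < p ∧ S N ((P.φ N)^[p] c) ∧ ∀ s, 0 < s → s < p → ¬ S N ((P.φ N)^[s] c))
    fun p _ q => (PB.const _).and ((MP.iter P hS p q).and (m3_next P hS p q))
  refine ⟨fun N c => (((P.φ N)^[f N c] c).1, P.cmp N c (f N c)),
    m3_bind hf (F := fun p N c => (((P.φ N)^[p] c).1, P.cmp N c p))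
      fun p => (Meas.iter P Meas.state p).prod (P.meas_cmp p), fun N c h => ?_⟩
  have hex : ∃ p, 0 < p ∧ S N ((P.φ N)^[p] c) := let ⟨p, a, _, b⟩ := h; ⟨p, a, b⟩
  obtain ⟨p, p1, p2, p3⟩ := h
  obtain ⟨-, a1, a2, a3⟩ := hf2 N c ⟨Nat.find hex, Finset.mem_range.2
    (Nat.lt_succ_of_le ((Nat.find_min' hex ⟨p1, p3⟩).trans p2)), (Nat.find_spec hex).1,
    (Nat.find_spec hex).2, fun s s1 s2 s3 => Nat.find_min hex s2 ⟨s1, s3⟩⟩
  exact ⟨f N c, a1, a2, a3, Prod.ext rfl (P.ev_cmp N c _)⟩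

theorem m3_small {β : Type} {g : ℕ} (s : Finset β) (hg : 0 < g) (Z : ℕ → Finset β)
    (hZ : ∀ j, Z j ⊆ s) (hd : ∀ i < g, ∀ j < g, i ≠ j → Disjoint (Z i) (Z j)) :
    ∃ j < g, g * (Z j).card ≤ s.card := by
  classical
  obtain ⟨j, hj, hmin⟩ := Finset.exists_min_image (Finset.range g) (fun j => (Z j).card)
    ⟨0, Finset.mem_range.2 hg⟩
  refine ⟨j, Finset.mem_range.1 hj, ?_⟩
  have h1 := Finset.card_nsmul_le_sum _ _ _ hmin
  rw [Finset.card_range, smul_eq_mul, ← Finset.card_biUnion] at h1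
  · exact h1.trans (Finset.card_le_card (Finset.biUnion_subset.2 fun i _ => hZ i))
  · exact fun a ha b hb hab => hd a (Finset.mem_range.1 ha) b (Finset.mem_range.1 hb) hab

theorem m3_orb {k : ℕ} {Q : Type} (P : PA k Q) (N t p : ℕ) :
    P.orb N (t + p) = (P.φ N)^[p] (P.orb N t) := by
  rw [PA.orb, PA.orb, Nat.add_comm, Function.iterate_add_apply]

theorem m3_cell {k H Δ : ℕ} (hΔ : 0 < Δ) {h : Fin k → ℤ} {X : Fin k → ℕ}
    (hX : ∀ j, X j ≤ H * Δ + 1) (hn : Near Δ h fun j => (X j : ℤ)) : h ∈ cells k H := by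
  refine mem_cells.2 fun j => ?_
  obtain ⟨h1, h2⟩ := hn j
  have h3 : (X j : ℤ) ≤ H * Δ + 1 := by exact_mod_cast hX j
  have h4 : (1 : ℤ) ≤ Δ := by exact_mod_cast hΔ
  have h5 : (0 : ℤ) ≤ X j := Int.natCast_nonneg _
  constructor <;> by_contra hc <;> push Not at hc <;> nlinarith

theorem m3_sign {k H Δ : ℕ} (hH : 2 ≤ H) (hΔ : 0 < Δ) (τ : IForm k) (hγ : |τ.2.2| ≤ Δ)
    {h X : Fin k → ℤ} (hn : Near Δ h X)
    (hb : τ.1 ≠ 0 → 2 * ∑ j, |τ.1 j| + 1 < |∑ j, τ.1 j * h j + τ.2.1 * H|) :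
    0 ≤ iev τ ((H * Δ : ℕ) : ℤ) X ↔
      if τ.1 = 0 ∧ τ.2.1 = 0 then 0 ≤ τ.2.2 else 0 ≤ ∑ j, τ.1 j * h j + τ.2.1 * H := by
  split_ifs with c
  · simp [iev, c.1, c.2]
  have hD : (0 : ℤ) < Δ := by exact_mod_cast hΔ
  have h1 : 2 * ∑ j, |τ.1 j| + 1 < |∑ j, τ.1 j * h j + τ.2.1 * H| := by
    by_cases h0 : τ.1 = 0
    · have h2 : 1 ≤ |τ.2.1| := Int.one_le_abs fun e => c ⟨h0, e⟩
      have h3 : (2 : ℤ) ≤ H := by exact_mod_cast hH
      simp only [h0, Pi.zero_apply, abs_zero, Finset.sum_const_zero, zero_mul, zero_add, abs_mul,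
        Nat.abs_cast]
      nlinarith
    · exact hb h0
  have h2 : |∑ j, τ.1 j * (X j - h j * Δ)| ≤ (∑ j, |τ.1 j|) * (2 * Δ) := by
    rw [Finset.sum_mul]
    refine (Finset.abs_sum_le_sum_abs _ _).trans (Finset.sum_le_sum fun j _ => ?_)
    rw [abs_mul]
    refine mul_le_mul_of_nonneg_left (abs_le.2 ⟨?_, ?_⟩) (abs_nonneg _)
    · linarith [(hn j).1]
    · linarith [(hn j).2]
  have h3 : iev τ ((H * Δ : ℕ) : ℤ) X =
      (∑ j, τ.1 j * h j + τ.2.1 * H) * Δ + ∑ j, τ.1 j * (X j - h j * Δ) + τ.2.2 := by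
    simp only [iev, mul_sub, Finset.sum_sub_distrib, add_mul, Finset.sum_mul, mul_assoc]
    push_cast
    ring
  rw [h3]
  generalize ∑ j, τ.1 j * h j + τ.2.1 * H = L at *
  generalize ∑ j, τ.1 j * (X j - h j * Δ) = u at *
  generalize ∑ j, |τ.1 j| = a at *
  obtain ⟨u1, u2⟩ := abs_le.1 h2
  obtain ⟨v1, v2⟩ := abs_le.1 hγ
  rcases le_or_gt 0 L with hL | hL
  · rw [abs_of_nonneg hL] at h1
    exact iff_of_true (by nlinarith) hL
  · rw [abs_of_neg hL] at h1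
    exact iff_of_false (not_le.2 (by nlinarith)) (not_le.2 hL)

theorem m3_slab {k : ℕ} (H C : ℕ) (τ : IForm k) (hC : 2 * ∑ j, |τ.1 j| + 1 ≤ C) :
    ((cells k H).filter fun h => τ.1 ≠ 0 ∧
      |∑ j, τ.1 j * h j + τ.2.1 * H| ≤ 2 * ∑ j, |τ.1 j| + 1).card * (H + 5) ≤
      (2 * C + 1) * (H + 5) ^ k := by
  by_cases h0 : τ.1 = 0
  · simp [h0]
  obtain ⟨j, hj⟩ := Function.ne_iff.1 h0
  have h1 := slab H (fun i => (τ.1 i : ℚ)) j (by exact_mod_cast hj) (τ.2.1 * H) C (by positivity)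
  have h2 : (1 : ℚ) ≤ |(τ.1 j : ℚ)| := by exact_mod_cast Int.one_le_abs hj
  have h3 : 2 * (C : ℚ) / |(τ.1 j : ℚ)| ≤ 2 * C := div_le_self (by positivity) h2
  have h4 : ((cells k H).filter fun h => τ.1 ≠ 0 ∧
      |∑ j, τ.1 j * h j + τ.2.1 * H| ≤ 2 * ∑ j, |τ.1 j| + 1).card ≤
      ((cells k H).filter fun h => |∑ i, (τ.1 i : ℚ) * h i + τ.2.1 * H| ≤ C).card :=
    Finset.card_le_card (Finset.monotone_filter_right _ fun h _ hh => by
      exact_mod_cast hh.2.trans hC)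
  refine (Nat.mul_le_mul_right _ h4).trans ?_
  have h5 := h1.trans (mul_le_mul_of_nonneg_right (add_le_add h3 le_rfl) (by positivity))
  exact_mod_cast h5

/-- ROW M3K: sparse checkpoints and jump tables (`H6P.mark_disj`, `H6P.mark_hit` are generic). -/
theorem markers {k : ℕ} (hk : 0 < k) {Q : Type} [Finite Q] (P : PA k Q) :
    ∃ K : MK k Q, K.Works P := by
  classical
  have := Fintype.ofFinite Q
  obtain ⟨A, hA⟩ : ∃ A, A = 128 * 4 ^ k := ⟨_, rfl⟩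
  have hA0 : 0 < A := by rw [hA]; positivity
  obtain ⟨g, hg⟩ : ∃ g, g = A * 2 ^ k * (Fintype.card Q + 1) := ⟨_, rfl⟩
  have hg0 : 0 < g := by rw [hg]; positivity
  obtain ⟨r, N0, H1, col, Exc, c1, c2, c3, c4, c5⟩ := colours P g (A * (Fintype.card Q + 1))
  let Stop : ℕ → ℚ → Q × (Fin k → ℚ) → Prop := fun j N c =>
    Mark (P.φ N) (col N) g r ((P.φ N)^[j] c) ∨ Exc N c ∨ P.out c.1 ≠ none
  have hStop : ∀ j, MP (Stop j) := fun j q =>
    (MP.iter P (m3_mark P c1 g r) j q).or ((c2 q).or (PB.const (P.out q ≠ none)))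
  choose mac hmac hm2 using fun j => m3_mac P (hStop j) (g * r + g)
  choose S0 hS0 using fun j => (hmac j).1
  let S : Finset (Q × AM k k) := (Finset.range g).biUnion S0
  have hS : ∀ j < g, ∀ N c, mac j N c ∈ S := fun j hj N c =>
    Finset.mem_biUnion.2 ⟨j, Finset.mem_range.2 hj, hS0 j N c⟩
  obtain ⟨β, sc, hβ0, hβ⟩ : ∃ (β : ℕ) (sc : Form k → IForm k), 0 < β ∧ ∀ y ∈ S, ∀ i (N : ℤ)
      (X : Fin k → ℤ), ((iev (sc (y.2 i)) N X : ℤ) : ℚ) =
        β * ev (y.2 i) N fun j => (X j : ℚ) := by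
    choose bf b1 b2 using fun τ : Form k => nfk_scale τ
    have h : ∀ τ : Form k, ∃ σ : IForm k, bf τ ∣ ∏ y ∈ S, ∏ i, bf (y.2 i) → ∀ (N : ℤ)
        (X : Fin k → ℤ), ((iev σ N X : ℤ) : ℚ) =
          (∏ y ∈ S, ∏ i, bf (y.2 i) : ℕ) * ev τ N fun j => (X j : ℚ) := fun τ => by
      by_cases h : bf τ ∣ ∏ y ∈ S, ∏ i, bf (y.2 i)
      · obtain ⟨σ, s1, s2, s3⟩ := b2 τ _ h
        exact ⟨σ, fun _ => nfk_iev s1 s2 s3⟩
      · exact ⟨(0, 0, 0), fun h' => (h h').elim⟩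
    choose sc hsc using h
    exact ⟨_, sc, Finset.prod_pos fun y _ => Finset.prod_pos fun i _ => b1 _, fun y hy i =>
      hsc _ ((Finset.dvd_prod_of_mem (fun i => bf (y.2 i)) (Finset.mem_univ i)).trans
        (Finset.dvd_prod_of_mem (fun y : Q × AM k k => ∏ i, bf (y.2 i)) hy))⟩
  let cv : Q × AM k k → Lab k Q := fun y => (y.1, fun i => sc (y.2 i))
  let R : ℕ × Q × Option (Q × AM k k) → ℚ → (Fin k → ℚ) → Prop := fun i N X =>
    i.2.2.elim (Mark (P.φ N) (col N) g r ((P.φ N)^[i.1] (i.2.1, X)))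
      fun y => mac i.1 N (i.2.1, X) = y
  let I : Finset (ℕ × Q × Option (Q × AM k k)) :=
    Finset.range g ×ˢ Finset.univ ×ˢ Finset.insertNone S
  obtain ⟨m, Fs, hm, hT⟩ := nf_fin I (P := R) (by
    rintro ⟨j, q, _ | y⟩ _
    · exact MP.iter P (m3_mark P c1 g r) j q
    · exact (hmac j).2 y q)
  obtain ⟨p, F, hF⟩ : ∃ (p : ℕ) (F : Fin p → IForm k), ∀ τ ∈ Fs, ∃ e, F e = τ :=
    ⟨_, fun e => (Fs.equivFin.symm e).1, fun τ h => ⟨Fs.equivFin ⟨τ, h⟩, by simp⟩⟩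
  let sn : ℕ → (Fin k → ℕ) → Fin p → Bool := fun N X e =>
    decide (0 ≤ iev (F e) (N : ℤ) fun j => (X j : ℤ))
  have hdet : ∀ i ∈ I, ∀ (N N' : ℕ) (X X' : Fin k → ℕ), m ∣ N → m ∣ N' →
      (fun j => X j % m) = (fun j => X' j % m) → sn N X = sn N' X' →
      R i N (fun j => (X j : ℚ)) → R i N' fun j => (X' j : ℚ) := fun i hi N N' X X' h1 h2 h3 h4 => by
    have := hT i hi N N' (fun j => X j) (fun j => X' j) h1 h2
      (fun j => Int.natCast_modEq_iff.2 (congrFun h3 j)) fun τ hτ => by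
        obtain ⟨e, rfl⟩ := hF τ hτ
        exact decide_eq_decide.1 (congrFun h4 e)
    simpa only [Int.cast_natCast] using this.1
  obtain ⟨Cb, hCb⟩ : ∃ Cb : ℕ, ∀ e, 2 * ∑ j, |(F e).1 j| + |(F e).2.2| < Cb := by
    refine ⟨1 + Finset.univ.sup fun e => (2 * ∑ j, |(F e).1 j| + |(F e).2.2|).toNat, fun e => ?_⟩
    have := Finset.le_sup (f := fun e => (2 * ∑ j, |(F e).1 j| + |(F e).2.2|).toNat)
      (Finset.mem_univ e)
    omega
  have hC1 : ∀ e, 2 * ∑ j, |(F e).1 j| + 1 ≤ Cb := fun e => by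
    have := hCb e
    have := abs_nonneg (F e).2.2
    omega
  have hC2 : ∀ e, |(F e).2.2| ≤ Cb := fun e => by
    have := hCb e
    have : 0 ≤ ∑ j, |(F e).1 j| := Finset.sum_nonneg fun j _ => abs_nonneg _
    omega
  obtain ⟨W, hW⟩ : ∃ W, W = (S.image cv).card + Nat.card Q * (2 * Cb + 1) ^ p := ⟨_, rfl⟩
  obtain ⟨H0, b1, b2, b3, b4⟩ : ∃ H0 : ℕ, H1 ≤ H0 ∧ 5 ≤ H0 ∧ A * 2 ≤ H0 ∧
      A * W * (p * (2 * Cb + 1)) * 2 ^ k ≤ H0 :=
    ⟨H1 + 5 + A * 2 + A * W * (p * (2 * Cb + 1)) * 2 ^ k, by omega, by omega, by omega, by omega⟩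
  have b5 : (H0 + 5) ^ k ≤ 2 ^ k * H0 ^ k := by
    rw [← mul_pow]
    exact Nat.pow_le_pow_left (by omega) _
  obtain ⟨E, e1, e2⟩ := c5 H0 b1
  let Bad : Finset (Fin k → ℤ) := Finset.univ.biUnion fun e => (cells k H0).filter fun h =>
    (F e).1 ≠ 0 ∧ |∑ j, (F e).1 j * h j + (F e).2.1 * H0| ≤ 2 * ∑ j, |(F e).1 j| + 1
  have hBad : A * W * Bad.card ≤ H0 ^ k := by
    have h1 : Bad.card * (H0 + 5) ≤ p * (2 * Cb + 1) * (H0 + 5) ^ k := by
      refine (Nat.mul_le_mul_right _ Finset.card_biUnion_le).trans ?_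
      rw [Finset.sum_mul]
      refine (Finset.sum_le_card_nsmul _ _ _ fun e _ => m3_slab H0 Cb (F e) (hC1 e)).trans ?_
      simp [mul_assoc]
    refine Nat.le_of_mul_le_mul_right (c := H0 + 5) ?_ (by omega)
    calc A * W * Bad.card * (H0 + 5) = A * W * (Bad.card * (H0 + 5)) := by ring
      _ ≤ A * W * (p * (2 * Cb + 1) * (2 ^ k * H0 ^ k)) :=
          Nat.mul_le_mul_left _ (h1.trans (Nat.mul_le_mul_left _ b5))
      _ = H0 ^ k * (A * W * (p * (2 * Cb + 1)) * 2 ^ k) := by ring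
      _ ≤ _ := Nat.mul_le_mul_left _ (by omega)
  let sg : (Fin k → ℤ) → Fin p → Bool := fun h e => decide
    (if (F e).1 = 0 ∧ (F e).2.1 = 0 then 0 ≤ (F e).2.2
      else 0 ≤ ∑ j, (F e).1 j * h j + (F e).2.1 * H0)
  have hgood : ∀ Δ : ℕ, N0 + Cb + 1 ≤ Δ → ∀ (h : Fin k → ℤ) (X : Fin k → ℕ),
      (∀ j, X j ≤ H0 * Δ + 1) → Near Δ h (fun j => (X j : ℤ)) → h ∉ Bad →
      ∀ e, sn (H0 * Δ) X e = sg h e := fun Δ hΔ h X h1 h2 h3 e => by
    refine decide_eq_decide.2 (m3_sign (by omega) (by omega) (F e)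
      ((hC2 e).trans (by omega)) h2 fun h4 => ?_)
    by_contra h5
    exact h3 (Finset.mem_biUnion.2 ⟨e, Finset.mem_univ _,
      Finset.mem_filter.2 ⟨m3_cell (by omega) h1 h2, h4, not_lt.1 h5⟩⟩)
  let res : Finset (Fin k → ℕ) := Fintype.piFinset fun _ => Finset.range m
  have hres : res.card = m ^ k := by simp [res]
  have hres' : ∀ X : Fin k → ℕ, (fun j => X j % m) ∈ res := fun X =>
    Fintype.mem_piFinset.2 fun j => Finset.mem_range.2 (Nat.mod_lt _ hm)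
  let Zs : ℕ → Finset (Q × (Fin k → ℤ) × (Fin k → ℕ)) := fun j =>
    (Finset.univ ×ˢ cells k H0 ×ˢ res).filter fun z => ∃ (N : ℕ) (X : Fin k → ℕ), m ∣ N ∧
      (fun j => X j % m) = z.2.2 ∧ sn N X = sg z.2.1 ∧ R (j, z.1, none) N fun j => (X j : ℚ)
  have hI0 : ∀ j < g, ∀ q, (j, q, none) ∈ I := fun j hj q => by simp [I, hj]
  obtain ⟨j, hj, hZ⟩ := m3_small (Finset.univ ×ˢ cells k H0 ×ˢ res) hg0 Zs
    (fun j => Finset.filter_subset _ _) fun i hi j hj hij => Finset.disjoint_left.2 fun z z1 z2 => by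
      obtain ⟨N, X, u1, u2, u3, u4⟩ := (Finset.mem_filter.1 z1).2
      obtain ⟨N', X', v1, v2, v3, v4⟩ := (Finset.mem_filter.1 z2).2
      exact hij (mark_disj hi hj
        (hdet _ (hI0 i hi _) N N' X X' u1 v1 (u2.trans v2.symm) (u3.trans v3.symm) u4) v4)
  have hI : ∀ q y, y ∈ S → (j, q, some y) ∈ I := fun q y hy => by simp [I, hj, hy]
  obtain ⟨rep, hrep⟩ : ∃ rep : (Fin k → ℕ) → (Fin p → Bool) → ℕ × (Fin k → ℕ),
      ∀ (N : ℕ) (X : Fin k → ℕ), m ∣ N → m ∣ (rep (fun j => X j % m) (sn N X)).1 ∧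
        (fun j => X j % m) = (fun i => (rep (fun j => X j % m) (sn N X)).2 i % m) ∧
        sn N X = sn (rep (fun j => X j % m) (sn N X)).1 (rep (fun j => X j % m) (sn N X)).2 :=
    ⟨fun l s => Classical.epsilon fun c : ℕ × (Fin k → ℕ) =>
      m ∣ c.1 ∧ l = (fun i => c.2 i % m) ∧ s = sn c.1 c.2, fun N X h =>
      Classical.epsilon_spec (p := fun c : ℕ × (Fin k → ℕ) => m ∣ c.1 ∧
        (fun j => X j % m) = (fun i => c.2 i % m) ∧ sn N X = sn c.1 c.2) ⟨(N, X), h, rfl, rfl⟩⟩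
  let Z : Finset (Q × (Fin k → ℤ) × (Fin k → ℕ)) :=
    insert (P.q0, (fun _ => 0), (fun _ => 0)) (Zs j ∪ Finset.univ ×ˢ E ×ˢ res)
  refine ⟨⟨β, m, H0, N0 + Cb + 1, p, Cb, F, S.image cv, Bad, Z, sg,
    fun q l s => cv (mac j (rep l s).1 (q, fun i => ((rep l s).2 i : ℚ))),
    hβ0, hm, by omega, fun q l s => Finset.mem_image_of_mem _ (hS j hj _ _), hCb, ?_, hgood⟩,
    Finset.mem_insert_self _ _, ?_⟩
  · have h1 : Z.card ≤ (Zs j).card + Fintype.card Q * (E.card * m ^ k) + 1 := by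
      refine (Finset.card_insert_le _ _).trans (Nat.succ_le_succ ?_)
      refine (Finset.card_union_le _ _).trans ?_
      simp only [Finset.card_product, Finset.card_univ, hres, le_refl]
    simp only [Finset.card_product, Finset.card_univ, hres, card_cells] at hZ
    rw [hg] at hZ
    rw [← hW, mul_pow]
    have h2 : A * (Zs j).card ≤ H0 ^ k * m ^ k := by
      refine Nat.le_of_mul_le_mul_left (c := 2 ^ k * (Fintype.card Q + 1)) ?_ (by positivity)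
      calc 2 ^ k * (Fintype.card Q + 1) * (A * (Zs j).card)
          = A * 2 ^ k * (Fintype.card Q + 1) * (Zs j).card := by ring
        _ ≤ Fintype.card Q * ((H0 + 5) ^ k * m ^ k) := hZ
        _ ≤ (Fintype.card Q + 1) * (2 ^ k * H0 ^ k * m ^ k) := by gcongr; omega
        _ = _ := by ring
    have h3 : A * (Fintype.card Q * (E.card * m ^ k)) ≤ H0 ^ k * m ^ k :=
      calc A * (Fintype.card Q * (E.card * m ^ k)) = A * Fintype.card Q * E.card * m ^ k := by ring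
        _ ≤ A * (Fintype.card Q + 1) * E.card * m ^ k := by gcongr; omega
        _ ≤ _ := Nat.mul_le_mul_right _ e1
    have h4 : A * (Bad.card * m ^ k * W) ≤ H0 ^ k * m ^ k :=
      calc A * (Bad.card * m ^ k * W) = A * W * Bad.card * m ^ k := by ring
        _ ≤ _ := Nat.mul_le_mul_right _ hBad
    have h5 : A * 2 ≤ H0 ^ k * m ^ k :=
      (b3.trans (Nat.le_self_pow hk.ne' _)).trans (Nat.le_mul_of_pos_right _ (by positivity))
    have h6 := Nat.mul_le_mul_left A h1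
    have h7 : 4 * (32 * 4 ^ k * (Z.card + Bad.card * m ^ k * W + 1)) =
        A * Z.card + A * (Bad.card * m ^ k * W) + A := by rw [hA]; ring
    rw [mul_add, mul_add] at h6
    omega
  intro Δ hΔ hmΔ b hR t q X hX
  dsimp only at hΔ hmΔ hR hX
  have hN : N0 ≤ H0 * Δ := le_trans (by omega) (Nat.le_mul_of_pos_left Δ (by omega))
  have hmN : m ∣ H0 * Δ := hmΔ.mul_left _
  obtain ⟨r1, r2, r3⟩ := hrep (H0 * Δ) X hmN
  have hl := hdet _ (hI q _ (hS j hj ((H0 * Δ : ℕ) : ℚ) (q, fun j => (X j : ℚ)))) _ _ X _ hmN r1 r2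
    r3 rfl
  have hl' : mac j (rep (fun j => X j % m) (sn (H0 * Δ) X)).1
      (q, fun i => ((rep (fun j => X j % m) (sn (H0 * Δ) X)).2 i : ℚ)) =
      mac j ((H0 * Δ : ℕ) : ℚ) (q, fun j => (X j : ℚ)) := hl
  show ∃ (t' : ℕ) (X' : Fin k → ℕ), t < t' ∧ P.orb (H0 * Δ) t' =
      ((cv (mac j (rep (fun j => X j % m) (sn (H0 * Δ) X)).1
        (q, fun i => ((rep (fun j => X j % m) (sn (H0 * Δ) X)).2 i : ℚ)))).1,
        fun j => (X' j : ℚ)) ∧
    (∀ i, (β : ℤ) * X' i = iev ((cv (mac j (rep (fun j => X j % m) (sn (H0 * Δ) X)).1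
        (q, fun i => ((rep (fun j => X j % m) (sn (H0 * Δ) X)).2 i : ℚ)))).2 i)
          ((H0 * Δ : ℕ) : ℤ) (fun j => (X j : ℤ))) ∧
    (∀ s, t < s → s < t' → P.out (P.orb (H0 * Δ) s).1 = none) ∧
    (P.out (cv (mac j (rep (fun j => X j % m) (sn (H0 * Δ) X)).1
        (q, fun i => ((rep (fun j => X j % m) (sn (H0 * Δ) X)).2 i : ℚ)))).1 = none →
      ∀ h' : Fin k → ℤ, Near Δ h' (fun j => (X' j : ℤ)) → h' ∉ Bad →
      ((cv (mac j (rep (fun j => X j % m) (sn (H0 * Δ) X)).1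
        (q, fun i => ((rep (fun j => X j % m) (sn (H0 * Δ) X)).2 i : ℚ)))).1, h',
          fun j => X' j % m) ∈ Z)
  rw [hl']
  clear hl hl' r1 r2 r3
  have hg1 := hgood Δ hΔ
  have he := fun h q X => e2 Δ h q X (by omega)
  have hc := fun (h : Fin k → ℤ) (X : Fin k → ℕ) => m3_cell (H := H0) (Δ := Δ) (h := h) (X := X)
    (by omega)
  generalize H0 * Δ = N at *
  obtain ⟨p', p1, p2, p3, p4⟩ := hm2 j N (q, fun j => (X j : ℚ)) (by
    rw [← hX]
    by_cases h : ∃ s ≤ g * r, Exc N (P.orb N (t + (j + 1 + s))) ∨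
        P.out (P.orb N (t + (j + 1 + s))).1 ≠ none
    · obtain ⟨s, s1, s2⟩ := h
      exact ⟨j + 1 + s, by omega, by omega, Or.inr (by rwa [← m3_orb])⟩
    · push Not at h
      obtain ⟨s, s1, s2⟩ := mark_hit (P.φ N) (col N) g r hg0 (P.orb N (t + (j + 1))) (c3 N)
        fun s p s1 s2 s3 => by
          rw [← m3_orb, ← m3_orb, ← Nat.add_assoc, Nat.add_assoc t]
          exact c4 N hN b hR _ p s2 s3 (h s s1).2 (h s s1).1
      refine ⟨s + 1, by omega, by omega, Or.inl ?_⟩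
      rw [← m3_orb] at s2
      rwa [← m3_orb, ← m3_orb, show t + (s + 1) + j = t + (j + 1) + s by ring])
  obtain ⟨X', x1, x2⟩ := hR.rng (t + p')
  have ho : P.orb N (t + p') = (P.φ N)^[p'] (q, fun j => (X j : ℚ)) := by rw [m3_orb, hX]
  have h7 : P.orb N (t + p') = ((mac j N (q, fun j => (X j : ℚ))).1, fun j => (X' j : ℚ)) :=
    Prod.ext (by rw [ho, p4]) x2
  refine ⟨t + p', X', by omega, h7, fun i => ?_, fun s s1 s2 => ?_, fun hout h' hn hb => ?_⟩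
  · have h8 : (X' i : ℚ) = ev ((mac j N (q, fun j => (X j : ℚ))).2 i) N fun j => (X j : ℚ) := by
      have := congrFun x2 i
      rw [ho, p4] at this
      exact this.symm
    have h9 := hβ _ (hS j hj N (q, fun j => (X j : ℚ))) i N fun j => X j
    simp only [Int.cast_natCast] at h9
    rw [← h8] at h9
    exact_mod_cast h9.symm
  · obtain ⟨s, rfl⟩ := Nat.exists_eq_add_of_le s1.le
    have := p3 s (by omega) (by omega)
    rw [← hX, ← m3_orb] at this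
    by_contra h
    exact this (Or.inr (Or.inr h))
  · rw [← ho, h7] at p2
    refine Finset.mem_insert_of_mem ?_
    rcases p2 with h | h | h
    · exact Finset.mem_union_left _ (Finset.mem_filter.2 ⟨Finset.mem_product.2
        ⟨Finset.mem_univ _, Finset.mem_product.2 ⟨hc h' X' x1 hn, hres' X'⟩⟩,
        N, X', hmN, rfl, funext (hg1 h' X' x1 hn hb), h⟩)
    · exact Finset.mem_union_right _ (Finset.mem_product.2 ⟨Finset.mem_univ _,
        Finset.mem_product.2 ⟨he h' _ (fun j => X' j) (hc h' X' x1 hn) hn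
          (by simpa only [Int.cast_natCast] using h), hres' X'⟩⟩)
    · exact (h hout).elim

end Pool.Agent.MP_47ff19_lc.H50K
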