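import Pool.Agent.MP_47ff19_lc.H50K.PBK
import Pool.Agent.MP_47ff19_lc.H6P.Phase

namespace Pool.Agent.MP_47ff19_lc.H50K

open Relation
open Pool.Agent.MP_47ff19_lc.H6P (Sym tape mv Op un tape_un A2 Table BHalts CM CHalts CStep val)
open Pool.Agent.MP_47ff19_lc.H6P.Pha (EvLin psum evlin_psum evper iter_per sy mz tape_sy mv_mz mv_le)

namespace PhK

variable {k : ℕ}

/-! ### forms -/

def con (c : ℚ) : Form k := (0, 0, c)

theorem ev_con (c N : ℚ) (X : Fin k → ℚ) : ev (con c) N X = c := by simp [ev, con]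

theorem ev_add (τ τ' : Form k) (N : ℚ) (X : Fin k → ℚ) :
    ev (τ + τ') N X = ev τ N X + ev τ' N X := by
  simp only [ev, Prod.fst_add, Prod.snd_add, Pi.add_apply, add_mul, Finset.sum_add_distrib]; ring

theorem ev_sub (τ τ' : Form k) (N : ℚ) (X : Fin k → ℚ) :
    ev (τ - τ') N X = ev τ N X - ev τ' N X := by
  simp only [ev, Prod.fst_sub, Prod.snd_sub, Pi.sub_apply, sub_mul, Finset.sum_sub_distrib]; ring

theorem ev_smul (c : ℚ) (τ : Form k) (N : ℚ) (X : Fin k → ℚ) :
    ev (c • τ) N X = c * ev τ N X := by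
  simp only [ev, Prod.smul_fst, Prod.smul_snd, smul_eq_mul, Pi.smul_apply, mul_add, Finset.mul_sum,
    mul_assoc]

theorem ev_zero (N : ℚ) (X : Fin k → ℚ) : ev (0 : Form k) N X = 0 := by simp [ev]

theorem ev_idm (j : Fin k) (N : ℚ) (X : Fin k → ℚ) : ev (idm k j) N X = X j :=
  congrFun (app_idm N X) j

theorem pb_nat (τ : Form k) : PB fun N X => ∃ n : ℕ, ev τ N X = n := by
  refine ((PB.int τ).and (PB.le τ)).congr ?_
  intro N X
  constructor
  · rintro ⟨⟨z, hz⟩, h0⟩
    have hz0 : 0 ≤ z := by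
      rw [hz] at h0; exact_mod_cast h0
    refine ⟨z.toNat, ?_⟩
    rw [hz]
    have : ((z.toNat : ℕ) : ℤ) = z := Int.toNat_of_nonneg hz0
    exact_mod_cast this.symm
  · rintro ⟨n, hk⟩
    exact ⟨⟨n, by rw [hk]; simp⟩, by rw [hk]; positivity⟩

theorem mp_dep {Q β : Type} {f : ℚ → Q × (Fin k → ℚ) → β} (h : Meas f) {S : β → ℚ → (Fin k → ℚ) → Prop}
    (hS : ∀ b, PB (S b)) : MP fun N c => S (f N c) N c.2 := by
  obtain ⟨⟨s, hs⟩, hm⟩ := h
  intro q
  refine (PB.ex s (P := fun b N X => f N (q, X) = b ∧ S b N X)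
    (fun b _ => (hm b q).and (hS b))).congr ?_
  intro N X
  constructor
  · rintro ⟨b, _, e, hb⟩
    simp only [e]; exact hb
  · intro hp
    exact ⟨_, hs N (q, X), rfl, hp⟩

theorem cand {s p : ℕ} (hp : 0 < p) {D : ℕ → ℤ} {A : ℤ} (hD : EvLin s p D A) (w : Form k) :
    ∃ K : Finset (ℕ × Form k), ∀ (N : ℚ) (X : Fin k → ℚ) (t : ℕ), ev w N X + D t = 0 →
      (∀ t' < t, ev w N X + D t' ≠ 0) →
      ∃ z ∈ K, ∃ n : ℕ, ev z.2 N X = n ∧ (n = 0 ∨ s ≤ z.1) ∧ t = z.1 + p * n := by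
  classical
  refine ⟨(Finset.range (s + p)).image (fun r => (r, con 0)) ∪
    (Finset.range (s + p)).image (fun r => (r, (-(1 / (A : ℚ))) • (w + con (D r)))), ?_⟩
  intro N X t h0 hmin
  by_cases ht : t < s + p
  · refine ⟨(t, con 0), ?_, 0, by simp [ev_con], Or.inl rfl, by simp⟩
    exact Finset.mem_union_left _ (Finset.mem_image.2 ⟨t, Finset.mem_range.2 ht, rfl⟩)
  · have hm : (t - s) % p < p := Nat.mod_lt _ hp
    have hd : (t - s) % p + p * ((t - s) / p) = t - s := Nat.mod_add_div _ _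
    generalize (t - s) % p = m at hm hd
    generalize (t - s) / p = n at hd
    have e : t = (s + m) + p * n := by omega
    have hl := hD (s + m) n (Or.inr (by omega))
    rw [← e] at hl
    have hA : A ≠ 0 := by
      intro hA
      apply hmin (s + m) (by omega)
      rw [hl, hA] at h0
      simpa using h0
    have hA' : (A : ℚ) ≠ 0 := by exact_mod_cast hA
    refine ⟨(s + m, (-(1 / (A : ℚ))) • (w + con (D (s + m)))), ?_, n, ?_, Or.inr (by simp), e⟩
    · exact Finset.mem_union_right _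
        (Finset.mem_image.2 ⟨s + m, Finset.mem_range.2 (by omega), rfl⟩)
    · rw [hl] at h0
      push_cast at h0
      simp only [ev_smul, ev_add, ev_con]
      field_simp
      linarith

theorem hit {s p : ℕ} (hp : 0 < p) {D : ℕ → ℤ} {A : ℤ} (hD : EvLin s p D A) (w T : Form k) :
    PB fun N X => ∃ t : ℕ, (t : ℚ) < ev T N X ∧ ev w N X + D t = 0 := by
  classical
  obtain ⟨K, hK⟩ := cand hp hD w
  refine (PB.ex K (P := fun z N X => (∃ n : ℕ, ev z.2 N X = n) ∧
      ((ev z.2 N X = ev (con 0) N X ∨ s ≤ z.1) ∧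
      (ev (con z.1 + (p : ℚ) • z.2) N X < ev T N X ∧
      ev (w + con (D z.1) + (A : ℚ) • z.2) N X = ev (con 0) N X)))
    (fun z _ => (pb_nat _).and (((PB.eq2 _ _).or (PB.const _)).and
      ((PB.lt2 _ _).and (PB.eq2 _ _))))).congr ?_
  intro N X
  simp only [ev_add, ev_smul, ev_con]
  constructor
  · rintro ⟨z, _, ⟨n, hk⟩, h1, h2, h3⟩
    rw [hk] at h1 h2 h3
    have h1' : n = 0 ∨ s ≤ z.1 := h1.imp (fun h => by exact_mod_cast h) id
    refine ⟨z.1 + p * n, by push_cast; exact h2, ?_⟩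
    rw [hD _ _ h1']
    push_cast
    linarith
  · rintro ⟨t, ht, h0⟩
    have hex : ∃ t : ℕ, ev w N X + D t = 0 := ⟨t, h0⟩
    have hle : Nat.find hex ≤ t := Nat.find_min' hex h0
    obtain ⟨z, hz, n, hk, h1, e⟩ := hK N X (Nat.find hex) (Nat.find_spec hex)
      (fun t' h' => Nat.find_min hex h')
    have hs := Nat.find_spec hex
    rw [e] at hs hle
    rw [hD _ _ h1] at hs
    push_cast at hs
    have hle' : ((z.1 + p * n : ℕ) : ℚ) ≤ t := by exact_mod_cast hle
    push_cast at hle'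
    refine ⟨z, hz, ⟨n, hk⟩, ?_, ?_, ?_⟩
    · rw [hk]; exact h1.imp (fun h => by simp [h]) id
    · rw [hk]; linarith
    · rw [hk]; linarith

/-! ### boundary types -/

/-- `(i, inl false)`: head `i` on the left marker; `(i, inl true)`: on the right marker;
`(i, inr j)`: on the cell of head `i.succAbove j`. -/
abbrev Ty (k : ℕ) := Fin (k + 1) × (Bool ⊕ Fin k)

def lin {α : Type} [Sub α] [Zero α] (e : Ty k) (x : Fin (k + 1) → α) : α :=
  x e.1 - Sum.elim (fun _ => 0) (fun j => x (e.1.succAbove j)) e.2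

def cst (e : Ty k) : ℚ := Sum.elim (fun b => if b then 1 else 0) (fun _ => 0) e.2

def bd (e : Ty k) (N : ℚ) (x : Fin (k + 1) → ℚ) : ℚ := lin e x - cst e * (N + 1)

def wf (e : Ty k) (ξ : AM k (k + 1)) : Form k := lin e ξ - cst e • ((0, 1, 1) : Form k)

theorem ev_one (N : ℚ) (X : Fin k → ℚ) : ev ((0, 1, 1) : Form k) N X = N + 1 := by simp [ev]

theorem ev_wf (e : Ty k) (ξ : AM k (k + 1)) (N : ℚ) (X : Fin k → ℚ) :
    ev (wf e ξ) N X = bd e N (app ξ N X) := by
  obtain ⟨i, t⟩ := e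
  cases t <;> simp only [wf, bd, lin, ev_sub, ev_smul, ev_one, ev_zero, app, Sum.elim_inl,
    Sum.elim_inr]

def xf (e : Ty k) : AM k (k + 1) :=
  Fin.insertNth (α := fun _ => Form k) e.1
    (Sum.elim (fun _ => 0) (fun j => idm k j) e.2 + cst e • ((0, 1, 1) : Form k)) (idm k)

def co {α : Type} (e : Ty k) (x : Fin (k + 1) → α) : Fin k → α := fun j => x (e.1.succAbove j)

theorem enc_co (e : Ty k) (N : ℚ) (x : Fin (k + 1) → ℚ) (h : bd e N x = 0) :
    app (xf e) N (co e x) = x := by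
  obtain ⟨i, t⟩ := e
  funext a
  refine Fin.succAboveCases i ?_ (fun j => ?_) a
  · simp only [app, xf, Fin.insertNth_apply_same, ev_add, ev_smul, ev_one]
    cases t with
    | inl b =>
      simp only [bd, lin, Sum.elim_inl] at h ⊢
      rw [ev_zero]; linarith
    | inr j =>
      simp only [bd, lin, Sum.elim_inr] at h ⊢
      rw [ev_idm]; simp only [co]; linarith
  · simp only [app, xf, Fin.insertNth_apply_succAbove, ev_idm, co]

theorem coord (e : Ty k) (N : ℚ) (X : Fin k → ℚ) : co e (app (xf e) N X) = X := by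
  funext j
  simp only [app, xf, co, Fin.insertNth_apply_succAbove, ev_idm]

/-! ### one step -/

def eqm (v : Ty k → Bool) (i j : Fin (k + 1)) : Bool :=
  decide (j = i ∨ ∃ a, i.succAbove a = j ∧ v (i, Sum.inr a) = true)

variable {Q : Type} (M : MultiHead (k + 1) Unit Q)

/-- the move as a function of the view -/
def mov (q : Q) (v : Ty k → Bool) : Q × (Fin (k + 1) → ℤ) :=
  ((M.δ q (fun i => sy (v (i, Sum.inl false)) (v (i, Sum.inl true))) (eqm v)).1,
    fun i => mz (v (i, Sum.inl false)) (v (i, Sum.inl true))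
      ((M.δ q (fun i => sy (v (i, Sum.inl false)) (v (i, Sum.inl true))) (eqm v)).2 i))

def vw (N : ℚ) (x : Fin (k + 1) → ℚ) : Ty k → Bool := fun e => decide (bd e N x = 0)

def InR (N : ℕ) (c : Q × (Fin (k + 1) → ℕ)) : Prop := ∀ i, c.2 i ≤ N + 1

theorem inR_step (N : ℕ) (c : Q × (Fin (k + 1) → ℕ)) (h : InR N c) :
    InR N (M.step (un N) c) := by
  intro i
  simp only [MultiHead.step, List.length_replicate]; exact mv_le _ _ (h i) _

theorem inR_iter (N : ℕ) (c : Q × (Fin (k + 1) → ℕ)) (h : InR N c) (t : ℕ) :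
    InR N ((M.step (un N))^[t] c) := by
  induction t with
  | zero => exact h
  | succ t ih => rw [Function.iterate_succ_apply']; exact inR_step M N _ ih

theorem step_mov (N : ℕ) (c : Q × (Fin (k + 1) → ℕ)) (h : InR N c) :
    (M.step (un N) c).1 = (mov M c.1 (vw N fun i => (c.2 i : ℚ))).1 ∧
    ∀ i, ((M.step (un N) c).2 i : ℚ) = c.2 i + (mov M c.1 (vw N fun i => (c.2 i : ℚ))).2 i := by
  obtain ⟨q, x⟩ := c
  have v1 : ∀ i, vw N (fun i => (x i : ℚ)) (i, Sum.inl false) = decide (x i = 0) := by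
    intro i
    simp [vw, bd, lin, cst]
  have v2 : ∀ i, vw N (fun i => (x i : ℚ)) (i, Sum.inl true) = decide (x i = N + 1) := by
    intro i
    refine decide_eq_decide.2 ?_
    simp only [bd, lin, cst, Sum.elim_inl, if_true]
    constructor
    · intro h
      have : (x i : ℚ) = ((N + 1 : ℕ) : ℚ) := by push_cast; linarith
      exact_mod_cast this
    · intro h; rw [h]; push_cast; ring
  have v3 : eqm (vw N fun i => (x i : ℚ)) = fun i j => decide (x i = x j) := by
    funext i j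
    refine decide_eq_decide.2 ?_
    simp only [vw, bd, lin, cst, Sum.elim_inr, decide_eq_true_eq]
    constructor
    · rintro (rfl | ⟨a, rfl, h⟩)
      · rfl
      · have : (x i : ℚ) = x (i.succAbove a) := by linarith
        exact_mod_cast this
    · intro h
      by_cases e : j = i
      · exact Or.inl e
      · obtain ⟨a, rfl⟩ := Fin.exists_succAbove_eq e
        exact Or.inr ⟨a, rfl, by rw [h]; ring⟩
  have ht : (fun i => tape (un N) (x i)) = fun i => sy (decide (x i = 0)) (decide (x i = N + 1)) := by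
    funext i
    exact tape_sy N (x i) (h i)
  simp only [MultiHead.step, mov, v1, v2, v3, List.length_replicate, ht]
  exact ⟨trivial, fun i => mv_mz N (x i) (h i) _⟩

/-! ### the free run -/

def ff (q : Q) : Q := (mov M q (fun _ => false)).1

def Dx (q : Q) (i : Fin (k + 1)) : ℕ → ℤ :=
  psum fun t => (mov M ((ff M)^[t] q) (fun _ => false)).2 i

theorem free_run (N : ℕ) (c : Q × (Fin (k + 1) → ℕ)) (h : InR N c) (t : ℕ)
    (hin : ∀ t' < t, ∀ e, bd e N (fun i => (c.2 i : ℚ) + Dx M c.1 i t') ≠ 0) :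
    ((M.step (un N))^[t] c).1 = (ff M)^[t] c.1 ∧
    (fun i => (((M.step (un N))^[t] c).2 i : ℚ)) = fun i => (c.2 i : ℚ) + Dx M c.1 i t := by
  induction t with
  | zero => simp [Dx, psum]
  | succ t ih =>
    obtain ⟨e1, e2⟩ := ih (fun t' ht' => hin t' (by omega))
    obtain ⟨s1, s2⟩ := step_mov M N _ (inR_iter M N c h t)
    have hv : vw N (fun i => (((M.step (un N))^[t] c).2 i : ℚ)) = fun _ => false := by
      funext e
      rw [e2]
      simp only [vw, decide_eq_false_iff_not]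
      exact hin t (by omega) e
    rw [hv, e1] at s1 s2
    rw [Function.iterate_succ_apply', Function.iterate_succ_apply']
    refine ⟨s1, ?_⟩
    funext i
    rw [s2 i, congrFun e2 i]; simp only [Dx, psum]; push_cast; ring

/-- the boundary functional `e` along the free run from the data `δ` -/
def B (δ : Q × AM k (k + 1)) (e : Ty k) (t : ℕ) (N : ℚ) (X : Fin k → ℚ) : ℚ :=
  bd e N (fun i => app δ.2 N X i + Dx M δ.1 i t)

def Di (q : Q) (e : Ty k) (t : ℕ) : ℤ := lin e (fun i => Dx M q i t)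

theorem B_eq (δ : Q × AM k (k + 1)) (e : Ty k) (t : ℕ) (N : ℚ) (X : Fin k → ℚ) :
    B M δ e t N X = ev (wf e δ.2) N X + Di M δ.1 e t := by
  rw [ev_wf]
  obtain ⟨i, a⟩ := e
  cases a <;> simp only [B, bd, Di, lin, Sum.elim_inl, Sum.elim_inr] <;> push_cast <;> ring

def Ax (s p : ℕ) (q : Q) (i : Fin (k + 1)) : ℤ := Dx M q i (s + p) - Dx M q i s

theorem evx {s p : ℕ} (h : ∀ t, s ≤ t → (ff M)^[t + p] = (ff M)^[t]) (q : Q) (i : Fin (k + 1)) :
    EvLin s p (Dx M q i) (Ax M s p q i) :=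
  evlin_psum (fun t ht => by rw [h t ht])

theorem evi {s p : ℕ} (h : ∀ t, s ≤ t → (ff M)^[t + p] = (ff M)^[t]) (q : Q) (e : Ty k) :
    EvLin s p (Di M q e) (lin e (Ax M s p q)) := by
  intro r n hn
  obtain ⟨i, a⟩ := e
  cases a with
  | inl b =>
    simp only [Di, lin, Sum.elim_inl]
    rw [evx M h q i r n hn]
    ring
  | inr j =>
    simp only [Di, lin, Sum.elim_inr]
    rw [evx M h q i r n hn, evx M h q _ r n hn]
    ring

/-- `b = (e, r, κ)` describes the first exit -/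
def G (s p : ℕ) (δ : Q × AM k (k + 1)) (b : Ty k × ℕ × Form k) (N : ℚ) (X : Fin k → ℚ) : Prop :=
  ∃ n : ℕ, ev b.2.2 N X = n ∧ (n = 0 ∨ s ≤ b.2.1) ∧ B M δ b.1 (b.2.1 + p * n) N X = 0 ∧
    ∀ t' < b.2.1 + p * n, ∀ e, B M δ e t' N X ≠ 0

theorem pb_G {s p : ℕ} (hp : 0 < p) (h : ∀ t, s ≤ t → (ff M)^[t + p] = (ff M)^[t])
    (δ : Q × AM k (k + 1)) (b : Ty k × ℕ × Form k) : PB (G M s p δ b) := by
  obtain ⟨i, r, κ⟩ := b
  have h4 := PB.all (Finset.univ : Finset (Ty k))
    (P := fun i' N X => ¬ ∃ t : ℕ, (t : ℚ) < ev (con r + (p : ℚ) • κ) N X ∧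
      ev (wf i' δ.2) N X + Di M δ.1 i' t = 0)
    (fun i' _ => (hit hp (evi M h δ.1 i') _ _).not)
  refine ((pb_nat κ).and (((PB.eq2 κ (con 0)).or (PB.const (s ≤ r))).and
    ((PB.eq2 (wf i δ.2 + con (Di M δ.1 i r) +
      ((lin i (Ax M s p δ.1) : ℤ) : ℚ) • κ) (con 0)).and h4))).congr ?_
  intro N X
  simp only [G, B_eq, ev_add, ev_smul, ev_con]
  constructor
  · rintro ⟨⟨n, hk⟩, h1, h2, h3⟩
    rw [hk] at h1 h2 h3
    have h1' : n = 0 ∨ s ≤ r := h1.imp (fun h => by exact_mod_cast h) id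
    refine ⟨n, hk, h1', ?_, ?_⟩
    · rw [evi M h δ.1 i r n h1']
      push_cast at h2 ⊢
      linarith
    · intro t' ht' i' h0
      refine h3 i' (Finset.mem_univ _) ⟨t', ?_, h0⟩
      exact_mod_cast ht'
  · rintro ⟨n, hk, h1, h2, h3⟩
    rw [evi M h δ.1 i r n h1] at h2
    rw [hk]
    refine ⟨⟨n, rfl⟩, h1.imp (fun h => by simp [h]) id, ?_, ?_⟩
    · push_cast at h2 ⊢
      linarith
    · rintro i' _ ⟨t', ht', h0⟩
      refine h3 t' ?_ i' h0
      exact_mod_cast ht'

theorem ex_G {s p : ℕ} (hp : 0 < p) (h : ∀ t, s ≤ t → (ff M)^[t + p] = (ff M)^[t])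
    (δ : Q × AM k (k + 1)) : ∃ K : Finset (Ty k × ℕ × Form k), ∀ (N : ℚ) (X : Fin k → ℚ),
      (∃ t i, B M δ i t N X = 0) → ∃ b ∈ K, G M s p δ b N X := by
  classical
  choose K hK using fun i => cand hp (evi M h δ.1 i) (wf i δ.2)
  refine ⟨Finset.univ.biUnion fun i => (K i).image fun z => (i, z), ?_⟩
  intro N X hex
  obtain ⟨i, hi⟩ := Nat.find_spec hex
  have hmin : ∀ t' < Nat.find hex, ∀ i, B M δ i t' N X ≠ 0 :=
    fun t' ht' i' h0 => Nat.find_min hex ht' ⟨i', h0⟩
  obtain ⟨z, hz, n, hk, h1, e⟩ := hK i N X (Nat.find hex) (by rw [← B_eq]; exact hi)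
    (fun t' ht' => by rw [← B_eq]; exact hmin t' ht' i)
  refine ⟨(i, z), Finset.mem_biUnion.2 ⟨i, Finset.mem_univ _,
    Finset.mem_image.2 ⟨z, hz, rfl⟩⟩, n, hk, h1, ?_, ?_⟩
  · simp only [← e]; exact hi
  · simp only [← e]; exact hmin

/-- the label of the exit `b` -/
def L (s p : ℕ) (δ : Q × AM k (k + 1)) (b : Ty k × ℕ × Form k) : (Q × Ty k) × AM k k :=
  (((ff M)^[b.2.1] δ.1, b.1),
    co b.1 (fun i => δ.2 i + con (Dx M δ.1 i b.2.1) + (Ax M s p δ.1 i : ℚ) • b.2.2))

def Enc (N : ℕ) (c' : (Q × Ty k) × (Fin k → ℚ)) (c : Q × (Fin (k + 1) → ℕ)) : Prop :=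
  c'.1.1 = c.1 ∧ app (xf c'.1.2) N c'.2 = fun i => (c.2 i : ℚ)

theorem G_enc {s p : ℕ} (h : ∀ t, s ≤ t → (ff M)^[t + p] = (ff M)^[t])
    (δ : Q × AM k (k + 1)) (b : Ty k × ℕ × Form k) (N : ℕ) (X : Fin k → ℚ)
    (c : Q × (Fin (k + 1) → ℕ)) (hc : InR N c)
    (e1 : δ.1 = c.1) (e2 : app δ.2 N X = fun i => (c.2 i : ℚ))
    (hG : G M s p δ b N X) :
    ∃ t, Enc N ((L M s p δ b).1, app (L M s p δ b).2 N X) ((M.step (un N))^[t] c) := by
  obtain ⟨n, hk, h1, h2, h3⟩ := hG
  simp only [B, e1, e2] at h2 h3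
  obtain ⟨f1, f2⟩ := free_run M N c hc _ h3
  refine ⟨b.2.1 + p * n, ?_⟩
  have g2 : app (L M s p δ b).2 N X
      = co b.1 (fun i => (c.2 i : ℚ) + Dx M c.1 i (b.2.1 + p * n)) := by
    funext j
    have := congrFun e2 (b.1.1.succAbove j)
    simp only [app] at this
    simp only [app, L, co]
    rw [evx M h c.1 _ _ _ h1]
    simp only [ev_add, ev_smul, ev_con, hk, e1, this]
    push_cast; ring
  refine ⟨?_, ?_⟩
  · simp only [L]
    rw [f1, iter_per h _ _ h1, e1]
  · rw [g2, f2]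
    exact enc_co _ _ _ h2

/-- the data after the first step -/
def datf (z : (Q × Ty k) × (Ty k → Bool)) : Q × AM k (k + 1) :=
  ((mov M z.1.1 z.2).1, fun i => xf z.1.2 i + con ((mov M z.1.1 z.2).2 i))

def view (N : ℚ) (c : (Q × Ty k) × (Fin k → ℚ)) : Ty k → Bool :=
  vw N (app (xf c.1.2) N c.2)

theorem meas_view : Meas (view : ℚ → (Q × Ty k) × (Fin k → ℚ) → Ty k → Bool) := by
  classical
  refine ⟨⟨Finset.univ, fun _ _ => Finset.mem_univ _⟩, fun v q => ?_⟩
  refine (PB.all (Finset.univ : Finset (Ty k))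
    (P := fun i N X => (ev (wf i (xf q.2)) N X = ev (con 0) N X ∧ v i = true) ∨
      (¬ ev (wf i (xf q.2)) N X = ev (con 0) N X ∧ v i = false))
    (fun i _ => ((PB.eq2 _ _).and (PB.const _)).or ((PB.eq2 _ _).not.and (PB.const _)))).congr ?_
  intro N X
  simp only [ev_wf, ev_con, view, funext_iff, vw, Finset.mem_univ, true_imp_iff]
  refine forall_congr' fun i => ?_
  by_cases h0 : bd i N (app (xf q.2) N X) = 0 <;> cases v i <;> simp [h0]

theorem exists_lab [Finite Q] :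
    ∃ lab : ℚ → (Q × Ty k) × (Fin k → ℚ) → (Q × Ty k) × AM k k, Meas lab ∧
    ∀ (N : ℕ) (c' : (Q × Ty k) × (Fin k → ℚ)) (c : Q × (Fin (k + 1) → ℕ)), InR N c → Enc N c' c →
      (∃ u, ((M.step (un N))^[u + 1] c).2 0 = 0) →
      ∃ u, Enc N ((lab N c').1, app (lab N c').2 N c'.2) ((M.step (un N))^[u + 1] c) := by
  classical
  obtain ⟨s, p, hp, h⟩ := evper (ff M)
  have hdat : Meas fun (N : ℚ) (c : (Q × Ty k) × (Fin k → ℚ)) => datf M (c.1, view N c) :=
    (Meas.state.prod meas_view).map (datf M)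
  obtain ⟨S, hS⟩ := hdat.1
  choose K hK using ex_G M hp h
  obtain ⟨f, hf, hch⟩ := Meas.choose (S.biUnion K) ((0, Sum.inl false), 0, con 0)
    (fun b N (c : (Q × Ty k) × (Fin k → ℚ)) => G M s p (datf M (c.1, view N c)) b N c.2)
    (fun b _ => mp_dep hdat (S := fun δ => G M s p δ b) (fun δ => pb_G M hp h δ b))
  refine ⟨fun N c => L M s p (datf M (c.1, view N c)) (f N c),
    (hdat.prod hf).map (fun z => L M s p z.1 z.2), ?_⟩
  rintro N c' c hc ⟨a1, a2⟩ ⟨u, hu⟩
  obtain ⟨s1, s2⟩ := step_mov M N c hc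
  have hc1 := inR_step M N c hc
  have hv : view N c' = vw N fun i => (c.2 i : ℚ) := by simp only [view, a2]
  have e1 : (datf M (c'.1, view N c')).1 = (M.step (un N) c).1 := by
    simp only [datf, hv, a1, s1]
  have e2 : app (datf M (c'.1, view N c')).2 N c'.2 = fun i => ((M.step (un N) c).2 i : ℚ) := by
    funext i
    have := congrFun a2 i
    simp only [app] at this
    simp only [datf, hv, a1, s2, app, ev_add, ev_con, this]
  have hex : ∃ t i, B M (datf M (c'.1, view N c')) i t N c'.2 = 0 := by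
    by_contra hn
    have hn' : ∀ t i, B M (datf M (c'.1, view N c')) i t N c'.2 ≠ 0 :=
      fun t i h0 => hn ⟨t, i, h0⟩
    simp only [B, e1, e2] at hn'
    obtain ⟨_, f2⟩ := free_run M N _ hc1 u (fun t' _ i => hn' t' i)
    rw [Function.iterate_succ_apply] at hu
    apply hn' u (0, Sum.inl false)
    rw [← f2]
    simp [bd, lin, cst, hu]
  obtain ⟨b, hb, hG⟩ := hK _ N c'.2 hex
  have := (hch N c' ⟨b, Finset.mem_biUnion.2 ⟨_, hS N c', hb⟩, hG⟩).2
  obtain ⟨t, ht⟩ := G_enc M h _ _ N c'.2 _ hc1 e1 e2 this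
  exact ⟨t, by rw [Function.iterate_succ_apply]; exact ht⟩

end PhK

open PhK in
/-- ROW PHK: the boundary dynamics (a head on a marker or two heads on one cell) is piecewise affine
in the `k` remaining coordinates. -/
theorem phase (k : ℕ) (Q : Type) [Finite Q] (M : MultiHead (k + 1) Unit Q) (out : Q → Option Bool)
    (habs : ∀ q b s e, out q = some b → M.δ q s e = (q, fun _ => 0)) :
    ∃ (Q' : Type) (_ : Finite Q') (P : PA k Q'), ∀ (N t : ℕ) (b : Bool),
      out ((M.step (un N))^[t] (M.start, fun _ => 0)).1 = some b →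
      ((M.step (un N))^[t] (M.start, fun _ => 0)).2 = (fun _ => 0) → P.Runs N b := by
  obtain ⟨lab, hm, hlab⟩ := exists_lab M
  refine ⟨Q × Ty k, inferInstance,
    ⟨(M.start, (0, Sum.inl false)), fun q => out q.1, lab, hm⟩, ?_⟩
  intro N t b hb h0
  generalize hP : (⟨(M.start, (0, Sum.inl false)), fun q => out q.1, lab, hm⟩ : PA k (Q × Ty k)) = P
  have hq0 : P.q0 = (M.start, (0, Sum.inl false)) := by rw [← hP]
  have hout : ∀ q, P.out q = out q.1 := by intro q; rw [← hP]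
  have hφ : ∀ c, P.φ N c = ((lab N c).1, app (lab N c).2 N c.2) := by intro c; rw [← hP]; rfl
  generalize hR : (fun u => (M.step (un N))^[u] (M.start, fun _ => 0)) = R
  have hRu : ∀ u, (M.step (un N))^[u] (M.start, fun _ => 0) = R u := fun u => congrFun hR u
  rw [hRu] at hb h0
  have hadd : ∀ u j, R (u + j) = (M.step (un N))^[j] (R u) := by
    intro u j
    rw [← hRu, ← hRu, Nat.add_comm u j, Function.iterate_add_apply]
  have hin : ∀ u, InR N (R u) := fun u => by
    rw [← hRu]; exact inR_iter M N _ (fun i => by simp) u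
  have habs' : ∀ u b', out (R u).1 = some b' → ∀ u', u ≤ u' → R u' = R u := by
    intro u b' hu u' hu'
    obtain ⟨j, rfl⟩ := Nat.exists_eq_add_of_le hu'
    rw [hadd]
    apply Function.iterate_fixed
    simp only [MultiHead.step, habs _ _ _ _ hu]
    rfl
  have hnext : ∀ n u, Enc N (P.orb N n) (R u) → ∃ u', u < u' ∧ Enc N (P.orb N (n + 1)) (R u') := by
    intro n u he
    obtain ⟨j, hj⟩ := hlab N _ _ (hin u) he ⟨t, by
      rw [← hadd, habs' t b hb _ (by omega), h0]⟩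
    refine ⟨u + (j + 1), by omega, ?_⟩
    rw [hadd]
    simp only [PA.orb, Function.iterate_succ_apply', hφ] at hj ⊢
    exact hj
  have hmany : ∀ p n u, Enc N (P.orb N n) (R u) →
      ∃ u', u + p ≤ u' ∧ Enc N (P.orb N (n + p)) (R u') := by
    intro p n u he
    induction p with
    | zero => exact ⟨u, le_rfl, he⟩
    | succ p ih =>
      obtain ⟨u1, h1, e1⟩ := ih
      obtain ⟨u2, h2, e2⟩ := hnext _ _ e1
      exact ⟨u2, by omega, e2⟩
  have hall : ∀ n, ∃ u, n ≤ u ∧ Enc N (P.orb N n) (R u) := by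
    intro n
    have e0 : Enc N (P.orb N 0) (R 0) := by
      rw [← hRu]
      refine ⟨by simp [PA.orb, hq0], ?_⟩
      have := enc_co ((0, Sum.inl false) : Ty k) N (fun _ => 0) (by simp [bd, lin, cst])
      simp only [PA.orb, hq0, Function.iterate_zero, id, Nat.cast_zero]
      exact this
    simpa using hmany n 0 0 e0
  refine ⟨?_, ?_, ?_, ?_⟩
  · intro n
    obtain ⟨u, _, _, e2⟩ := hall n
    refine ⟨fun j => (R u).2 ((P.orb N n).1.2.1.succAbove j), fun j => hin u _, ?_⟩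
    rw [← coord (P.orb N n).1.2 N (P.orb N n).2, e2]
    rfl
  · obtain ⟨u, hu, e1, _⟩ := hall (t + 1)
    refine ⟨t + 1, by omega, ?_⟩
    rw [hout, e1, habs' t b hb u (by omega), hb]
  · intro n b' hn
    obtain ⟨u, _, e1, _⟩ := hall n
    rw [hout, e1] at hn
    have g1 := habs' u b' hn (u + t) (by omega)
    have g2 := habs' t b hb (u + t) (by omega)
    rw [← g1, g2, hb] at hn
    exact (Option.some.inj hn).symm
  · intro n p hp hn e
    obtain ⟨u, _, he⟩ := hall n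
    obtain ⟨u', hu', he'⟩ := hmany p n u he
    rw [e] at he'
    have hRR : R u' = R u := by
      obtain ⟨a1, a2⟩ := he
      obtain ⟨b1, b2⟩ := he'
      refine Prod.ext (b1.symm.trans a1) (funext fun i => ?_)
      exact_mod_cast congrFun (b2.symm.trans a2) i
    obtain ⟨d, rfl⟩ : ∃ d, u' = u + (d + 1) := ⟨u' - u - 1, by omega⟩
    have hper : ∀ j, R (u + (d + 1) * j) = R u := by
      intro j
      rw [hadd, Function.iterate_mul]
      apply Function.iterate_fixed
      rw [← hadd, hRR]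
    have hge : t ≤ u + (d + 1) * t := by nlinarith
    rw [hout, he.1, ← hper t, habs' t b hb _ hge, hb] at hn
    cases hn

end Pool.Agent.MP_47ff19_lc.H50K
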