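import Pool.Agent.MP_47ff19_lc.H50K.GlueK
import Pool.Agent.MP_47ff19_lc.H50K.HaltK
import Pool.Agent.MP_47ff19_lc.H50K.PhaseK
import Pool.Agent.MP_47ff19_lc.H50K.Mark3K
import Pool.Agent.MP_47ff19_lc.H50K.ArithK

namespace Pool.Agent.MP_47ff19_lc.H50K

open Relation
open Pool.Agent.MP_47ff19_lc.H6P (Sym tape mv Op un tape_un A2 Table BHalts CM CHalts CStep val)

theorem main (k : ℕ) (hk : 0 < k) :
    ∃ (Q G : Type) (_ : Finite Q) (_ : Finite G) (D : MultiPDA k Unit Q G),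
    ∀ (Q' : Type) (_ : Finite Q') (M : MultiHead (k + 1) Unit Q'),
      ∃ w : List Unit, ¬ (M.Accepts w ↔ D.Accepts w) := by
  obtain ⟨Q, G, hQ, hG, D, hD⟩ := glue k hk
  refine ⟨Q, G, hQ, hG, D, fun Q' hQ' M => ?_⟩
  obtain ⟨Q1, h1, M', out, habs, hM'⟩ := halting (k + 1) Q' M
  obtain ⟨Q2, h2, P, hP⟩ := phase k Q1 M' out habs
  obtain ⟨K, hK⟩ := markers hk P
  obtain ⟨F1, F2, hF1, hF2, A, f0, ν1, c1, c2, hA⟩ := arith hk P K hK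
  obtain ⟨lam0, hl⟩ := hD K.p F1 F2 A f0 ν1 c1 c2
  obtain ⟨st2, c0, o, n0, hst, hn⟩ := hA lam0
  obtain ⟨n, hn0, hans⟩ := hl (k * lam0) (Nat.le_mul_of_pos_left _ hk) st2 hst c0 n0
  obtain ⟨hcap, hrun⟩ := hn n hn0
  obtain ⟨t, b, ho, hx, hb⟩ := hM' ((2 * o + 1) * 2 ^ (n + c0))
  have hans' := hans o (!b) hcap (hrun b (hP _ t b ho hx))
  refine ⟨un ((2 * o + 1) * 2 ^ (n + c0)), fun hiff => ?_⟩
  unfold Answers at hans'
  rw [← hiff, ← hb] at hans'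
  cases b <;> simp at hans'

end Pool.Agent.MP_47ff19_lc.H50K
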